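import Pool.Agent.Work.MP_b0c12c_tup.Interface

/-! # AVE: a shift and a residue with few survivors -/

set_option autoImplicit false

namespace Pool.LGT

open Finset Filter
open Pool.LGP Pool.LGC

theorem AVE_one (s : Finset ℕ) (f : ℕ → ℝ) (h : ∀ x ∈ s, 1 ≤ f x) : 1 ≤ ∏ x ∈ s, f x := by
  calc (1 : ℝ) = ∏ x ∈ s, (1 : ℝ) := by simp
    _ ≤ _ := Finset.prod_le_prod (fun _ _ => zero_le_one) h

/-- The singular factor. -/
noncomputable def AVE_F (R : Finset ℕ) (n : ℕ) : ℝ :=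
  ∏ p ∈ R, (if p ∣ n then (1 - 1 / (p : ℝ))⁻¹ else 1)

theorem AVE_p {p : ℕ} (hp : p.Prime) : 0 < 1 - 1 / (p : ℝ) ∧ 1 - 1 / (p : ℝ) ≤ 1 := by
  have h2 : (2 : ℝ) ≤ p := by exact_mod_cast hp.two_le
  constructor
  · have : 1 / (p : ℝ) ≤ 1 / 2 := one_div_le_one_div_of_le (by norm_num) h2
    linarith
  · have : 0 ≤ 1 / (p : ℝ) := by positivity
    linarith

theorem AVE_f1 {p : ℕ} (hp : p.Prime) (n : ℕ) :
    (1 : ℝ) ≤ (if p ∣ n then (1 - 1 / (p : ℝ))⁻¹ else 1) := by
  split_ifs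
  · exact (one_le_inv₀ (AVE_p hp).1).2 (AVE_p hp).2
  · exact le_rfl

theorem AVE_F1 (R : Finset ℕ) (hR : ∀ p ∈ R, p.Prime) (n : ℕ) : 1 ≤ AVE_F R n := by
  unfold AVE_F
  apply AVE_one
  intro p hp
  exact AVE_f1 (hR p hp) n

/-- The distance. -/
def AVE_d (h h' : ℕ) : ℕ := ((h' : ℤ) - h).natAbs

theorem AVE_prod (R A : Finset ℕ) (hR : ∀ p ∈ R, p.Prime) (n : ℕ) :
    (∏ p ∈ R, (open Classical in
      if ∃ h ∈ A, n ≡ h [MOD p] then 1 else 1 - 1 / (p : ℝ))) ≤
      Pi' R * ∏ h ∈ A, AVE_F R (AVE_d n h) := by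
  classical
  unfold Pi' AVE_F
  rw [Finset.prod_comm, ← Finset.prod_mul_distrib]
  apply Finset.prod_le_prod
  · intro p hp
    split_ifs
    · exact zero_le_one
    · exact (AVE_p (hR p hp)).1.le
  · intro p hp
    have hp' := hR p hp
    obtain ⟨h1, h2⟩ := AVE_p hp'
    split_ifs with hex
    · obtain ⟨h, hA, hmod⟩ := hex
      have hd : p ∣ AVE_d n h := by
        have := (Nat.modEq_iff_dvd).1 hmod
        exact Int.natCast_dvd.1 this
      have h3 : (1 - 1 / (p : ℝ))⁻¹ ≤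
          ∏ h ∈ A, (if p ∣ AVE_d n h then (1 - 1 / (p : ℝ))⁻¹ else 1) := by
        rw [← Finset.mul_prod_erase A _ hA, if_pos hd]
        have h4 : 1 ≤ ∏ h ∈ A.erase h, (if p ∣ AVE_d n h then (1 - 1 / (p : ℝ))⁻¹ else 1) :=
          AVE_one _ _ fun x _ => AVE_f1 hp' _
        have h5 : 0 ≤ (1 - 1 / (p : ℝ))⁻¹ := inv_nonneg.2 h1.le
        calc (1 - 1 / (p : ℝ))⁻¹ = (1 - 1 / (p : ℝ))⁻¹ * 1 := (mul_one _).symm
          _ ≤ _ := mul_le_mul_of_nonneg_left h4 h5
      calc (1 : ℝ) = (1 - 1 / (p : ℝ)) * (1 - 1 / (p : ℝ))⁻¹ := (mul_inv_cancel₀ h1.ne').symm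
        _ ≤ _ := mul_le_mul_of_nonneg_left h3 h1.le
    · have h4 : 1 ≤ ∏ h ∈ A, (if p ∣ AVE_d n h then (1 - 1 / (p : ℝ))⁻¹ else 1) :=
        AVE_one _ _ fun x _ => AVE_f1 hp' _
      calc 1 - 1 / (p : ℝ) = (1 - 1 / (p : ℝ)) * 1 := (mul_one _).symm
        _ ≤ _ := mul_le_mul_of_nonneg_left h4 h1.le

theorem AVE_max {k : ℕ} (A : Finset ℕ) (hA : A.card ≤ k) (f : ℕ → ℝ) (hf : ∀ h, 1 ≤ f h) :
    ∏ h ∈ A, f h ≤ 1 + ∑ h ∈ A, f h ^ k := by
  rcases A.eq_empty_or_nonempty with rfl | hne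
  · simp
  · obtain ⟨m, hm, hmax⟩ := Finset.exists_max_image A f hne
    have h0 : ∀ h, 0 ≤ f h := fun h => le_trans zero_le_one (hf h)
    calc ∏ h ∈ A, f h ≤ ∏ _h ∈ A, f m :=
          Finset.prod_le_prod (fun h _ => h0 h) fun h hh => hmax h hh
      _ = f m ^ A.card := by rw [Finset.prod_const]
      _ ≤ f m ^ k := pow_le_pow_right₀ (hf m) hA
      _ ≤ ∑ h ∈ A, f h ^ k :=
          Finset.single_le_sum (f := fun h => f h ^ k) (fun h _ => pow_nonneg (h0 h) k) hm
      _ ≤ _ := by linarith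

theorem AVE_two (H h' : ℕ) (hh' : h' ∈ Icc 1 H) (g : ℕ → ℝ) (hg : ∀ n, 0 ≤ g n) :
    ∑ h ∈ (Icc 1 H).erase h', g (AVE_d h h') ≤ 2 * ∑ n ∈ Icc 1 H, g n := by
  have hh := mem_Icc.1 hh'
  have h1 : (Icc 1 H).erase h' =
      ((Icc 1 H).filter (fun h => h < h')) ∪ ((Icc 1 H).filter (fun h => h' < h)) := by
    ext x
    simp only [mem_erase, mem_union, mem_filter, mem_Icc]
    omega
  have hdis : Disjoint ((Icc 1 H).filter (fun h => h < h'))
      ((Icc 1 H).filter (fun h => h' < h)) := by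
    rw [Finset.disjoint_left]
    intro x hx hx'
    have := (mem_filter.1 hx).2
    have := (mem_filter.1 hx').2
    omega
  rw [h1, Finset.sum_union hdis, two_mul]
  apply add_le_add
  · have h2 : ∑ h ∈ (Icc 1 H).filter (fun h => h < h'), g (AVE_d h h') =
        ∑ n ∈ ((Icc 1 H).filter (fun h => h < h')).image (fun h => AVE_d h h'), g n := by
      rw [Finset.sum_image]
      intro x hx y hy hxy
      have hx2 := (mem_filter.1 hx).2
      have hy2 := (mem_filter.1 hy).2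
      simp only [AVE_d] at hxy
      omega
    rw [h2]
    apply Finset.sum_le_sum_of_subset_of_nonneg
    · intro n hn
      obtain ⟨h, hh2, rfl⟩ := mem_image.1 hn
      have h3 := mem_filter.1 hh2
      have h4 := mem_Icc.1 h3.1
      rw [mem_Icc]
      simp only [AVE_d]
      omega
    · intro n _ _
      exact hg n
  · have h2 : ∑ h ∈ (Icc 1 H).filter (fun h => h' < h), g (AVE_d h h') =
        ∑ n ∈ ((Icc 1 H).filter (fun h => h' < h)).image (fun h => AVE_d h h'), g n := by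
      rw [Finset.sum_image]
      intro x hx y hy hxy
      have hx2 := (mem_filter.1 hx).2
      have hy2 := (mem_filter.1 hy).2
      simp only [AVE_d] at hxy
      omega
    rw [h2]
    apply Finset.sum_le_sum_of_subset_of_nonneg
    · intro n hn
      obtain ⟨h, hh2, rfl⟩ := mem_image.1 hn
      have h3 := mem_filter.1 hh2
      have h4 := mem_Icc.1 h3.1
      rw [mem_Icc]
      simp only [AVE_d]
      omega
    · intro n _ _
      exact hg n

theorem p_AVE (hAVK : Stmt_AVK) (hFSK : Stmt_FSK) : Stmt_AVE := by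
  classical
  intro k
  obtain ⟨C, hC, hF⟩ := hFSK k
  refine ⟨1 + 2 * k * C, by positivity, ?_⟩
  intro R A B H hH hR hAk hAH hadm
  obtain ⟨V, hVne, hV, hVn⟩ := hAVK R A hR hadm
  set T := Icc 1 H \ A with hT
  set N : ℕ → ℕ → ℕ := fun c v =>
    (T.filter (fun h => h + c ∈ B ∧ ∀ p ∈ R, ¬ p ∣ v + h)).card with hN
  have hPi : 0 ≤ Pi' R := by
    unfold Pi'
    exact Finset.prod_nonneg fun p hp => (AVE_p (hR p hp)).1.le
  -- the total count
  have h1 : ∑ c ∈ range H, ∑ v ∈ V, N c v = ∑ h ∈ T,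
      ((range H).filter (fun c => h + c ∈ B)).card *
        (V.filter (fun v => ∀ p ∈ R, ¬ p ∣ v + h)).card := by
    have e1 : ∀ c v, N c v = ∑ h ∈ T, (if h + c ∈ B then 1 else 0) *
        (if ∀ p ∈ R, ¬ p ∣ v + h then 1 else 0) := by
      intro c v
      simp only [hN]
      rw [Finset.card_filter]
      apply Finset.sum_congr rfl
      intro h _
      by_cases h1 : h + c ∈ B <;> by_cases h2 : ∀ p ∈ R, ¬ p ∣ v + h
      · rw [if_pos ⟨h1, h2⟩, if_pos h1, if_pos h2]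
      · rw [if_neg (fun h => h2 h.2), if_neg h2, mul_zero]
      · rw [if_neg (fun h => h1 h.1), if_neg h1, zero_mul]
      · rw [if_neg (fun h => h1 h.1), if_neg h1, zero_mul]
    simp only [e1]
    calc ∑ c ∈ range H, ∑ v ∈ V, ∑ h ∈ T, (if h + c ∈ B then 1 else 0) *
          (if ∀ p ∈ R, ¬ p ∣ v + h then 1 else 0)
        = ∑ c ∈ range H, ∑ h ∈ T, ∑ v ∈ V, (if h + c ∈ B then 1 else 0) *
          (if ∀ p ∈ R, ¬ p ∣ v + h then 1 else 0) :=
          Finset.sum_congr rfl fun c _ => Finset.sum_comm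
      _ = ∑ h ∈ T, ∑ c ∈ range H, ∑ v ∈ V, (if h + c ∈ B then 1 else 0) *
          (if ∀ p ∈ R, ¬ p ∣ v + h then 1 else 0) := Finset.sum_comm
      _ = _ := by
          apply Finset.sum_congr rfl
          intro h _
          rw [Finset.card_filter, Finset.card_filter, Finset.sum_mul_sum]
  have h2 : (∑ c ∈ range H, ∑ v ∈ V, (N c v : ℝ)) ≤
      ∑ c ∈ range H, ∑ v ∈ V, ((1 + 2 * k * C) * (Pi' R * B.card)) := by
    have e1 : (∑ c ∈ range H, ∑ v ∈ V, (N c v : ℝ)) =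
        ∑ h ∈ T, ((((range H).filter (fun c => h + c ∈ B)).card : ℝ) *
          ((V.filter (fun v => ∀ p ∈ R, ¬ p ∣ v + h)).card : ℝ)) := by
      have := congrArg (Nat.cast : ℕ → ℝ) h1
      push_cast at this
      exact this
    rw [e1]
    have e2 : ∀ h ∈ T, ((((range H).filter (fun c => h + c ∈ B)).card : ℝ) *
          ((V.filter (fun v => ∀ p ∈ R, ¬ p ∣ v + h)).card : ℝ)) ≤
        (B.card : ℝ) * (V.card * (Pi' R * (1 + ∑ h' ∈ A, AVE_F R (AVE_d h h') ^ k))) := by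
      intro h _
      have e3 : (((range H).filter (fun c => h + c ∈ B)).card : ℝ) ≤ B.card := by
        have : ((range H).filter (fun c => h + c ∈ B)).card ≤ B.card := by
          apply Finset.card_le_card_of_injOn (fun c => h + c)
          · intro c hc
            exact (mem_filter.1 hc).2
          · intro c _ c' _ hcc
            simp only at hcc
            omega
        exact_mod_cast this
      have e4 : ((V.filter (fun v => ∀ p ∈ R, ¬ p ∣ v + h)).card : ℝ) ≤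
          V.card * (Pi' R * (1 + ∑ h' ∈ A, AVE_F R (AVE_d h h') ^ k)) := by
        have e5 := hVn h
        have e6 := AVE_prod R A hR h
        have e7 := AVE_max A hAk (fun h' => AVE_F R (AVE_d h h')) fun h' => AVE_F1 R hR _
        have e8 : Pi' R * ∏ h' ∈ A, AVE_F R (AVE_d h h') ≤
            Pi' R * (1 + ∑ h' ∈ A, AVE_F R (AVE_d h h') ^ k) :=
          mul_le_mul_of_nonneg_left e7 hPi
        have e9 := mul_le_mul_of_nonneg_left (le_trans e6 e8) (Nat.cast_nonneg (α := ℝ) V.card)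
        refine le_trans ?_ e9
        convert e5 using 2
      exact mul_le_mul e3 e4 (Nat.cast_nonneg _) (Nat.cast_nonneg _)
    refine le_trans (Finset.sum_le_sum e2) ?_
    rw [← Finset.mul_sum, ← Finset.mul_sum, ← Finset.mul_sum, Finset.sum_add_distrib]
    have e3 : ∑ h ∈ T, ∑ h' ∈ A, AVE_F R (AVE_d h h') ^ k ≤ k * (2 * (C * H)) := by
      rw [Finset.sum_comm]
      have e4 : ∀ h' ∈ A, ∑ h ∈ T, AVE_F R (AVE_d h h') ^ k ≤ 2 * (C * H) := by
        intro h' hh'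
        have e5 : ∑ h ∈ T, AVE_F R (AVE_d h h') ^ k ≤
            ∑ h ∈ (Icc 1 H).erase h', AVE_F R (AVE_d h h') ^ k := by
          apply Finset.sum_le_sum_of_subset_of_nonneg
          · intro x hx
            obtain ⟨hx1, hx2⟩ := mem_sdiff.1 hx
            exact mem_erase.2 ⟨fun h => hx2 (h ▸ hh'), hx1⟩
          · intro x _ _
            exact pow_nonneg (le_trans zero_le_one (AVE_F1 R hR _)) k
        have e6 := AVE_two H h' (hAH hh') (fun n => AVE_F R n ^ k)
          fun n => pow_nonneg (le_trans zero_le_one (AVE_F1 R hR _)) k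
        have e7 := hF R H hR
        have e8 : ∑ n ∈ Icc 1 H, AVE_F R n ^ k ≤ C * H := e7
        linarith
      calc ∑ h' ∈ A, ∑ h ∈ T, AVE_F R (AVE_d h h') ^ k ≤ ∑ _h' ∈ A, 2 * (C * (H : ℝ)) :=
            Finset.sum_le_sum e4
        _ = A.card * (2 * (C * H)) := by rw [Finset.sum_const, nsmul_eq_mul]
        _ ≤ k * (2 * (C * H)) := by
            apply mul_le_mul_of_nonneg_right _ (by positivity)
            exact_mod_cast hAk
    have e4 : (∑ _h ∈ T, (1 : ℝ)) ≤ H := by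
      rw [Finset.sum_const, nsmul_eq_mul, mul_one]
      have : T.card ≤ H := by
        calc T.card ≤ (Icc 1 H).card := card_le_card sdiff_subset
          _ = H := by simp
      exact_mod_cast this
    have e5 : (∑ _h ∈ T, (1 : ℝ)) + ∑ h ∈ T, ∑ h' ∈ A, AVE_F R (AVE_d h h') ^ k ≤
        H * (1 + 2 * k * C) := by
      calc _ ≤ (H : ℝ) + k * (2 * (C * H)) := add_le_add e4 e3
        _ = _ := by ring
    have e6 : (∑ _c ∈ range H, ∑ _v ∈ V, ((1 + 2 * k * C) * (Pi' R * B.card))) =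
        (B.card : ℝ) * (V.card * (Pi' R * (H * (1 + 2 * k * C)))) := by
      rw [Finset.sum_const, Finset.sum_const, nsmul_eq_mul, nsmul_eq_mul, card_range]
      ring
    rw [e6]
    apply mul_le_mul_of_nonneg_left _ (Nat.cast_nonneg _)
    apply mul_le_mul_of_nonneg_left _ (Nat.cast_nonneg _)
    exact mul_le_mul_of_nonneg_left e5 hPi
  -- choice of the shift and of the residue
  obtain ⟨c, hc, h3⟩ := Finset.exists_le_of_sum_le (s := range H) (by
    rw [Finset.nonempty_range_iff]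
    omega) h2
  obtain ⟨v, hv, h4⟩ := Finset.exists_le_of_sum_le hVne h3
  refine ⟨c, mem_range.1 hc, v, hV v hv, ?_⟩
  have h5 : ((Icc 1 H).filter (fun h => h + c ∈ B ∧ ∀ p ∈ R, ¬ p ∣ v + h)).card ≤
      k + N c v := by
    have e1 : (Icc 1 H).filter (fun h => h + c ∈ B ∧ ∀ p ∈ R, ¬ p ∣ v + h) ⊆
        A ∪ T.filter (fun h => h + c ∈ B ∧ ∀ p ∈ R, ¬ p ∣ v + h) := by
      intro x hx
      obtain ⟨hx1, hx2⟩ := mem_filter.1 hx
      by_cases hxA : x ∈ A
      · exact mem_union_left _ hxA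
      · exact mem_union_right _ (mem_filter.2 ⟨mem_sdiff.2 ⟨hx1, hxA⟩, hx2⟩)
    calc _ ≤ (A ∪ T.filter (fun h => h + c ∈ B ∧ ∀ p ∈ R, ¬ p ∣ v + h)).card := card_le_card e1
      _ ≤ A.card + N c v := card_union_le _ _
      _ ≤ _ := by omega
  have h6 : (((Icc 1 H).filter (fun h => h + c ∈ B ∧ ∀ p ∈ R, ¬ p ∣ v + h)).card : ℝ) ≤
      k + (N c v : ℝ) := by exact_mod_cast h5
  linarith

end Pool.LGT
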