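import Pool.Agent.Work.MP_b0c12c_tup.Interface
import Pool.Agent.Work.MP_b0c12c_chain.B_AVG

/-! # Block AVK (helper59): the residues compatible with `A` -/

set_option autoImplicit false

namespace Pool.LGT

open Finset Filter
open Pool.LGP Pool.LGC

theorem AVK_modEq {p r n h : ℕ} (h1 : p ∣ r + n) (h2 : p ∣ r + h) : n ≡ h [MOD p] := by
  have h3 : r + n ≡ r + h [MOD p] :=
    ((Nat.modEq_zero_iff_dvd).mpr h1).trans ((Nat.modEq_zero_iff_dvd).mpr h2).symm
  exact Nat.ModEq.add_left_cancel' r h3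

theorem AVK_neg {p : ℕ} (hp : 0 < p) (n : ℕ) : ∃ r ∈ range p, p ∣ r + n := by
  have h : (p - n % p) % p ∈ (range p).filter (fun v => p ∣ v + n) := by
    rw [AVG_one hp n]
    exact Finset.mem_singleton_self _
  exact ⟨_, (Finset.mem_filter.mp h).1, (Finset.mem_filter.mp h).2⟩

theorem p_AVK : Stmt_AVK := by
  classical
  intro R A hR hA
  refine ⟨(range (∏ p ∈ R, p)).filter (fun v => ∀ p ∈ R, ∀ h ∈ A, ¬ p ∣ v + h), ?_, ?_, ?_⟩
  · rw [← Finset.card_pos, AVG_gen R hR (fun p v => ∀ h ∈ A, ¬ p ∣ v + h)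
      (fun p v w h => forall₂_congr fun x _ => not_congr (AVG_modEq x v w h))]
    apply Finset.prod_pos
    intro p hp
    obtain ⟨r₀, hr₀⟩ := hA p hp
    obtain ⟨r, hr, hr2⟩ := AVK_neg (hR p hp).pos r₀
    rw [Finset.card_pos]
    refine ⟨r, Finset.mem_filter.mpr ⟨hr, ?_⟩⟩
    intro h hh hd
    exact hr₀ h hh (AVK_modEq hd hr2)
  · intro v hv h hh p hp
    exact (Finset.mem_filter.mp hv).2 p hp h hh
  · intro n
    rw [Finset.filter_filter]
    have e1 : (range (∏ p ∈ R, p)).filter (fun v => (∀ p ∈ R, ∀ h ∈ A, ¬ p ∣ v + h) ∧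
        ∀ p ∈ R, ¬ p ∣ v + n) = (range (∏ p ∈ R, p)).filter (fun v => ∀ p ∈ R,
        ((∀ h ∈ A, ¬ p ∣ v + h) ∧ ¬ p ∣ v + n)) := by
      refine Finset.filter_congr fun v _ => ?_
      constructor
      · intro h p hp
        exact ⟨h.1 p hp, h.2 p hp⟩
      · intro h
        exact ⟨fun p hp => (h p hp).1, fun p hp => (h p hp).2⟩
    rw [e1, AVG_gen R hR (fun p v => (∀ h ∈ A, ¬ p ∣ v + h) ∧ ¬ p ∣ v + n)
      (fun p v w h => and_congr (forall₂_congr fun x _ => not_congr (AVG_modEq x v w h))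
        (not_congr (AVG_modEq n v w h))),
      AVG_gen R hR (fun p v => ∀ h ∈ A, ¬ p ∣ v + h)
      (fun p v w h => forall₂_congr fun x _ => not_congr (AVG_modEq x v w h)),
      Nat.cast_prod, Nat.cast_prod, ← Finset.prod_mul_distrib]
    apply Finset.prod_le_prod
    · intro p _
      exact Nat.cast_nonneg _
    · intro p hp
      have hp0 := (hR p hp).pos
      have hp0' : (0 : ℝ) < p := by exact_mod_cast hp0
      have hsub : (range p).filter (fun v => (∀ h ∈ A, ¬ p ∣ v + h) ∧ ¬ p ∣ v + n) ⊆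
          (range p).filter (fun v => ∀ h ∈ A, ¬ p ∣ v + h) := by
        intro v hv
        rw [Finset.mem_filter] at hv ⊢
        exact ⟨hv.1, hv.2.1⟩
      by_cases hc : ∃ h ∈ A, n ≡ h [MOD p]
      · rw [if_pos hc, mul_one]
        exact_mod_cast Finset.card_le_card hsub
      · rw [if_neg hc]
        obtain ⟨r, hr, hr2⟩ := AVK_neg hp0 n
        have hr3 : r ∈ (range p).filter (fun v => ∀ h ∈ A, ¬ p ∣ v + h) := by
          refine Finset.mem_filter.mpr ⟨hr, ?_⟩
          intro h hh hd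
          exact hc ⟨h, hh, AVK_modEq hr2 hd⟩
        have hlt : ((range p).filter (fun v => (∀ h ∈ A, ¬ p ∣ v + h) ∧ ¬ p ∣ v + n)).card <
            ((range p).filter (fun v => ∀ h ∈ A, ¬ p ∣ v + h)).card := by
          apply Finset.card_lt_card
          refine (Finset.ssubset_iff_of_subset hsub).mpr ⟨r, hr3, ?_⟩
          intro h
          exact (Finset.mem_filter.mp h).2.2 hr2
        have hle : ((range p).filter (fun v => ∀ h ∈ A, ¬ p ∣ v + h)).card ≤ p := by
          calc _ ≤ (range p).card := Finset.card_filter_le _ _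
            _ = p := Finset.card_range p
        have h1 : (((range p).filter (fun v => (∀ h ∈ A, ¬ p ∣ v + h) ∧ ¬ p ∣ v + n)).card : ℝ) +
            1 ≤ ((range p).filter (fun v => ∀ h ∈ A, ¬ p ∣ v + h)).card := by
          exact_mod_cast hlt
        have h2 : (((range p).filter (fun v => ∀ h ∈ A, ¬ p ∣ v + h)).card : ℝ) ≤ p := by
          exact_mod_cast hle
        have h3 : (((range p).filter (fun v => ∀ h ∈ A, ¬ p ∣ v + h)).card : ℝ) * (1 / (p : ℝ)) ≤
            1 := by
          rw [mul_one_div, div_le_one hp0']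
          exact h2
        rw [mul_sub, mul_one]
        linarith

end Pool.LGT
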