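import Pool.Agent.Work.MP_b0c12c_tup.Interface
import Pool.Agent.Work.MP_b0c12c_chain.B_AVG

/-! # Block CRC (helper59): counting with the Chinese remainder theorem -/

set_option autoImplicit false

namespace Pool.LGT

open Finset Filter
open Pool.LGP Pool.LGC

theorem p_CRC : Stmt_CRC := by
  intro R hR P _
  rw [AVG_gen R hR (fun p v => P p (v % p)) (fun p v w h => by
    have h1 : v % p = w % p := h
    rw [h1])]
  refine Finset.prod_congr rfl fun p hp => ?_
  congr 1
  refine Finset.filter_congr fun v hv => ?_
  rw [Nat.mod_eq_of_lt (Finset.mem_range.mp hv)]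

end Pool.LGT
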