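import Pool.Agent.Work.MP_b0c12c_tup.Interface
import Pool.Agent.Work.MP_b0c12c_chain.B_DATXa
import Pool.Agent.Work.MP_b0c12c_chain.B_TAB

/-! # Block DATT (helper34): the data of the construction exist -/

set_option autoImplicit false

namespace Pool.LGT

open Finset Filter
open Pool.LGP Pool.LGC

/-- The number of scales and the length of the tuple. -/
theorem DATT_k (c₁ C₁ Cφ θ : ℝ) (h1 : 0 < c₁) (h2 : 0 < C₁) (h3 : 0 < Cφ) (h4 : 0 < θ) :
    ∃ C₃ : ℝ, 0 < C₃ ∧ ∀ m : ℕ, ∃ n k₀ : ℕ, 1 ≤ n ∧ 1 ≤ k₀ ∧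
      (k₀ : ℝ) ≤ Real.exp (C₃ * (m + 1)) ∧ 4 * k₀ * C₁ * n ≤ c₁ * 4 ^ n ∧
      256 * (3 * (m : ℝ) + 1) * C₁ * Cφ * ((4 : ℝ) ^ n / n ^ 2) / θ < k₀ := by
  set B : ℝ := 2048 * C₁ ^ 2 * Cφ / (θ * c₁) with hB
  have hB0 : 0 < B := by positivity
  set A : ℝ := 3 * B + 4 * C₁ / c₁ + 1 with hA
  have hA0 : 0 < A := by positivity
  have hA1 : 1 ≤ A := by
    have : 0 < 3 * B + 4 * C₁ / c₁ := by positivity
    linarith
  refine ⟨c₁ / (4 * C₁) + 2 * (A + 1), by positivity, ?_⟩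
  intro m
  have hm0 : (0 : ℝ) ≤ m := Nat.cast_nonneg _
  set n : ℕ := ⌈A * (m + 1)⌉₊ with hn
  have hn1 : A * (m + 1) ≤ n := Nat.le_ceil _
  have hn2 : (n : ℝ) < A * (m + 1) + 1 := Nat.ceil_lt_add_one (by positivity)
  have hn3 : (1 : ℝ) ≤ n := by nlinarith
  have hn0 : (0 : ℝ) < n := by linarith
  have hpow : (n : ℝ) ^ 2 ≤ 4 ^ n := by
    have h : n ≤ 2 ^ n := Nat.lt_two_pow_self.le
    have h' : (n : ℝ) ≤ 2 ^ n := by exact_mod_cast h
    calc (n : ℝ) ^ 2 ≤ (2 ^ n) ^ 2 := by gcongr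
      _ = 4 ^ n := by rw [← pow_mul, mul_comm, pow_mul]; norm_num
  set x : ℝ := c₁ * 4 ^ n / (4 * C₁ * n) with hx
  have hx0 : 0 < x := by positivity
  have hx1 : 1 ≤ x := by
    rw [hx, le_div_iff₀ (by positivity), one_mul]
    have e1 : 4 * C₁ / c₁ ≤ n := by
      have : 4 * C₁ / c₁ ≤ A := by
        have : 0 < 3 * B := by positivity
        linarith
      nlinarith
    have e2 : 4 * C₁ ≤ n * c₁ := by rwa [div_le_iff₀ h1] at e1
    calc 4 * C₁ * n ≤ n * c₁ * n := by gcongr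
      _ = c₁ * (n : ℝ) ^ 2 := by ring
      _ ≤ c₁ * 4 ^ n := by gcongr
  have hk1 : (⌊x⌋₊ : ℝ) ≤ x := Nat.floor_le hx0.le
  have hk2 : x < ⌊x⌋₊ + 1 := Nat.lt_floor_add_one x
  have hk3 : 1 ≤ ⌊x⌋₊ := Nat.one_le_floor_iff _ |>.2 hx1
  have hk3' : (1 : ℝ) ≤ ⌊x⌋₊ := by exact_mod_cast hk3
  refine ⟨n, ⌊x⌋₊, by exact_mod_cast hn3, hk3, ?_, ?_, ?_⟩
  · have e1 : x ≤ c₁ / (4 * C₁) * 4 ^ n := by
      rw [hx]
      calc c₁ * 4 ^ n / (4 * C₁ * n) ≤ c₁ * 4 ^ n / (4 * C₁ * 1) := by gcongr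
        _ = c₁ / (4 * C₁) * 4 ^ n := by ring
    have e2 : c₁ / (4 * C₁) ≤ Real.exp (c₁ / (4 * C₁)) := by
      have := Real.add_one_le_exp (c₁ / (4 * C₁))
      linarith
    have e3 : (4 : ℝ) ^ n ≤ Real.exp (2 * n) := by
      have h : (4 : ℝ) ≤ Real.exp 2 := by
        have h1 := Real.exp_one_gt_d9
        have h2 : Real.exp 2 = Real.exp 1 * Real.exp 1 := by rw [← Real.exp_add]; norm_num
        rw [h2]
        nlinarith
      calc (4 : ℝ) ^ n ≤ Real.exp 2 ^ n := by gcongr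
        _ = Real.exp (2 * n) := by rw [← Real.exp_nat_mul]; congr 1; ring
    calc (⌊x⌋₊ : ℝ) ≤ c₁ / (4 * C₁) * 4 ^ n := hk1.trans e1
      _ ≤ Real.exp (c₁ / (4 * C₁)) * Real.exp (2 * n) := by gcongr
      _ = Real.exp (c₁ / (4 * C₁) + 2 * n) := by rw [← Real.exp_add]
      _ ≤ Real.exp ((c₁ / (4 * C₁) + 2 * (A + 1)) * (m + 1)) := by
          apply Real.exp_le_exp.2
          have f1 : 0 < c₁ / (4 * C₁) := by positivity
          nlinarith [mul_nonneg f1.le hm0]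
  · have : (⌊x⌋₊ : ℝ) * (4 * C₁ * n) ≤ c₁ * 4 ^ n := by
      rw [← le_div_iff₀ (by positivity)]
      exact hk1
    linarith
  · have e1 : x / 2 < ⌊x⌋₊ := by linarith
    refine lt_of_le_of_lt ?_ e1
    have e2 : c₁ * θ * (3 * B) = 3 * 2048 * C₁ ^ 2 * Cφ := by
      rw [hB]; field_simp
    have e3 : 2048 * (3 * (m : ℝ) + 1) * C₁ ^ 2 * Cφ ≤ c₁ * θ * n := by
      have f0 : 0 < 4 * C₁ / c₁ := by positivity
      have f1 : 3 * B * (m + 1) ≤ n := by
        refine le_trans ?_ hn1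
        have : 3 * B ≤ A := by linarith
        gcongr
      have f2 : c₁ * θ * (3 * B * (m + 1)) ≤ c₁ * θ * n := by gcongr
      have f3 : c₁ * θ * (3 * B * (m + 1)) = 3 * 2048 * C₁ ^ 2 * Cφ * (m + 1) := by
        rw [← e2]; ring
      have f4 : 0 < C₁ ^ 2 * Cφ := by positivity
      nlinarith
    have e4 : 256 * (3 * (m : ℝ) + 1) * C₁ * Cφ * ((4 : ℝ) ^ n / n ^ 2) / θ =
        2048 * (3 * (m : ℝ) + 1) * C₁ ^ 2 * Cφ * 4 ^ n / (8 * C₁ * n ^ 2 * θ) := by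
      field_simp
      ring
    have e5 : x / 2 = c₁ * θ * n * 4 ^ n / (8 * C₁ * n ^ 2 * θ) := by
      rw [hx]
      field_simp
      ring
    rw [e4, e5]
    gcongr

/-- The elementary inequalities for large `L`. -/
theorem DATT_large (κA K Ku Kg c : ℝ) (k : ℕ) (hKu : 1 ≤ Ku) (hc : 0 < c) :
    ∀ᶠ L : ℝ in atTop, 5184 ≤ L ∧ 16 * K ^ 2 ≤ L ∧ L ≤ Real.exp (Real.sqrt L / Ku) ∧
      2 / κA ≤ L ∧ 16 * Kg ^ 2 ≤ L ∧ 2 * (k : ℝ) ≤ L ∧
      16 * ((k : ℝ) + 1) ^ 2 * Kg ^ 2 ≤ L ∧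
      128 * Real.exp 1 ^ 2 / c ^ k * L ^ (k + 2) ≤ Real.exp (23 / 50 * L) := by
  filter_upwards [DATX_large κA 1 K Ku 1 one_pos hKu one_pos,
    eventually_ge_atTop (16 * Kg ^ 2), eventually_ge_atTop (2 * (k : ℝ)),
    eventually_ge_atTop (16 * ((k : ℝ) + 1) ^ 2 * Kg ^ 2),
    DATX_pow (k + 2) (128 * Real.exp 1 ^ 2 / c ^ k) (23 / 50) (by positivity) (by norm_num)]
    with L a b c d e
  exact ⟨a.1, a.2.1, a.2.2.1, a.2.2.2.2.2.2.2.2, b, c, d, e⟩

theorem DATT_e7 (a c L : ℝ) (k : ℕ) (hc : 0 < c) (hL : 0 < L) :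
    a / c ^ k * L ^ (k + 2) * (c / L) ^ k = a * L ^ 2 := by
  rw [div_pow, pow_add]
  field_simp

theorem DATT_htau (L K Kg k k' : ℝ) (hL : 5184 ≤ L) (hK2 : 16 * K ^ 2 ≤ L) (hK : 0 < K)
    (hKg2 : 16 * Kg ^ 2 ≤ L) (hKg : 0 < Kg)
    (hk0 : 0 ≤ k) (hk0' : 0 ≤ k') (hk : k + k' ≤ L) :
    2 * (k + k') / √(L ^ 3) + 80 * (k * K + k' * Kg) / L ^ 3 ≤ 1 / 8 := by
  have hL0 : 0 < L := by linarith
  have hs2 : √(L ^ 3) = L * √L := by
    rw [show L ^ 3 = L ^ 2 * L by ring, Real.sqrt_mul (by positivity), Real.sqrt_sq hL0.le]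
  have hs3 : 72 ≤ √L := by
    rw [show (72 : ℝ) = √(72 ^ 2) by rw [Real.sqrt_sq (by norm_num)]]
    exact Real.sqrt_le_sqrt (by linarith)
  have hs4 : 0 < √L := by linarith
  have h1 : 2 * (k + k') / √(L ^ 3) ≤ 1 / 36 := by
    rw [hs2]
    calc 2 * (k + k') / (L * √L) ≤ 2 * L / (L * √L) := by gcongr
      _ = 2 / √L := by field_simp
      _ ≤ 1 / 36 := by
        rw [div_le_div_iff₀ hs4 (by norm_num)]
        linarith
  have hKL : K ≤ L := by nlinarith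
  have hKgL : Kg ≤ L := by nlinarith
  have h2 : 80 * (k * K + k' * Kg) / L ^ 3 ≤ 1 / 36 := by
    calc 80 * (k * K + k' * Kg) / L ^ 3 ≤ 80 * (k * L + k' * L) / L ^ 3 := by gcongr
      _ = 80 * (k + k') / L ^ 2 := by field_simp
      _ ≤ 80 * L / L ^ 2 := by gcongr
      _ = 80 / L := by field_simp
      _ ≤ 1 / 36 := by
        rw [div_le_div_iff₀ hL0 (by norm_num)]
        linarith
  linarith

theorem p_DATT (h1 : Stmt_UEP) (h2 : Stmt_GMT) : Stmt_DATT := by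
  intro κA Cφ hA hCφ
  obtain ⟨c₁, C₁, Kg, hc₁, hC₁, hKg, HG0⟩ := h2
  set η : ℝ := min (κA / 32) (1 / 200) with hη
  have hη0 : 0 < η := lt_min (by positivity) (by norm_num)
  have hη1 : η ≤ 1 / 200 := min_le_right _ _
  have hη2 : η ≤ κA / 32 := min_le_left _ _
  set κ₀ : ℝ := min (κA / 8) (1 / 8) with hκ₀
  have hκ₀0 : 0 < κ₀ := lt_min (by positivity) (by norm_num)
  have hκ₀1 : κ₀ ≤ 1 / 8 := min_le_right _ _
  have hκ₀2 : κ₀ ≤ κA / 8 := min_le_left _ _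
  set M : ℝ := 3 / η with hM
  have hM1 : 1 ≤ M := by
    rw [hM, le_div_iff₀ hη0]; linarith
  have hM0 : 0 < M := by linarith
  have hηM : η * M = 3 := by
    rw [hM]; field_simp
  obtain ⟨Cu, Ku, L₁, hCu, hKu, HU⟩ := h1 M η hM1 hη0
  have hKu0 : 0 < Ku := by linarith
  have hKg0 : 0 < Kg := by linarith
  set κ : ℝ := min (1 / 2) (η / (16 * Real.exp 2 * Cu)) with hκ
  have he2 : 0 < Real.exp 2 := Real.exp_pos 2
  have hκ0 : 0 < κ := lt_min (by norm_num) (by positivity)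
  have hκ1 : κ ≤ 1 / 2 := min_le_left _ _
  have hκ2 : κ ≤ η / (16 * Real.exp 2 * Cu) := min_le_right _ _
  obtain ⟨C₃, hC₃, Hk⟩ := DATT_k c₁ C₁ Cφ η hc₁ hC₁ hCφ hη0
  refine ⟨κ₀, κ, η, C₃, hκ₀0, hκ₀1, hκ0, by linarith, hη0, by linarith, hC₃, ?_⟩
  intro m
  obtain ⟨n, k₀, hn1, hk1, hk2, hk3, hk4⟩ := Hk m
  refine ⟨k₀, hk1, hk2, ?_⟩
  obtain ⟨L₂, HG⟩ := HG0 η η hη0 le_rfl n hn1
  have hnR : (1 : ℝ) ≤ n := by exact_mod_cast hn1
  have hnR0 : (0 : ℝ) < n := by linarith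
  set cG : ℝ := c₁ * ((4 : ℝ) ^ n / n ^ 2) / η with hcG
  have hcG0 : 0 < cG := by positivity
  obtain ⟨L₃, HL₃⟩ := eventually_atTop.1 (DATT_large κA Ku Ku Kg cG k₀ hKu hcG0)
  refine ⟨max (max L₁ L₂) L₃, ?_⟩
  intro L hL P hP ι _ _ S e hS hgood hW hWle htot hcard Y Q hY hQ
  have hL1 : L₁ ≤ L := ((le_max_left _ _).trans (le_max_left _ _)).trans hL
  have hL2 : L₂ ≤ L := ((le_max_right _ _).trans (le_max_left _ _)).trans hL
  obtain ⟨b1, b2, b3, b4, b5, b6, b7, b8⟩ := HL₃ L ((le_max_right _ _).trans hL)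
  have hL0 : 0 < L := by linarith
  have hlog1 : 1 ≤ Real.log L := by
    rw [Real.le_log_iff_exp_le hL0]
    have : Real.exp 1 < 2.7182818286 := Real.exp_one_lt_d9
    linarith
  have hlog0 : 0 < Real.log L := by linarith
  obtain ⟨u, hu⟩ := HU L hL1 P hP ι S hS
  obtain ⟨g, g0, g1, gR, gK, gq, gm1, gm2, gcost⟩ := HG L hL2 P hP ι S hS
  have hlarge : ∀ x : P, L ^ 3 ≤ S.pr x := by
    intro x
    have h1 := ((hP x).1 x.2).2.1
    have h2 : L ^ 3 ≤ (⌈L ^ 3⌉₊ : ℝ) := Nat.le_ceil _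
    have h3 : (⌈L ^ 3⌉₊ : ℝ) < (x : ℕ) := by exact_mod_cast h1
    rw [hS x]
    linarith
  have hk0 : (0 : ℝ) ≤ Fintype.card ι := Nat.cast_nonneg _
  have hk00 : (0 : ℝ) ≤ k₀ := Nat.cast_nonneg _
  have hkL : (Fintype.card ι : ℝ) + k₀ ≤ L := by
    have : (Fintype.card ι : ℝ) ≤ 1 / 2 * L := hcard.trans (by gcongr)
    linarith
  have hkιL : (Fintype.card ι : ℝ) ≤ L := by linarith
  have hk₀L : (k₀ : ℝ) ≤ L := by linarith
  have hcf : (Fintype.card (Fin k₀) : ℝ) = k₀ := by rw [Fintype.card_fin]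
  have hlogD : Real.log (Real.exp (η * L)) = η * L := Real.log_exp _
  have hlogD2 : Real.log (Real.exp (2 * (η * L))) = 2 * (η * L) := Real.log_exp _
  have hbpos : 0 < L / (M * Real.log L) := by positivity
  have hble : L / (M * Real.log L) ≤ η * L / 3 := by
    rw [div_le_div_iff₀ (by positivity) (by norm_num)]
    have : η * L * (M * Real.log L) = η * M * L * Real.log L := by ring
    rw [this, hηM]
    have h0 := mul_le_mul_of_nonneg_left hlog1 (by positivity : 0 ≤ 3 * L)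
    linarith only [h0]
  have hηL : 0 < η * L := by positivity
  have hL3 : L ^ 3 = L * L * L := by ring
  have hLL : 5184 * L ≤ L * L := mul_le_mul_of_nonneg_right b1 hL0.le
  have hLLL : 5184 * (L * L) ≤ L ^ 3 := by
    rw [hL3, mul_assoc]
    exact mul_le_mul_of_nonneg_right b1 (mul_nonneg hL0.le hL0.le)
  have hLL1 : 1 ≤ L * L := by linarith only [hLL, b1]
  have hTAU := DATX_tau p_TAB L ((Fintype.card ι : ℝ) + k₀) P b1 (by positivity) hkL
    (fun p hp => ((hP p).1 hp).2.1)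
  have hηL2 : η * L ≤ L / 200 := by
    have h0 := mul_le_mul_of_nonneg_right hη1 hL0.le
    linarith only [h0]
  have hratio := DATX_ratio L η M hL0 hlog1 hM0 hηM.ge
  have hsq : ((η * L + 2 * (η * L)) * Ku / L ^ 3) ^ 2 ≤ 1 / L ^ 3 := by
    have h1 : (η * L + 2 * (η * L)) * Ku / L ^ 3 = 3 * η * Ku / L ^ 2 := by field_simp; ring
    rw [h1, div_pow, div_le_div_iff₀ (by positivity) (by positivity)]
    have h2 : (3 * η * Ku) ^ 2 ≤ Ku ^ 2 := by
      have : (3 * η * Ku) ^ 2 = (3 * η) ^ 2 * Ku ^ 2 := by ring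
      rw [this]
      have h0 : (3 * η) ^ 2 ≤ 1 := pow_le_one₀ (by positivity) (by linarith only [hη1])
      exact mul_le_of_le_one_left (sq_nonneg Ku) h0
    have h3 : (3 * η * Ku) ^ 2 ≤ L := by linarith only [h2, b2, sq_nonneg Ku]
    have h4 : (3 * η * Ku) ^ 2 * L ^ 3 ≤ L * L ^ 3 :=
      mul_le_mul_of_nonneg_right h3 (by positivity)
    refine h4.trans (le_of_eq ?_)
    ring
  have hη3 : ((η * L + 2 * (η * L)) * Ku / L ^ 3) ^ 2 +
      Real.exp (-(Real.log (Real.exp (η * L) / Real.exp (L / (M * Real.log L))) /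
      Real.log (Real.exp (L / (M * Real.log L))))) ≤ 4 / L ^ 3 := by
    calc _ ≤ 1 / L ^ 3 + 3 / L ^ 3 := add_le_add hsq hratio
      _ = 4 / L ^ 3 := by ring
  have hY0 : (0 : ℝ) < Y := lt_of_lt_of_le (Real.exp_pos _) hY
  have hGlow : cG / L ≤ Gm S g := by
    refine le_trans ?_ gm1
    rw [hcG]
    calc c₁ * ((4 : ℝ) ^ n / n ^ 2) / η / L = c₁ * ((4 : ℝ) ^ n / n ^ 2) * (1 / (η * L)) := by
          field_simp
      _ ≤ c₁ * ((4 : ℝ) ^ n / n ^ 2) * (Real.log L / (η * L)) := by gcongr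
  have hG0 : 0 < Gm S g := lt_of_lt_of_le (by positivity) hGlow
  refine ⟨u, g, Real.exp (Real.sqrt L / Ku), Real.exp (L / (M * Real.log L)), Cu, Ku,
    Real.exp (η * L), L ^ 3, 1, Real.exp (η * L), Real.exp (2 * (η * L)), Kg, ?_, ?_⟩
  · refine
    { good := hgood
      W_pos := hW
      uok := hu
      z3 := by linarith only [hLLL, hLL1]
      z_le := hlarge
      K0 := hKu0.le
      C0 := hCu.le
      s0 := one_pos
      a1 := Real.one_le_exp (by positivity)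
      b1 := Real.one_lt_exp_iff.2 hbpos
      bD := Real.exp_le_exp.2 (by linarith)
      R1 := Real.one_le_exp hηL.le
      RD := Real.exp_lt_exp.2 (by linarith)
      Kg1 := hKg
      h64 := ?_
      hK := ?_
      hC := ?_
      heta := ?_
      hs := ?_
      tau := ?_
      tau2 := ?_
      htau := ?_
      hQ := ?_
      g0 := g0
      g1 := g1
      gR := gR
      gK := gK
      gq := gq
      gcost := ?_
      hKg := ?_
      hη := ?_
      hY := ?_ }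
    · rw [hlogD, hlogD2, hcf]
      calc 64 * (η * L + 2 * (η * L)) * ((Fintype.card ι : ℝ) + k₀ + 1)
          ≤ 64 * (L / 200 + 2 * (L / 200)) * (L + 1) := by gcongr
        _ = 192 / 200 * (L * L) + 192 / 200 * L := by ring
        _ ≤ L ^ 3 := by linarith only [hLL, hLLL, hL0]
    · calc 16 * (Fintype.card ι : ℝ) ^ 2 * Ku ^ 2 ≤ 16 * L ^ 2 * Ku ^ 2 := by gcongr
        _ = 16 * Ku ^ 2 * L ^ 2 := by ring
        _ ≤ L * L ^ 2 := by gcongr
        _ = L ^ 3 := by ring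
    · rw [Real.log_div (Real.exp_pos _).ne' (Real.exp_pos _).ne', Real.log_exp, Real.log_exp]
      have h1 : (Fintype.card ι : ℝ) ≤ η / (16 * Real.exp 2 * Cu) * L :=
        hcard.trans (by gcongr)
      have h2 : (Fintype.card ι : ℝ) * Real.exp 2 * Cu ≤
          η / (16 * Real.exp 2 * Cu) * L * Real.exp 2 * Cu := by gcongr
      have h3 : η / (16 * Real.exp 2 * Cu) * L * Real.exp 2 * Cu = η * L / 16 := by
        field_simp
      linarith
    · rw [hlogD, hlogD2]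
      refine hη3.trans ?_
      rw [div_le_div_iff₀ (by positivity) (by norm_num)]
      linarith only [hLLL, hLL1]
    · rw [Real.rpow_one]
      exact hkιL.trans b3
    · rw [hcf]
      have hprod : ∏ x : P, (1 + ((Fintype.card ι : ℝ) + k₀) /
          (((S.pr x : ℝ) - 1) * √(S.pr x))) =
          ∏ p ∈ P, (1 + ((Fintype.card ι : ℝ) + k₀) / (((p : ℝ) - 1) * √p)) := by
        rw [← Finset.prod_coe_sort P]
        exact Finset.prod_congr rfl fun x _ => by rw [hS x]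
      rw [hprod]
      exact hTAU.1
    · have hsum : ∑ x : P, 1 / (S.pr x : ℝ) ^ 2 = ∑ p ∈ P, 1 / (p : ℝ) ^ 2 := by
        rw [← Finset.sum_coe_sort P]
        exact Finset.sum_congr rfl fun x _ => by rw [hS x]
      rw [hsum]
      exact hTAU.2
    · rw [hcf]
      exact DATT_htau L Ku Kg (Fintype.card ι : ℝ) k₀ b1 b2 hKu0 b5 hKg0 hk0 hk00 hkL
    · have e1 : (Real.exp (η * L) * Real.exp (2 * (η * L))) ^ 2 = Real.exp (3 * η * L) ^ 2 := by
        rw [← Real.exp_add]; congr 2; ring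
      rw [e1]
      have e2 := DATX_hQ κA κ₀ (3 * η) L Q hA hκ₀0 hκ₀2 (by linarith) hL0 b4 hQ
      refine le_trans ?_ e2
      have e3 : (S.W : ℝ) ≤ primorial ⌊κ₀ * L⌋₊ := by exact_mod_cast hWle
      gcongr
    · rw [hcf, Real.log_div (Real.exp_pos _).ne' (Real.exp_pos _).ne', hlogD, hlogD2]
      have e1 : 4 * (k₀ : ℝ) * ∑ T, g T ^ 2 * S.wt T * Real.log (S.wt T) ≤
          4 * k₀ * (C₁ * (Real.log L / n)) := by gcongr
      refine e1.trans ?_
      have e2 : 4 * (k₀ : ℝ) * (C₁ * (Real.log L / n)) = 4 * k₀ * C₁ * n * Real.log L / n ^ 2 := by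
        field_simp
      have e3 : c₁ * ((4 : ℝ) ^ n / n ^ 2) * (Real.log L / (η * L)) * (η * L) =
          c₁ * 4 ^ n * Real.log L / n ^ 2 := by
        field_simp
      calc 4 * (k₀ : ℝ) * (C₁ * (Real.log L / n)) = 4 * k₀ * C₁ * n * Real.log L / n ^ 2 := e2
        _ ≤ c₁ * 4 ^ n * Real.log L / n ^ 2 := by gcongr
        _ = c₁ * ((4 : ℝ) ^ n / n ^ 2) * (Real.log L / (η * L)) * (η * L) := e3.symm
        _ ≤ Gm S g * (η * L) := by gcongr
        _ = Gm S g * (2 * (η * L) - η * L) := by ring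
    · rw [hlogD, hlogD2, hcf]
      calc 16 * ((k₀ : ℝ) + 1) ^ 2 * Kg ^ 2 * (1 + η * L + 2 * (η * L))
          ≤ L * (1 + L / 200 + 2 * (L / 200)) := by gcongr
        _ ≤ L ^ 3 := by
          have : L * (1 + L / 200 + 2 * (L / 200)) = L + 3 / 200 * (L * L) := by ring
          rw [this]
          linarith only [hLL, hLLL, hL0]
    · rw [hlogD, hlogD2, hcf]
      calc 8 * (k₀ : ℝ) * Fintype.card ι * (((η * L + 2 * (η * L)) * Ku / L ^ 3) ^ 2 +
            Real.exp (-(Real.log (Real.exp (η * L) / Real.exp (L / (M * Real.log L))) /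
            Real.log (Real.exp (L / (M * Real.log L))))))
          ≤ 8 * L * L * (4 / L ^ 3) := by gcongr
        _ = 32 / L := by field_simp; ring
        _ ≤ 1 := by
          rw [div_le_one hL0]
          linarith
    · rw [hcf, Fintype.card_fin]
      have e1 : Real.exp (η * L) ^ ((1 : ℝ) + 1) = Real.exp (2 * (η * L)) := by
        rw [← Real.exp_mul]
        congr 1; ring
      rw [e1]
      have e2 : (2 * Real.exp 1 * Real.exp (2 * (η * L)) * (2 * Real.exp (2 * (η * L)))) ^ 2 =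
          16 * Real.exp 1 ^ 2 * Real.exp (8 * (η * L)) := by
        have : Real.exp (8 * (η * L)) = Real.exp (2 * (η * L)) ^ 4 := by
          rw [← Real.exp_nat_mul]; congr 1; push_cast; ring
        rw [this]; ring
      rw [e2]
      have e3 : Real.exp (8 * (η * L)) ≤ Real.exp (1 / 25 * L) :=
        Real.exp_le_exp.2 (by linarith)
      have e4 : (k₀ : ℝ) * Fintype.card ι + 1 ≤ 2 * L ^ 2 := by
        have : (k₀ : ℝ) * Fintype.card ι ≤ L * L := by gcongr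
        have hL2 : L ^ 2 = L * L := by ring
        rw [hL2]
        linarith only [this, hLL1]
      have e5 : (cG / L) ^ k₀ ≤ Gm S g ^ k₀ := by gcongr
      have e6 : Real.exp (L / 2) = Real.exp (23 / 50 * L) * Real.exp (1 / 25 * L) := by
        rw [← Real.exp_add]; congr 1; ring
      have e7 := DATT_e7 (128 * Real.exp 1 ^ 2) cG L k₀ hcG0 hL0
      calc 4 * ((k₀ : ℝ) * Fintype.card ι + 1) * (16 * Real.exp 1 ^ 2 * Real.exp (8 * (η * L)))
          ≤ 4 * (2 * L ^ 2) * (16 * Real.exp 1 ^ 2 * Real.exp (1 / 25 * L)) := by gcongr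
        _ = 128 * Real.exp 1 ^ 2 * L ^ 2 * Real.exp (1 / 25 * L) := by ring
        _ = 128 * Real.exp 1 ^ 2 / cG ^ k₀ * L ^ (k₀ + 2) * (cG / L) ^ k₀ *
            Real.exp (1 / 25 * L) := by rw [e7]
        _ ≤ Real.exp (23 / 50 * L) * (cG / L) ^ k₀ * Real.exp (1 / 25 * L) := by gcongr
        _ = Real.exp (L / 2) * (cG / L) ^ k₀ := by rw [e6]; ring
        _ ≤ Y * Gm S g ^ k₀ := by gcongr
  · have hWpos : (0 : ℝ) < S.W := by exact_mod_cast hW
    have htot0 : (0 : ℝ) ≤ S.W.totient := Nat.cast_nonneg _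
    calc 128 * (3 * (m : ℝ) + 1) * Gm S g * (2 * L) * S.W.totient
        ≤ 128 * (3 * (m : ℝ) + 1) * (C₁ * ((4 : ℝ) ^ n / n ^ 2) * (Real.log L / (η * L))) *
            (2 * L) * S.W.totient := by gcongr
      _ = 256 * (3 * (m : ℝ) + 1) * C₁ * ((4 : ℝ) ^ n / n ^ 2) / η *
            (S.W.totient * Real.log L) := by
          field_simp
          ring
      _ ≤ 256 * (3 * (m : ℝ) + 1) * C₁ * ((4 : ℝ) ^ n / n ^ 2) / η * (Cφ * S.W) := by gcongr
      _ = 256 * (3 * (m : ℝ) + 1) * C₁ * Cφ * ((4 : ℝ) ^ n / n ^ 2) / η * S.W := by ring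
      _ < k₀ * S.W := by gcongr

end Pool.LGT
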