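import Pool.Agent.Work.MP_b0c12c_tup.Interface
import Pool.Agent.Work.MP_b0c12c_chain.B_FINJ
import Pool.Agent.Work.MP_b0c12c_chain.B_NUF

set_option autoImplicit false

namespace Pool.LGT

open Finset Filter
open Pool.LGP Pool.LGC

/-- The exceptional modulus does not divide the product without its smallest prime factor. -/
theorem FINT_q (y : Ch) (h : y.2 = 1 ∨ 2 ≤ y.1) :
    ∃ q : ℕ, ∀ w : ℕ, y.2 ≠ 1 → ¬ y.1 ∣ WW w q := by
  rcases h with h | h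
  · exact ⟨0, fun w hy => absurd h hy⟩
  · refine ⟨y.1.minFac, fun w _ hdvd => ?_⟩
    have hp : y.1.minFac.Prime := Nat.minFac_prime (by omega)
    have h1 : y.1.minFac ∣ WW w y.1.minFac := (Nat.minFac_dvd _).trans hdvd
    unfold WW at h1
    rw [hp.prime.dvd_finsetProd_iff] at h1
    obtain ⟨p, hp1, hp2⟩ := h1
    rw [mem_filter] at hp1
    exact hp1.2.2 ((Nat.prime_dvd_prime_iff_eq hp hp1.2.1).1 hp2).symm

/-- The statement of RESK at `w`. -/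
def FINT_R (k : ℕ) (C : ℝ) (w : ℕ) : Prop :=
  ∀ (H q : ℕ) (A : Finset ℕ), w ≤ H →
    (H : ℝ) ≤ w * Real.log w ^ 2 → A ⊆ Icc 1 H → A.card ≤ k →
    (∀ p : ℕ, p.Prime → ∃ r : ℕ, ∀ h ∈ A, ¬ h ≡ r [MOD p]) →
    ∃ v < WW w q, (∀ h ∈ A, (v + h).Coprime (WW w q)) ∧
      (((Icc 1 H).filter (fun h => (v + h).Coprime (WW w q))).card : ℝ) ≤
        C * (H * Real.log (Real.log w) ^ 2 /
          (Real.log w ^ 2 * Real.log (Real.log (Real.log w))))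

theorem FINT_scale (h1 : Stmt_ANF) (h2 : Stmt_SCT) (h3 : Stmt_RESK) :
    ∃ C₃ : ℝ, 0 < C₃ ∧ ∀ m : ℕ, ∃ k₀ : ℕ, 1 ≤ k₀ ∧ (k₀ : ℝ) ≤ Real.exp (C₃ * (m + 1)) ∧
      ∃ c₅ : ℝ, 0 < c₅ ∧ ∀ᶠ X : ℝ in atTop, ∃ H : ℕ, 2 ≤ H ∧
        (∀ p : ℝ, X ≤ p → p ≤ 4 * X → c₅ * ff p ≤ H) ∧
        ∀ A ⊆ Icc 1 H, A.card = k₀ →
          (∀ p : ℕ, p.Prime → ∃ r : ℕ, ∀ h ∈ A, ¬ h ≡ r [MOD p]) →
          ∃ a : ℕ, X ≤ a ∧ ((a + H : ℕ) : ℝ) ≤ 4 * X ∧
            (∀ n ∈ Ioc a (a + H), n.Prime → ∃ h ∈ A, n = a + h) ∧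
            m + 1 ≤ (A.filter (fun h => (a + h).Prime)).card := by
  obtain ⟨κA, hκA, hAN⟩ := h1 (1 / 8) (by norm_num)
  obtain ⟨κ₀, κ, C₃, hκ₀, hκ, hC₃, hS⟩ := h2 κA hκA
  refine ⟨C₃, hC₃, fun m => ?_⟩
  obtain ⟨k₀, hk1, hk2, X₀, hS'⟩ := hS m
  refine ⟨k₀, hk1, hk2, ?_⟩
  obtain ⟨C, hC, hR⟩ := h3 k₀
  obtain ⟨κ', hκ'def⟩ : ∃ κ' : ℝ, κ' = κ / (C * κ₀) := ⟨_, rfl⟩
  have hκ' : 0 < κ' := by rw [hκ'def]; positivity
  obtain ⟨c₅, X₅, hc₅, hN⟩ := p_NUF κ₀ κ' hκ₀ hκ'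
  refine ⟨c₅, hc₅, ?_⟩
  obtain ⟨XA, hXA⟩ := hAN 2
  have hRw' : ∀ᶠ w : ℕ in atTop, FINT_R k₀ C w := hR
  have hw := FINJ_w C κ' hC hκ'
  -- transfer to the variable `L`
  have htw : Tendsto (fun L : ℝ => ⌊κ₀ * L⌋₊) atTop atTop :=
    tendsto_nat_floor_atTop.comp (Tendsto.const_mul_atTop hκ₀ tendsto_id)
  have hL : ∀ᶠ L : ℝ in atTop, (⌊κ₀ * L⌋₊ : ℝ) ≤ κ₀ * L := by
    filter_upwards [eventually_ge_atTop (0 : ℝ)] with L a2
    exact Nat.floor_le (by positivity)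
  have hL2 : ∀ᶠ L : ℝ in atTop, Real.log κ₀ + Real.log L ≤ 2 * Real.log L :=  by
    filter_upwards [Real.tendsto_log_atTop.eventually (eventually_ge_atTop (Real.log κ₀))] with L a1
    linarith
  have hL5 : ∀ᶠ L : ℝ in atTop, κ₀ * L * (2 * Real.log L) ^ 2 ≤ L ^ 2 := by
    have h := (Real.isLittleO_pow_log_id_atTop (n := 2)).bound
      (show (0 : ℝ) < 1 / (4 * κ₀) by positivity)
    filter_upwards [h, eventually_ge_atTop (1 : ℝ)] with L a1 a2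
    simp only [id, Real.norm_eq_abs, abs_of_nonneg (by linarith : (0:ℝ) ≤ L)] at a1
    have a3 : Real.log L ^ 2 ≤ 1 / (4 * κ₀) * L := (le_abs_self _).trans a1
    have a4 : κ₀ * L * (2 * Real.log L) ^ 2 = (4 * κ₀ * L) * Real.log L ^ 2 := by ring
    rw [a4]
    calc (4 * κ₀ * L) * Real.log L ^ 2 ≤ (4 * κ₀ * L) * (1 / (4 * κ₀) * L) :=
          mul_le_mul_of_nonneg_left a3 (by positivity)
      _ = L ^ 2 := by field_simp
  have tl := Real.tendsto_log_atTop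
  have t2 := htw.comp tl
  filter_upwards [eventually_ge_atTop X₀, eventually_ge_atTop X₅,
    eventually_ge_atTop XA, tl.eventually (eventually_ge_atTop 1),
    t2.eventually hRw', t2.eventually hw, tl.eventually hL, tl.eventually hL2,
    tl.eventually hL5, t2.eventually ((tendsto_natCast_atTop_atTop (R := ℝ)).eventually
      (eventually_ge_atTop 3))]
    with X b1 b2 bA b4 b6 b7 b8 b9 b12 b13
  clear hL hL2 hL5 hw hRw' htw tl t2
  simp only [Function.comp_apply] at b6 b7 b8 b13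
  obtain ⟨b71, b72, b73, b74, b75⟩ := b7
  obtain ⟨y, hy0, hy2, hyp, hyD, hXgood⟩ := hXA X bA
  obtain ⟨q, hq⟩ := FINT_q y hyD
  obtain ⟨L, hLdef⟩ : ∃ L : ℝ, L = Real.log X := ⟨_, rfl⟩
  obtain ⟨w, hwdef⟩ : ∃ w : ℕ, w = ⌊κ₀ * Real.log X⌋₊ := ⟨_, rfl⟩
  have hNX := hN X b2
  rw [← hwdef] at b6 b71 b72 b73 b75 b8 b13 hNX
  rw [← hLdef] at b4 b8 b9 b12
  obtain ⟨H, hHdef⟩ : ∃ H : ℕ, H = HH κ' w := ⟨_, rfl⟩
  rw [← hHdef] at b71 b72 b73 b75 hNX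
  have hL0 : 0 < L := by linarith
  have hw0 : (0 : ℝ) < w := by linarith
  have hwn : 3 ≤ w := by exact_mod_cast b13
  have hlw0 : 0 ≤ Real.log w := Real.log_nonneg (by linarith)
  have hlw : Real.log w ≤ 2 * Real.log L := by
    have e1 : Real.log w ≤ Real.log (κ₀ * L) := Real.log_le_log hw0 b8
    rw [Real.log_mul hκ₀.ne' hL0.ne'] at e1
    linarith
  have hHL : (H : ℝ) ≤ Real.log X ^ 2 := by
    rw [← hLdef]
    calc (H : ℝ) ≤ w * Real.log w ^ 2 := b72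
      _ ≤ κ₀ * L * (2 * Real.log L) ^ 2 :=
          mul_le_mul b8 (pow_le_pow_left₀ hlw0 hlw 2) (by positivity) (by positivity)
      _ ≤ L ^ 2 := b12
  refine ⟨H, by omega, hNX, fun A hA hAk hadm => ?_⟩
  obtain ⟨v, hv, hcop, hcard⟩ := b6 H q A (by omega) b72 hA hAk.le hadm
  have hcard' : (((Icc 1 H).filter (fun h => (v + h).Coprime (WW w q))).card : ℝ) ≤
      κ * Real.log X := by
    refine hcard.trans (b73.trans ?_)
    rw [← hLdef]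
    calc C * κ' * w ≤ C * κ' * (κ₀ * L) := mul_le_mul_of_nonneg_left b8 (by positivity)
      _ = κ * L := by rw [hκ'def]; field_simp
  exact hS' X b1 y hy0 hyp hXgood w v H q A hwdef (hq w) hv hHL hA hAk hcop hcard'

theorem p_FINT (h1 : Stmt_ANF) (h2 : Stmt_SCT) (h3 : Stmt_RESK) : Stmt_TUP := by
  classical
  obtain ⟨C₃, hC₃, hsc⟩ := FINT_scale h1 h2 h3
  refine ⟨C₃, hC₃, fun m hm => ?_⟩
  obtain ⟨k₀, hk1, hk2, c₅, hc₅, hX⟩ := hsc (m - 1)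
  have hm' : ((m - 1 : ℕ) : ℝ) + 1 = m := by
    have : (m - 1) + 1 = m := by omega
    exact_mod_cast this
  rw [hm'] at hk2
  refine ⟨c₅ / 2, by positivity, ?_⟩
  have ht : Tendsto (fun X : ℕ => (X : ℝ) / 4) atTop atTop :=
    tendsto_natCast_atTop_atTop.atTop_div_const (by norm_num)
  filter_upwards [ht.eventually hX] with X hXX E hE1 hE2 hE3
  obtain ⟨H, hH2, hHf, hA⟩ := hXX
  have hX0 : (0 : ℝ) ≤ X := Nat.cast_nonneg X
  have hHX : c₅ * ff (X : ℝ) ≤ H := hHf X (by linarith) (by linarith)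
  have hH2' : (2 : ℝ) ≤ H := by exact_mod_cast hH2
  have hκH : c₅ / 2 * ff (X : ℝ) + 1 ≤ H := by linarith
  have hkE : k₀ ≤ E.card := by
    have : (k₀ : ℝ) ≤ E.card := hk2.trans hE1
    exact_mod_cast this
  obtain ⟨E', hE'E, hE'k⟩ := exists_subset_card_eq hkE
  set A : Finset ℕ := E'.image (fun h => h + 1) with hAdef
  have hAc : A.card = k₀ := by
    rw [hAdef, card_image_of_injective _ (fun a b h => by simpa using h), hE'k]
  have hAH : A ⊆ Icc 1 H := by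
    intro x hx
    rw [hAdef, mem_image] at hx
    obtain ⟨h, hh, rfl⟩ := hx
    have h4 := hE2 h (hE'E hh)
    have h5 : ((h + 1 : ℕ) : ℝ) ≤ H := by push_cast; linarith
    rw [mem_Icc]
    exact ⟨by omega, by exact_mod_cast h5⟩
  have hadm : ∀ p : ℕ, p.Prime → ∃ r : ℕ, ∀ h ∈ A, ¬ h ≡ r [MOD p] := by
    intro p hp
    obtain ⟨r, hr⟩ := hE3 p hp
    refine ⟨r + 1, fun x hx => ?_⟩
    rw [hAdef, mem_image] at hx
    obtain ⟨h, hh, rfl⟩ := hx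
    intro hmod
    exact hr h (hE'E hh) (Nat.ModEq.add_right_cancel' 1 hmod)
  obtain ⟨a, ha1, ha2, ha3, ha4⟩ := hA A hAH hAc hadm
  have ha2' : (a : ℝ) + H ≤ X := by
    have : ((a + H : ℕ) : ℝ) = (a : ℝ) + H := by push_cast; rfl
    rw [this] at ha2
    linarith
  refine ⟨a + 1, ?_, ?_, ?_, ?_⟩
  · push_cast; linarith
  · push_cast; linarith
  · intro q hq hq1 hq2
    have h6 : (q : ℝ) ≤ ((a + H : ℕ) : ℝ) := by
      push_cast at hq2 ⊢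
      linarith
    have h7 : q ≤ a + H := by exact_mod_cast h6
    obtain ⟨x, hx, hqx⟩ := ha3 q (mem_Ioc.2 ⟨by omega, h7⟩) hq
    rw [hAdef, mem_image] at hx
    obtain ⟨h, hh, rfl⟩ := hx
    exact ⟨h, hE'E hh, by omega⟩
  · have h8 : (A.filter (fun h => (a + h).Prime)).card ≤
        (E.filter (fun h => (a + 1 + h).Prime)).card := by
      have h9 : A.filter (fun h => (a + h).Prime) ⊆
          (E.filter (fun h => (a + 1 + h).Prime)).image (fun h => h + 1) := by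
        intro x hx
        rw [mem_filter, hAdef, mem_image] at hx
        obtain ⟨⟨h, hh, rfl⟩, hp⟩ := hx
        refine mem_image.2 ⟨h, mem_filter.2 ⟨hE'E hh, ?_⟩, rfl⟩
        have : a + 1 + h = a + (h + 1) := by omega
        rw [this]; exact hp
      exact (card_le_card h9).trans card_image_le
    omega

end Pool.LGT
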