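import Pool.Agent.Work.MP_b0c12c_tup.Interface
import Pool.Agent.Work.MP_b0c12c_gaps.B_VLO
import Pool.Agent.Work.MP_b0c12c_gaps.B_VUP
import Pool.Agent.Work.MP_b0c12c_gaps.B_PRD
import Pool.Agent.Work.MP_b0c12c_gaps.B_PSM
import Pool.Agent.Work.MP_b0c12c_gaps.B_MKV
import Pool.Agent.Work.MP_b0c12c_gaps.B_TRF

/-! # Block GMT: the weight of one point of the tuple (helper40) -/

set_option autoImplicit false

namespace Pool.LGT

open Finset Filter
open Pool.LGP Pool.LGC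

/-- elementary inequalities for large `L` -/
theorem GMT_large (θ R₀ : ℝ) (n : ℕ) (hθ : 0 < θ) : ∃ L₀ : ℝ, ∀ L : ℝ, L₀ ≤ L →
    2 ≤ L ∧ 1 ≤ Real.log L ∧ 64 * Real.log L ≤ θ * L / 4 ^ n ∧
      R₀ ≤ Real.exp (θ * L / 4 ^ n) := by
  have h1 : ∀ᶠ L : ℝ in atTop, 1 ≤ Real.log L := Real.tendsto_log_atTop.eventually_ge_atTop 1
  have h2 : ∀ᶠ L : ℝ in atTop, ‖Real.log L‖ ≤ (θ / (64 * 4 ^ n)) * ‖id L‖ :=
    Real.isLittleO_log_id_atTop.bound (by positivity)
  have h3 : Tendsto (fun L : ℝ => θ * L / 4 ^ n) atTop atTop := by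
    have h4 : (fun L : ℝ => θ * L / 4 ^ n) = fun L => (θ / 4 ^ n) * L := by
      funext L
      ring
    rw [h4]
    exact tendsto_id.const_mul_atTop (by positivity)
  have h5 : ∀ᶠ L : ℝ in atTop, R₀ ≤ Real.exp (θ * L / 4 ^ n) :=
    (Real.tendsto_exp_atTop.comp h3).eventually_ge_atTop R₀
  obtain ⟨L₀, h⟩ := eventually_atTop.1 (h1.and (h2.and (h5.and (eventually_ge_atTop 2))))
  refine ⟨L₀, fun L hL => ?_⟩
  obtain ⟨g1, g2, g3, g4⟩ := h L hL
  refine ⟨g4, g1, ?_, g3⟩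
  rw [Real.norm_of_nonneg (by linarith), id, Real.norm_of_nonneg (by linarith)] at g2
  have h6 : 64 * (θ / (64 * 4 ^ n) * L) = θ * L / 4 ^ n := by
    field_simp
  linarith

theorem GMT_mem {P : Finset ℕ} (T : Finset P) (x : P) :
    ((x : ℕ) ∈ T.map (Function.Embedding.subtype _)) ↔ x ∈ T := by
  constructor
  · intro hx
    rw [Finset.mem_map] at hx
    obtain ⟨y, hy, hyx⟩ := hx
    have : y = x := Subtype.ext hyx
    rwa [this] at hy
  · intro hx
    exact Finset.mem_map.mpr ⟨x, hx, rfl⟩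

theorem p_GMT (h1 : Stmt_VUS) (h2 : Stmt_UAG) : Stmt_GMT := by
  classical
  obtain ⟨c, R₀, hc, hlo⟩ := p_VLO p_PRD p_PSM p_MKV
  obtain ⟨C, hC, hup⟩ := p_VUP p_PRD
  obtain ⟨CV, hCV, hvs⟩ := h1
  refine ⟨1 / (4 * CV), 4 / c, max 1 (C / c), by positivity, by positivity, le_max_left _ _, ?_⟩
  intro θ η hθ hθη n hn
  obtain ⟨L₀, hL₀⟩ := GMT_large θ R₀ n hθ
  refine ⟨L₀, fun L hL P hP ι S hS => ?_⟩
  obtain ⟨g2, g1, g3, g4⟩ := hL₀ L hL
  have hLpos : 0 < L := by linarith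
  have hl : 0 < Real.log L := by linarith
  have hn0 : (0 : ℝ) < n := by exact_mod_cast hn
  set z : ℕ := ⌈L ^ 3⌉₊ with hz
  have hL3 : (8 : ℝ) ≤ L ^ 3 := by
    have : (2 : ℝ) ^ 3 ≤ L ^ 3 := by gcongr
    linarith
  have hz1 : L ^ 3 ≤ z := Nat.le_ceil _
  have hz2 : (z : ℝ) ≤ L ^ 3 + 1 := (Nat.ceil_lt_add_one (by positivity)).le
  have hz8 : (8 : ℝ) ≤ z := hL3.trans hz1
  have hzN : 2 ≤ z := by
    have : (2 : ℝ) ≤ z := by linarith
    exact_mod_cast this
  have hzpos : (0 : ℝ) < z := by linarith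
  have hz4 : (z : ℝ) ≤ L ^ 4 := by
    have : L ^ 4 = L ^ 3 * L := by ring
    nlinarith
  have hlogz : Real.log z ≤ 4 * Real.log L := by
    have h1 := Real.log_le_log hzpos hz4
    rw [Real.log_pow] at h1
    exact_mod_cast h1
  have hlogz2 : Real.log L ≤ Real.log z := by
    apply Real.log_le_log hLpos
    have : L ≤ L ^ 3 := by nlinarith [sq_nonneg (L - 1)]
    linarith
  have hlogz0 : 0 < Real.log z := by linarith
  -- the scales
  set R : ℕ → ℝ := fun j => Real.exp (θ * L / 4 ^ j) with hR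
  have hθL : 0 < θ * L := by positivity
  have hbj : ∀ j ≤ n, θ * L / 4 ^ n ≤ θ * L / 4 ^ j := by
    intro j hj
    apply div_le_div_of_nonneg_left hθL.le (by positivity)
    exact pow_le_pow_right₀ (by norm_num) hj
  have hlogR : ∀ j, Real.log (R j) = θ * L / 4 ^ j := fun j => Real.log_exp _
  have hRz : ∀ j ≤ n, (z : ℝ) ^ 16 ≤ R j := by
    intro j hj
    have e1 : (z : ℝ) ^ 16 = Real.exp (16 * Real.log z) := by
      rw [show (16 : ℝ) * Real.log z = Real.log ((z : ℝ) ^ 16) by rw [Real.log_pow]; norm_num,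
        Real.exp_log (by positivity)]
    rw [e1]
    apply Real.exp_le_exp.2
    have := hbj j hj
    linarith
  have hRz1 : ∀ j ≤ n, (z : ℝ) ≤ R j := by
    intro j hj
    refine le_trans ?_ (hRz j hj)
    have h1z : (1 : ℝ) ≤ z := by linarith
    calc (z : ℝ) = z ^ 1 := (pow_one _).symm
      _ ≤ z ^ 16 := pow_le_pow_right₀ h1z (by norm_num)
  have hRquart : ∀ j, R j ^ (1 / 4 : ℝ) = R (j + 1) := by
    intro j
    show Real.exp (θ * L / 4 ^ j) ^ (1 / 4 : ℝ) = Real.exp (θ * L / 4 ^ (j + 1))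
    rw [← Real.exp_mul]
    congr 1
    rw [pow_succ]
    field_simp
  have hR0 : R 0 = Real.exp (θ * L) := by
    show Real.exp (θ * L / 4 ^ 0) = Real.exp (θ * L)
    rw [pow_zero, div_one]
  have hRle : ∀ j, R j ≤ Real.exp (η * L) := by
    intro j
    apply Real.exp_le_exp.2
    refine (div_le_self hθL.le (one_le_pow₀ (by norm_num))).trans ?_
    exact mul_le_mul_of_nonneg_right hθη hLpos.le
  have hPz : ∀ p ∈ P, p.Prime ∧ z < p := fun p hp => ⟨((hP p).1 hp).1, ((hP p).1 hp).2.1⟩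
  set V : ℕ → ℝ := fun j => ∑ T ∈ P.powerset, (open Classical in
        if R (j + 1) < (∏ p ∈ T, (p : ℝ)) ∧ (∏ p ∈ T, (p : ℝ)) ≤ R j then
        1 / (∏ p ∈ T, (p : ℝ)) else 0) with hV
  have hVc : ∀ j < n, c * (Real.log (R j) / Real.log z) ≤ V j := by
    intro j hj
    have h1 := hlo z (R j) P hzN (hRz j hj.le)
      (g4.trans (Real.exp_le_exp.2 (hbj j hj.le)))
      (fun p hp hzp hpR => (hP p).2 ⟨hp, hzp, hpR.trans (hRle j)⟩) hPz
    rw [hRquart j] at h1
    exact h1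
  have hVpos : ∀ j < n, 0 < V j := by
    intro j hj
    refine lt_of_lt_of_le ?_ (hVc j hj)
    rw [hlogR]
    positivity
  have hVu : ∀ j < n, V j ≤ CV * (Real.log (R j) / Real.log z) := by
    intro j hj
    refine le_trans (sum_le_sum fun T hT => ?_) (hvs z (R j) P hzN (hRz1 j hj.le) hPz)
    by_cases h5 : (∏ p ∈ T, (p : ℝ)) ≤ R j
    · by_cases h6 : R (j + 1) < (∏ p ∈ T, (p : ℝ))
      · rw [if_pos ⟨h6, h5⟩, if_pos h5]
      · rw [if_neg (fun h => h6 h.1), if_pos h5]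
        exact one_div_nonneg.2 (prod_nonneg fun _ _ => Nat.cast_nonneg _)
    · rw [if_neg (fun h => h5 h.2), if_neg h5]
  obtain ⟨u, u1, u2, u3, u4, u5, u6, u7⟩ := h2 P n R V c C (Real.log z) (by omega) hc hC hlogz0
    (fun p hp => (hPz p hp).1.one_lt.le)
    (by
      show 1 ≤ Real.exp (θ * L / 4 ^ n)
      exact Real.one_le_exp (by positivity))
    (by
      intro j _
      apply Real.exp_lt_exp.2
      apply div_lt_div_of_pos_left hθL (by positivity)
      exact pow_lt_pow_right₀ (by norm_num) (Nat.lt_succ_self j))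
    (fun j _ => rfl) hVc hVpos
    (fun j hj x hx => hup z (R j) P hzN (hRz1 j hj.le) hPz x hx)
  -- the bounds of the mass
  obtain ⟨M, hM⟩ : ∃ M : ℝ, M = 1 / (n : ℝ) ^ 2 * ∑ j ∈ range n, 1 / V j := ⟨_, rfl⟩
  rw [← hM] at u6 u7
  have hM0 : 0 ≤ M := by
    rw [hM]
    refine mul_nonneg (by positivity) (sum_nonneg fun j hj => ?_)
    exact one_div_nonneg.2 (hVpos j (mem_range.1 hj)).le
  have hMup : M ≤ 4 / c * ((4 : ℝ) ^ n / n ^ 2) * (Real.log L / (θ * L)) := by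
    have h5 : ∑ j ∈ range n, 1 / V j ≤ ∑ j ∈ range n, 4 * Real.log L / (c * (θ * L)) * 4 ^ j := by
      refine sum_le_sum fun j hj => ?_
      have hj' := mem_range.1 hj
      have h6 := hVc j hj'
      rw [hlogR] at h6
      have h7 : 1 / V j ≤ 1 / (c * (θ * L / 4 ^ j / Real.log z)) :=
        one_div_le_one_div_of_le (by positivity) h6
      refine h7.trans ?_
      have h8 : 1 / (c * (θ * L / 4 ^ j / Real.log z)) = Real.log z / (c * (θ * L)) * 4 ^ j := by
        field_simp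
      rw [h8]
      gcongr
    have h6 : ∑ j ∈ range n, 4 * Real.log L / (c * (θ * L)) * 4 ^ j ≤
        4 * Real.log L / (c * (θ * L)) * 4 ^ n := by
      rw [← mul_sum]
      refine mul_le_mul_of_nonneg_left ?_ (by positivity)
      have h7 : ∑ j ∈ range n, (4 : ℝ) ^ j * (4 - 1) = 4 ^ n - 1 := by
        rw [← sum_mul]
        exact geom_sum_mul 4 n
      rw [← sum_mul] at h7
      have h8 : (0 : ℝ) ≤ ∑ j ∈ range n, (4 : ℝ) ^ j := sum_nonneg fun _ _ => by positivity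
      linarith
    rw [hM]
    calc 1 / (n : ℝ) ^ 2 * ∑ j ∈ range n, 1 / V j
        ≤ 1 / (n : ℝ) ^ 2 * (4 * Real.log L / (c * (θ * L)) * 4 ^ n) :=
          mul_le_mul_of_nonneg_left (h5.trans h6) (by positivity)
      _ = _ := by
          field_simp
  have hMlo : 1 / (4 * CV) * ((4 : ℝ) ^ n / n ^ 2) * (Real.log L / (θ * L)) ≤ M := by
    obtain ⟨i, rfl⟩ : ∃ i, n = i + 1 := ⟨n - 1, by omega⟩
    have h5 : 1 / V i ≤ ∑ j ∈ range (i + 1), 1 / V j :=
      single_le_sum (f := fun j => 1 / V j)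
        (fun j hj => one_div_nonneg.2 (hVpos j (mem_range.1 hj)).le)
        (mem_range.2 (Nat.lt_succ_self i))
    have h6 := hVu i (Nat.lt_succ_self i)
    rw [hlogR] at h6
    have h7 : 1 / (CV * (θ * L / 4 ^ i / Real.log z)) ≤ 1 / V i :=
      one_div_le_one_div_of_le (hVpos i (Nat.lt_succ_self i)) h6
    have h8 : 1 / (CV * (θ * L / 4 ^ i / Real.log z)) = Real.log z / (CV * (θ * L)) * 4 ^ i := by
      field_simp
    have h9 : Real.log L / (CV * (θ * L)) * 4 ^ i ≤ Real.log z / (CV * (θ * L)) * 4 ^ i := by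
      gcongr
    rw [hM]
    calc 1 / (4 * CV) * ((4 : ℝ) ^ (i + 1) / ((i + 1 : ℕ) : ℝ) ^ 2) * (Real.log L / (θ * L))
        = 1 / ((i + 1 : ℕ) : ℝ) ^ 2 * (Real.log L / (CV * (θ * L)) * 4 ^ i) := by
          rw [pow_succ]
          field_simp
      _ ≤ 1 / ((i + 1 : ℕ) : ℝ) ^ 2 * ∑ j ∈ range (i + 1), 1 / V j := by
          refine mul_le_mul_of_nonneg_left ?_ (by positivity)
          linarith
  -- the transfer
  have hGm : Gm S (fun T => u (T.map (Function.Embedding.subtype _))) = M := by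
    rw [← u6, ← TRF_sum P (fun T => u T ^ 2 * (∏ p ∈ T, (p : ℝ)))]
    unfold Gm
    refine sum_congr rfl fun T _ => ?_
    rw [TRF_wt S hS]
  refine ⟨fun T => u (T.map (Function.Embedding.subtype _)), fun T => u1 _,
    (TRF_sum P u).trans u2, ?_, ?_, ?_, ?_, ?_, ?_⟩
  · intro T hT
    rw [TRF_wt S hS]
    have := u3 _ (TRF_mem P T) hT
    rw [hR0] at this
    exact this
  · intro x
    have h := u4 (x : ℕ) x.2
    rw [hS x]
    refine le_trans (le_trans (le_of_eq ?_) h)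
      (div_le_div_of_nonneg_right (le_max_right _ _) (Nat.cast_nonneg _))
    rw [← TRF_sum P (fun T => if (x : ℕ) ∈ T then u T else 0)]
    refine Finset.sum_congr rfl (fun T _ => ?_)
    by_cases hx : x ∈ T
    · rw [if_pos hx, if_pos ((GMT_mem T x).2 hx)]
    · rw [if_neg hx, if_neg (fun h => hx ((GMT_mem T x).1 h))]
  · intro x
    have h := u7 (x : ℕ) x.2
    rw [hS x, hGm]
    refine le_trans (le_trans (le_of_eq ?_) h) (mul_le_mul_of_nonneg_right
      (div_le_div_of_nonneg_right (le_max_right _ _) (Nat.cast_nonneg _)) hM0)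
    rw [← TRF_sum P (fun T => if (x : ℕ) ∈ T then u T ^ 2 * ∏ p ∈ T, (p : ℝ) else 0)]
    refine Finset.sum_congr rfl (fun T _ => ?_)
    by_cases hx : x ∈ T
    · rw [if_pos hx, if_pos ((GMT_mem T x).2 hx), TRF_wt S hS]
    · rw [if_neg hx, if_neg (fun h => hx ((GMT_mem T x).1 h))]
  · rw [hGm]
    exact hMlo
  · rw [hGm]
    exact hMup
  · refine le_trans (le_of_eq ?_) (u5.trans ?_)
    · rw [← TRF_sum P (fun T => u T ^ 2 * (∏ p ∈ T, (p : ℝ)) * Real.log (∏ p ∈ T, (p : ℝ)))]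
      refine Finset.sum_congr rfl (fun T _ => ?_)
      rw [TRF_wt S hS]
    · have h5 : 4 / c * (Real.log L / n) = 4 * Real.log L / (c * n) := by
        field_simp
      rw [h5]
      exact div_le_div_of_nonneg_right hlogz (by positivity)

end Pool.LGT
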