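import Pool.Agent.Work.MP_b0c12c_tup.Interface

/-! # Block LFT (helper59): residues modulo `WW w q` -/

set_option autoImplicit false

namespace Pool.LGT

open Finset Filter
open Pool.LGP Pool.LGC

theorem p_LFT : Stmt_LFT := by
  classical
  intro w q r
  set t : Finset ℕ := (Icc 1 w).filter (fun p => p.Prime ∧ p ≠ q) with ht
  have hprim : WW w q = ∏ p ∈ t, p := rfl
  have hs : ∀ p ∈ t, p ≠ 0 := fun p hp => (mem_filter.mp hp).2.1.ne_zero
  have pp : Set.Pairwise (t : Set ℕ) (Function.onFun Nat.Coprime (fun p : ℕ => p)) := by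
    intro p hp q' hq' hne
    exact (Nat.coprime_primes (mem_filter.mp (mem_coe.mp hp)).2.1
      (mem_filter.mp (mem_coe.mp hq')).2.1).mpr hne
  obtain ⟨k, hk⟩ := Nat.chineseRemainderOfFinset r (fun p : ℕ => p) t hs pp
  have hpos : 0 < WW w q := by
    rw [hprim]
    exact Finset.prod_pos fun p hp => Nat.pos_of_ne_zero (hs p hp)
  have hmem : ∀ p : ℕ, p.Prime → p ≤ w → p ≠ q → p ∈ t := fun p hp hpw hpq =>
    mem_filter.mpr ⟨mem_Icc.mpr ⟨hp.one_le, hpw⟩, hp, hpq⟩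
  have hdvd : ∀ p : ℕ, p.Prime → p ≤ w → p ≠ q → p ∣ WW w q := by
    intro p hp hpw hpq
    rw [hprim]
    exact Finset.dvd_prod_of_mem (fun p : ℕ => p) (hmem p hp hpw hpq)
  refine ⟨k % WW w q, Nat.mod_lt _ hpos, ?_⟩
  intro p hp hpw hpq
  have h1 := hk p (hmem p hp hpw hpq)
  exact ((Nat.mod_modEq k (WW w q)).of_dvd (hdvd p hp hpw hpq)).trans h1

end Pool.LGT
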