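import Pool.Agent.Work.MP_b0c12c_tup.Interface

/-! # Block NTH (helper59): two primes of the tuple give two consecutive primes -/

set_option autoImplicit false

namespace Pool.LGT

open Finset Filter
open Pool.LGP Pool.LGC

theorem p_NTH : Stmt_NTH := by
  classical
  intro E a b hb hE h2
  set G := E.filter (fun h => (a + h).Prime) with hG
  have hne : G.Nonempty := Finset.card_pos.mp (by omega)
  set h := G.min' hne with hh
  have hmem : h ∈ G := Finset.min'_mem _ _
  have hne' : (G.erase h).Nonempty := by
    rw [← Finset.card_pos, Finset.card_erase_of_mem hmem]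
    omega
  set h' := (G.erase h).min' hne' with hh'
  have hmem' : h' ∈ G.erase h := Finset.min'_mem _ _
  have hmem'G : h' ∈ G := Finset.mem_of_mem_erase hmem'
  have hlt : h < h' := by
    have h3 : h ≤ h' := Finset.min'_le _ _ hmem'G
    have h4 : h' ≠ h := Finset.ne_of_mem_erase hmem'
    omega
  have hp : (a + h).Prime := (Finset.mem_filter.mp hmem).2
  have hp' : (a + h').Prime := (Finset.mem_filter.mp hmem'G).2
  have hcount : Nat.count Nat.Prime (a + h') = Nat.count Nat.Prime (a + h) + 1 := by
    have h5 : Nat.count Nat.Prime (a + h) + 1 = Nat.count Nat.Prime (a + h + 1) := by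
      rw [Nat.count_succ, if_pos hp]
    rw [h5, Nat.count_eq_card_filter_range, Nat.count_eq_card_filter_range]
    congr 1
    ext q
    rw [Finset.mem_filter, Finset.mem_filter, Finset.mem_range, Finset.mem_range]
    constructor
    · rintro ⟨h6, h7⟩
      refine ⟨?_, h7⟩
      by_contra h8
      have h9 : h' ≤ b := hb h' (Finset.mem_filter.mp hmem'G).1
      obtain ⟨k, hk, hk2⟩ := hE q h7 (by omega) (by omega)
      have hkG : k ∈ G.erase h := by
        refine Finset.mem_erase.mpr ⟨by omega, Finset.mem_filter.mpr ⟨hk, ?_⟩⟩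
        rw [← hk2]; exact h7
      have h10 : h' ≤ k := Finset.min'_le _ _ hkG
      omega
    · rintro ⟨h6, h7⟩
      exact ⟨by omega, h7⟩
  refine ⟨Nat.count Nat.Prime (a + h), h, (Finset.mem_filter.mp hmem).1, h',
    (Finset.mem_filter.mp hmem'G).1, hlt, Nat.nth_count hp, ?_⟩
  rw [← hcount]
  exact Nat.nth_count hp'

end Pool.LGT
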