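import Pool.Agent.Work.MP_b0c12c_tup.Interface

/-! # Block PAI (helper59): configurations are pairs of configurations with disjoint supports -/

set_option autoImplicit false

namespace Pool.LGT

open Finset Filter
open Pool.LGP Pool.LGC

theorem p_PAI : Stmt_PAI := by
  classical
  intro π ι κ _ _ _ _ F
  have e1 : ∑ ρ₁ : π → Option ι, ∑ ρ₂ : π → Option κ,
      (if ∀ x, ρ₁ x = none ∨ ρ₂ x = none then F ρ₁ ρ₂ else 0) =
      ∑ p ∈ (univ : Finset ((π → Option ι) × (π → Option κ))).filter
        (fun p => ∀ x, p.1 x = none ∨ p.2 x = none), F p.1 p.2 := by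
    rw [Finset.sum_filter, Fintype.sum_prod_type]
  have e2 : ∑ ρ : π → Option (ι ⊕ κ), F (lf ρ) (rf ρ) =
      ∑ p ∈ (univ : Finset ((π → Option ι) × (π → Option κ))).filter
        (fun p => ∀ x, p.1 x = none ∨ p.2 x = none), F p.1 p.2 := by
    refine Finset.sum_bij (fun ρ _ => (lf ρ, rf ρ)) ?_ ?_ ?_ ?_
    · intro ρ _
      refine Finset.mem_filter.mpr ⟨Finset.mem_univ _, fun x => ?_⟩
      rcases h : ρ x with _ | (i | j)
      · left; simp [lf, h]
      · right; simp [rf, h]
      · left; simp [lf, h]
    · intro ρ _ σ _ h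
      rw [Prod.mk.injEq] at h
      funext x
      have h1 := congrFun h.1 x
      have h2 := congrFun h.2 x
      rcases h3 : ρ x with _ | (i | j) <;> rcases h4 : σ x with _ | (i' | j') <;>
        simp [lf, rf, h3, h4] at h1 h2 ⊢ <;> assumption
    · intro p hp
      have hp2 := (Finset.mem_filter.mp hp).2
      refine ⟨fun x => match p.1 x with
        | some i => some (Sum.inl i)
        | none => (p.2 x).map Sum.inr, Finset.mem_univ _, ?_⟩
      refine Prod.ext ?_ ?_
      · funext x
        simp only [lf]
        rcases h1 : p.1 x with _ | i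
        · rcases h2 : p.2 x with _ | j <;> simp
        · simp
      · funext x
        simp only [rf]
        rcases h1 : p.1 x with _ | i
        · rcases h2 : p.2 x with _ | j <;> simp
        · rcases hp2 x with h3 | h3
          · rw [h1] at h3; exact absurd h3 (by simp)
          · simp [h3]
    · intro ρ _
      rfl
  rw [e2, ← e1]

end Pool.LGT
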