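import Pool.Agent.Work.MP_b0c12c_tup.Interface
import Pool.Agent.Work.MP_b0c12c_gaps.B_ACT

/-! # PSR: the label of a point of the tuple is erased -/

set_option autoImplicit false

namespace Pool.LGT

open Finset Filter
open Pool.LGP Pool.LGC

theorem PSR_zero {π ι : Type} [Fintype π] [DecidableEq π] [Fintype ι] [DecidableEq ι]
    (m : ι) (a : (π → Option ι) → ℝ) (σ : π → Option ι) (hx : ∃ x, σ x = some m) :
    push m a σ = 0 := by
  obtain ⟨x, hx⟩ := hx
  unfold push
  apply Finset.sum_eq_zero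
  intro ρ _
  rw [if_neg]
  intro h
  have h2 := congrFun h x
  simp only [er] at h2
  split_ifs at h2 with h1
  · rw [hx] at h2; cases h2
  · rw [hx] at h2; exact h1 h2

/-- The configuration with the label `m` on `T`. -/
def PSR_ext {π ι : Type} [DecidableEq π] (m : ι) (σ : π → Option ι) (T : Finset π) :
    π → Option ι := fun x => if x ∈ T then some m else σ x

theorem PSR_pos {π ι : Type} [DecidableEq π] (m : ι) (σ : π → Option ι) (T : Finset π) {x : π}
    (hx : x ∈ T) : PSR_ext m σ T x = some m := if_pos hx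

theorem PSR_neg {π ι : Type} [DecidableEq π] (m : ι) (σ : π → Option ι) (T : Finset π) {x : π}
    (hx : x ∉ T) : PSR_ext m σ T x = σ x := if_neg hx

theorem PSR_fib {π ι : Type} [Fintype π] [DecidableEq ι] (ρ : π → Option ι) (h : ι) (x : π) :
    x ∈ fib ρ h ↔ ρ x = some h := by
  simp [fib]

theorem PSR_fm {π ι : Type} [Fintype π] [DecidableEq π] [DecidableEq ι] (m : ι)
    (σ : π → Option ι) (hσ : ∀ x, σ x ≠ some m) (T : Finset π) : fib (PSR_ext m σ T) m = T := by
  ext x
  rw [PSR_fib]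
  by_cases hx : x ∈ T
  · rw [PSR_pos m σ T hx]
    simp [hx]
  · rw [PSR_neg m σ T hx]
    simp [hx, hσ x]

theorem PSR_fh {π ι : Type} [Fintype π] [DecidableEq π] [DecidableEq ι] (m i : ι) (hi : i ≠ m)
    (σ : π → Option ι) (T : Finset π) (hT : ∀ x ∈ T, σ x = none) :
    fib (PSR_ext m σ T) i = fib σ i := by
  ext x
  rw [PSR_fib, PSR_fib]
  by_cases hx : x ∈ T
  · rw [PSR_pos m σ T hx, hT x hx]
    simp [Ne.symm hi]
  · rw [PSR_neg m σ T hx]

theorem PSR_push {π ι : Type} [Fintype π] [DecidableEq π] [Fintype ι] [DecidableEq ι]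
    (m : ι) (a : (π → Option ι) → ℝ) (σ : π → Option ι) (hσ : ∀ x, σ x ≠ some m) :
    push m a σ = ∑ T : Finset π, open Classical in
      if ∀ x ∈ T, σ x = none then a (PSR_ext m σ T) else 0 := by
  classical
  have hfm : ∀ T : Finset π, fib (PSR_ext m σ T) m = T := PSR_fm m σ hσ
  unfold push
  rw [← Finset.sum_filter, ← Finset.sum_filter]
  have her : ∀ T : Finset π, (∀ x ∈ T, σ x = none) → er m (PSR_ext m σ T) = σ := by
    intro T hT
    funext x
    simp only [er]
    by_cases hx : x ∈ T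
    · simp only [PSR_pos m σ T hx, if_true, hT x hx]
    · simp only [PSR_neg m σ T hx, if_neg (hσ x)]
  have hfib : ∀ ρ : π → Option ι, er m ρ = σ → ∀ x ∈ fib ρ m, σ x = none := by
    intro ρ hρ x hx
    rw [← hρ]
    have h1 : ρ x = some m := by simpa [fib] using hx
    simp [er, h1]
  have hback : ∀ ρ : π → Option ι, er m ρ = σ → PSR_ext m σ (fib ρ m) = ρ := by
    intro ρ hρ
    funext x
    by_cases hx : x ∈ fib ρ m
    · have h1 : ρ x = some m := by simpa [fib] using hx
      rw [PSR_pos m σ _ hx, h1]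
    · have h1 : ρ x ≠ some m := by simpa [fib] using hx
      rw [PSR_neg m σ _ hx, ← hρ]
      simp [er, h1]
  refine Finset.sum_nbij' (fun ρ => fib ρ m) (fun T => PSR_ext m σ T)
    ?_ ?_ ?_ ?_ ?_
  · intro ρ hρ
    rw [mem_filter] at hρ ⊢
    exact ⟨mem_univ _, hfib ρ hρ.2⟩
  · intro T hT
    rw [mem_filter] at hT ⊢
    exact ⟨mem_univ _, her T hT.2⟩
  · intro ρ hρ
    rw [mem_filter] at hρ
    exact hback ρ hρ.2
  · intro T hT
    exact hfm T
  · intro ρ hρ
    rw [mem_filter] at hρ
    rw [hback ρ hρ.2]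

theorem PSR_wt {π ι : Type} (S : Sys π ι) {z : ℝ} (hz : 3 ≤ z) (hpr : ∀ x, z ≤ S.pr x)
    (T : Finset π) : 1 ≤ S.wt T := by
  unfold Sys.wt
  calc (1 : ℝ) = ∏ x ∈ T, (1 : ℝ) := by rw [Finset.prod_const_one]
    _ ≤ ∏ x ∈ T, (S.pr x : ℝ) :=
      Finset.prod_le_prod (fun _ _ => zero_le_one) (fun x _ => by linarith [hpr x])

theorem PSR_form {π ι κ : Type} [Fintype π] [DecidableEq π] [Fintype ι] [DecidableEq ι]
    [Fintype κ] [DecidableEq κ] (S : Sys π ι) (e : κ → ℕ) (u g : Finset π → ℝ) (D D₂ : ℝ)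
    (j : κ) (σ : π → Option (ι ⊕ κ)) (hσ : ∀ x, σ x ≠ some (Sum.inr j)) :
    push (Sum.inr j) (cc S e u g D D₂) σ =
      S.aa u D (lf σ) * (∏ i ∈ univ.erase j, g (fib (rf σ) i)) *
        ∑ T : Finset π, open Classical in
          if (∀ x ∈ T, σ x = none) ∧ ((Bs S e).szn (rf σ) : ℝ) * S.wt T ≤ D₂ then g T else 0 := by
  classical
  rw [PSR_push _ _ σ hσ, Finset.mul_sum]
  apply Finset.sum_congr rfl
  intro T _
  by_cases hT : ∀ x ∈ T, σ x = none
  swap
  · rw [if_neg hT, if_neg fun h => hT h.1, mul_zero]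
  rw [if_pos hT]
  have hlf : lf (PSR_ext (Sum.inr j) σ T) = lf σ := by
    funext x
    simp only [lf]
    by_cases hx : x ∈ T
    · rw [PSR_pos _ σ T hx, hT x hx]
      rfl
    · rw [PSR_neg _ σ T hx]
  have hrf : rf (PSR_ext (Sum.inr j) σ T) = PSR_ext j (rf σ) T := by
    funext x
    by_cases hx : x ∈ T
    · rw [PSR_pos j _ T hx]
      simp only [rf]
      rw [PSR_pos _ σ T hx]
      rfl
    · rw [PSR_neg j _ T hx]
      simp only [rf]
      rw [PSR_neg _ σ T hx]
  have hrσ : ∀ x, rf σ x ≠ some j := by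
    intro x hx
    simp only [rf] at hx
    rcases h : σ x with _ | (y | y)
    · rw [h] at hx
      cases hx
    · rw [h] at hx
      cases hx
    · rw [h] at hx
      have h1 : some y = some j := hx
      rw [Option.some_inj] at h1
      exact hσ x (by rw [h, h1])
  have hrT : ∀ x ∈ T, rf σ x = none := by
    intro x hx
    simp only [rf]
    rw [hT x hx]
    rfl
  have hfm : fib (PSR_ext j (rf σ) T) j = T := PSR_fm j _ hrσ T
  have hfh : ∀ i, i ≠ j → fib (PSR_ext j (rf σ) T) i = fib (rf σ) i := fun i hi =>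
    PSR_fh j i hi _ T hrT
  have hsz : (((Bs S e).szn (PSR_ext j (rf σ) T) : ℕ) : ℝ) =
      ((Bs S e).szn (rf σ) : ℝ) * S.wt T := by
    unfold Sys.szn Sys.wt
    rw [Nat.cast_prod, Nat.cast_prod]
    have h1 : ∏ x ∈ T, (S.pr x : ℝ) = ∏ x, (if x ∈ T then (S.pr x : ℝ) else 1) := by
      rw [Finset.prod_ite_mem, Finset.univ_inter]
    rw [h1, ← Finset.prod_mul_distrib]
    refine Finset.prod_congr rfl ?_
    intro x _
    by_cases hx : x ∈ T
    · rw [PSR_pos _ _ T hx, hrT x hx, if_pos hx]
      simp [Sys.zl, Bs]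
    · rw [PSR_neg _ _ T hx, if_neg hx, mul_one]
  unfold cc bb
  rw [hlf, hrf, hsz]
  by_cases hD : ((Bs S e).szn (rf σ) : ℝ) * S.wt T ≤ D₂
  · rw [if_pos hD, if_pos ⟨hT, hD⟩, ← Finset.mul_prod_erase univ _ (mem_univ j), hfm]
    have h2 : ∏ i ∈ univ.erase j, g (fib (PSR_ext j (rf σ) T) i) =
        ∏ i ∈ univ.erase j, g (fib (rf σ) i) := by
      refine Finset.prod_congr rfl ?_
      intro i hi
      rw [hfh i (Finset.ne_of_mem_erase hi)]
    rw [h2]
    ring
  · rw [if_neg hD, if_neg fun h => hD h.2, mul_zero, mul_zero]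

theorem p_PSR (hSZT : Stmt_SZT) : Stmt_PSR := by
  classical
  intro π ι κ _ _ _ _ _ _ S e u g D D₂ R₀ Kg z hz hpr hg0 hg1 hgR hgK hKg hD hD₂ hlog j σ
  have hz0 : 0 < z := by linarith
  have hlD : 0 ≤ Real.log D := Real.log_nonneg hD
  have hlD₂ : 0 ≤ Real.log D₂ := Real.log_nonneg hD₂
  have hwt := PSR_wt S hz hpr
  have hP : 0 ≤ ∏ i ∈ univ.erase j, g (fib (rf σ) i) := Finset.prod_nonneg fun i _ => hg0 _
  set Sg : ℝ := ∑ T : Finset π,
    if (∀ x ∈ T, σ x = none) ∧ ((Bs S e).szn (rf σ) : ℝ) * S.wt T ≤ D₂ then g T else 0 with hSg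
  have hform : (∀ x, σ x ≠ some (Sum.inr j)) → push (Sum.inr j) (cc S e u g D D₂) σ =
      S.aa u D (lf σ) * (∏ i ∈ univ.erase j, g (fib (rf σ) i)) * Sg := by
    intro h
    rw [PSR_form S e u g D D₂ j σ h, hSg]
  have hSg0 : 0 ≤ Sg := by
    rw [hSg]
    apply Finset.sum_nonneg
    intro T _
    split_ifs
    · exact hg0 T
    · exact le_rfl
  have hSg1 : Sg ≤ 1 := by
    rw [hSg, ← hg1]
    apply Finset.sum_le_sum
    intro T _
    split_ifs
    · exact le_rfl
    · exact hg0 T
  refine ⟨fun h => PSR_zero _ _ _ h, ?_, ?_, ?_⟩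
  · by_cases hex : ∃ x, σ x = some (Sum.inr j)
    · rw [PSR_zero _ _ _ hex, abs_zero]
      exact mul_nonneg (abs_nonneg _) hP
    · have hex' : ∀ x, σ x ≠ some (Sum.inr j) := fun x hx => hex ⟨x, hx⟩
      rw [hform hex', abs_mul, abs_mul, abs_of_nonneg hP, abs_of_nonneg hSg0]
      have h1 : 0 ≤ |S.aa u D (lf σ)| * ∏ i ∈ univ.erase j, g (fib (rf σ) i) :=
        mul_nonneg (abs_nonneg _) hP
      calc _ ≤ |S.aa u D (lf σ)| * (∏ i ∈ univ.erase j, g (fib (rf σ) i)) * 1 :=
            mul_le_mul_of_nonneg_left hSg1 h1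
        _ = _ := mul_one _
  · intro hex' hR
    rw [hform hex', abs_mul, abs_mul, abs_of_nonneg hP, abs_of_nonneg hSg0]
    by_cases haa : S.aa u D (lf σ) = 0
    · rw [haa, abs_zero]
      simp
    · have hszD : (S.szn (lf σ) : ℝ) ≤ D := by
        by_contra hcon
        apply haa
        unfold Sys.aa
        rw [if_neg hcon]
      have hR1 : 1 ≤ R₀ := by
        have h1 : ∃ T ∈ (univ : Finset (Finset π)), g T ≠ 0 := by
          apply Finset.exists_ne_zero_of_sum_ne_zero
          rw [hg1]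
          exact one_ne_zero
        obtain ⟨T, -, hT⟩ := h1
        exact le_trans (hwt T) (hgR T hT)
      have hszB : ((Bs S e).szn (rf σ) : ℝ) ≤ D₂ := by
        refine le_trans ?_ hR
        calc ((Bs S e).szn (rf σ) : ℝ) = ((Bs S e).szn (rf σ) : ℝ) * 1 := (mul_one _).symm
          _ ≤ _ := mul_le_mul_of_nonneg_left hR1 (Nat.cast_nonneg _)
      have hact : (act σ : ℝ) ≤ Real.log D + Real.log D₂ := by
        have h1 := (hSZT π ι κ S e σ).2.2
        have h2 := p_ACT π ι S D (fun x => hz.trans (hpr x)) (lf σ) hszD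
        have h3 := p_ACT π κ (Bs S e) D₂ (fun x => hz.trans (hpr x)) (rf σ) hszB
        rw [h1]
        push_cast
        exact add_le_add h2 h3
      have hhalf : 1 / 2 ≤ Sg := by
        have h1 : Sg = 1 - ∑ T : Finset π,
            (if ¬ ((∀ x ∈ T, σ x = none) ∧ ((Bs S e).szn (rf σ) : ℝ) * S.wt T ≤ D₂)
              then g T else 0) := by
          rw [hSg, ← hg1, ← Finset.sum_sub_distrib]
          apply Finset.sum_congr rfl
          intro T _
          by_cases hc : (∀ x ∈ T, σ x = none) ∧ ((Bs S e).szn (rf σ) : ℝ) * S.wt T ≤ D₂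
          · rw [if_pos hc, if_neg (not_not.mpr hc), sub_zero]
          · rw [if_neg hc, if_pos hc, sub_self]
        have hterm : ∀ (T : Finset π) (x : π),
            0 ≤ ((al (σ x) : ℕ) : ℝ) * (if x ∈ T then g T else 0) := by
          intro T x
          apply mul_nonneg (Nat.cast_nonneg _)
          split_ifs
          · exact hg0 T
          · exact le_rfl
        have h2 : ∑ T : Finset π,
            (if ¬ ((∀ x ∈ T, σ x = none) ∧ ((Bs S e).szn (rf σ) : ℝ) * S.wt T ≤ D₂)
              then g T else 0) ≤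
            ∑ x : π, ((al (σ x) : ℕ) : ℝ) * ∑ T : Finset π, (if x ∈ T then g T else 0) := by
          simp_rw [Finset.mul_sum]
          rw [Finset.sum_comm]
          refine Finset.sum_le_sum fun T _ => ?_
          split_ifs with hc
          · exact Finset.sum_nonneg fun x _ => hterm T x
          · by_cases huT : g T = 0
            · rw [huT]
              apply Finset.sum_nonneg
              intro x _
              simp
            · have h7 : ((Bs S e).szn (rf σ) : ℝ) * S.wt T ≤ D₂ := by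
                refine le_trans ?_ hR
                exact mul_le_mul_of_nonneg_left (hgR T huT) (Nat.cast_nonneg _)
              have h9 : ∃ x ∈ T, σ x ≠ none := by
                by_contra hcon
                apply hc
                refine ⟨fun x hx => ?_, h7⟩
                by_contra h10
                exact hcon ⟨x, hx, h10⟩
              obtain ⟨x, hx, hxn⟩ := h9
              have h11 : g T ≤ ((al (σ x) : ℕ) : ℝ) * (if x ∈ T then g T else 0) := by
                obtain ⟨h, hh⟩ := Option.ne_none_iff_exists'.mp hxn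
                rw [hh, if_pos hx]
                simp [al]
              exact h11.trans (Finset.single_le_sum (f := fun x : π =>
                ((al (σ x) : ℕ) : ℝ) * (if x ∈ T then g T else 0))
                (fun x _ => hterm T x) (mem_univ x))
        have h12 : ∑ x : π, ((al (σ x) : ℕ) : ℝ) *
            ∑ T : Finset π, (if x ∈ T then g T else 0) ≤
            ∑ x : π, ((al (σ x) : ℕ) : ℝ) * (Kg / z) := by
          refine Finset.sum_le_sum fun x _ => ?_
          apply mul_le_mul_of_nonneg_left _ (Nat.cast_nonneg _)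
          exact (hgK x).trans (div_le_div_of_nonneg_left hKg hz0 (hpr x))
        have h13 : ∑ x : π, ((al (σ x) : ℕ) : ℝ) * (Kg / z) = (act σ : ℝ) * (Kg / z) := by
          rw [← Finset.sum_mul, act, Nat.cast_sum]
        have h14 : (act σ : ℝ) * (Kg / z) ≤ (Real.log D + Real.log D₂) * (Kg / z) :=
          mul_le_mul_of_nonneg_right hact (by positivity)
        have h15 : (Real.log D + Real.log D₂) * (Kg / z) ≤ 1 / 2 := by
          rw [← mul_div_assoc, div_le_iff₀ hz0]
          linarith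
        linarith
      have h1 : 0 ≤ |S.aa u D (lf σ)| * ∏ i ∈ univ.erase j, g (fib (rf σ) i) :=
        mul_nonneg (abs_nonneg _) hP
      calc |S.aa u D (lf σ)| * (∏ i ∈ univ.erase j, g (fib (rf σ) i)) / 2
          = |S.aa u D (lf σ)| * (∏ i ∈ univ.erase j, g (fib (rf σ) i)) * (1 / 2) := by ring
        _ ≤ _ := mul_le_mul_of_nonneg_left hhalf h1
  · intro hne
    have hex' : ∀ x, σ x ≠ some (Sum.inr j) := fun x hx => hne (PSR_zero _ _ _ ⟨x, hx⟩)
    rw [hform hex'] at hne
    constructor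
    · by_contra hcon
      apply hne
      unfold Sys.aa
      rw [if_neg hcon]
      simp
    · by_contra hcon
      rw [not_le] at hcon
      apply hne
      have h0 : Sg = 0 := by
        rw [hSg]
        apply Finset.sum_eq_zero
        intro T _
        rw [if_neg]
        rintro ⟨_, h3⟩
        have h4 : ((Bs S e).szn (rf σ) : ℝ) * 1 ≤ ((Bs S e).szn (rf σ) : ℝ) * S.wt T :=
          mul_le_mul_of_nonneg_left (hwt T) (Nat.cast_nonneg _)
        linarith
      rw [h0, mul_zero]

end Pool.LGT
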