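import Pool.Agent.Work.MP_b0c12c_tup.Interface

/-! # Block RESK: a residue compatible with the tuple with few survivors (helper40) -/

set_option autoImplicit false

namespace Pool.LGT

open Finset Filter Topology
open Pool.LGP Pool.LGC

theorem RESK_cop (w q n : ℕ) :
    n.Coprime (WW w q) ↔ ∀ p : ℕ, p.Prime → p ≤ w → p ≠ q → ¬ p ∣ n := by
  unfold WW
  rw [Nat.coprime_prod_right_iff]
  constructor
  · intro h p hp hpw hpq hpn
    have h1 := h p (mem_filter.2 ⟨mem_Icc.2 ⟨hp.one_lt.le, hpw⟩, hp, hpq⟩)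
    exact (hp.coprime_iff_not_dvd.1 h1.symm) hpn
  · intro h p hp
    obtain ⟨hp1, hp2, hp3⟩ := mem_filter.1 hp
    exact (hp2.coprime_iff_not_dvd.2 (h p hp2 (mem_Icc.1 hp1).2 hp3)).symm

/-- multiples in an interval -/
theorem RESK_mult (H c p : ℕ) (hp : 0 < p) :
    ((Icc 1 H).filter (fun h => p ∣ h + c)).card ≤ H / p + 1 := by
  have h1 : ((Icc 1 H).filter (fun h => p ∣ h + c)).card ≤ (Ioc (c / p) ((H + c) / p)).card := by
    refine card_le_card_of_injOn (fun h => (h + c) / p) ?_ ?_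
    · intro h hh
      obtain ⟨h2, h3⟩ := mem_filter.1 (mem_coe.1 hh)
      obtain ⟨m, hm⟩ := h3
      have h4 := mem_Icc.1 h2
      refine mem_coe.2 (mem_Ioc.2 ⟨?_, Nat.div_le_div_right (by omega)⟩)
      show c / p < (h + c) / p
      rw [hm, Nat.mul_div_cancel_left _ hp, Nat.div_lt_iff_lt_mul hp, mul_comm]
      omega
    · intro a ha b hb hab
      obtain ⟨-, h3⟩ := mem_filter.1 (mem_coe.1 ha)
      obtain ⟨-, h4⟩ := mem_filter.1 (mem_coe.1 hb)
      have h5 : (a + c) / p * p = a + c := Nat.div_mul_cancel h3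
      have h6 : (b + c) / p * p = b + c := Nat.div_mul_cancel h4
      have h7 : (a + c) / p = (b + c) / p := hab
      rw [h7, h6] at h5
      omega
  rw [Nat.card_Ioc] at h1
  have h2 : (H + c) / p ≤ H / p + c / p + 1 := by
    rw [Nat.add_div hp]
    split_ifs
    · exact le_rfl
    · exact Nat.le_succ _
  refine h1.trans ?_
  generalize (H + c) / p = x at *
  generalize H / p = y at *
  generalize c / p = z at *
  omega

/-- the number of prime factors -/
theorem RESK_pf (n : ℕ) (hn : n ≠ 0) : 2 ^ n.primeFactors.card ≤ n := by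
  have h1 : ∏ _p ∈ n.primeFactors, 2 ≤ ∏ p ∈ n.primeFactors, p :=
    prod_le_prod (fun _ _ => by norm_num) (fun p hp => (Nat.prime_of_mem_primeFactors hp).two_le)
  rw [prod_const] at h1
  exact h1.trans (Nat.le_of_dvd (Nat.pos_of_ne_zero hn) (Nat.prod_primeFactors_dvd n))

/-- asymptotic facts -/
theorem RESK_ev (k : ℕ) : ∀ᶠ w : ℕ in atTop,
    2 ≤ Real.log w ∧ 1 ≤ Real.log (Real.log w) ∧ 1 ≤ Real.log (Real.log (Real.log w)) ∧
      2 * Real.log (Real.log w) ≤ Real.log w ∧ 40 * Real.log (Real.log w) ^ 2 ≤ Real.log w ∧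
      Real.log w ^ 5 ≤ w ∧ 13 * (k : ℝ) ≤ Real.log w ∧ 1 ≤ w := by
  have t1 : Tendsto (fun w : ℕ => Real.log w) atTop atTop :=
    Real.tendsto_log_atTop.comp tendsto_natCast_atTop_atTop
  have t2 : Tendsto (fun w : ℕ => Real.log (Real.log w)) atTop atTop :=
    Real.tendsto_log_atTop.comp t1
  have t3 : Tendsto (fun w : ℕ => Real.log (Real.log (Real.log w))) atTop atTop :=
    Real.tendsto_log_atTop.comp t2
  have t4 : ∀ᶠ w : ℕ in atTop, Real.log w ^ 5 ≤ w := by
    have h8 : (fun x : ℝ => Real.log x ^ 5) =o[atTop] (id : ℝ → ℝ) :=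
      Real.isLittleO_pow_log_id_atTop
    have h9 := (h8.bound (show (0 : ℝ) < 1 by norm_num))
    have h10 := (tendsto_natCast_atTop_atTop (R := ℝ)).eventually h9
    filter_upwards [h10] with w hw
    simp only [id, Real.norm_eq_abs, Nat.abs_cast, one_mul] at hw
    exact (le_abs_self _).trans hw
  have t5 : ∀ᶠ w : ℕ in atTop, 40 * Real.log (Real.log w) ^ 2 ≤ Real.log w := by
    have h8 : (fun x : ℝ => Real.log x ^ 2) =o[atTop] (id : ℝ → ℝ) :=
      Real.isLittleO_pow_log_id_atTop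
    have h9 := (h8.bound (show (0 : ℝ) < 1 / 40 by norm_num))
    have h10 := t1.eventually h9
    filter_upwards [h10, t1.eventually_ge_atTop 1] with w hw hw1
    simp only [id, Real.norm_eq_abs, abs_pow, sq_abs] at hw
    rw [abs_of_nonneg (by linarith : (0 : ℝ) ≤ Real.log w)] at hw
    linarith
  filter_upwards [t1.eventually_ge_atTop 2, t2.eventually_ge_atTop 1, t3.eventually_ge_atTop 1, t4, t5,
    t1.eventually_ge_atTop (13 * (k : ℝ)), eventually_ge_atTop 1] with w a1 a2 a3 a4 a5 a6 a7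
  refine ⟨a1, a2, a3, ?_, a5, a4, a6, a7⟩
  nlinarith

theorem p_RESK (h1 : Stmt_AVE) (h2 : Stmt_SRQ) (h3 : Stmt_MEQ) (h4 : Stmt_LFT) : Stmt_RESK := by
  classical
  intro k
  obtain ⟨CA, hCA, hAV⟩ := h1 k
  obtain ⟨CS, hCS, hS⟩ := h2
  obtain ⟨CM, hCM, hM⟩ := h3
  refine ⟨2 * (CA * CM * CS) + 1, by positivity, ?_⟩
  filter_upwards [hS, hM, RESK_ev k] with w hSw hMw hev H q A hwH hHw hAH hAk hadm
  obtain ⟨a1, a2, a3, a4, a5, a6, a7, a8⟩ := hev
  set L1 := Real.log w with hL1d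
  set L2 := Real.log L1 with hL2d
  set L3 := Real.log L2 with hL3d
  have hL10 : 0 < L1 := by linarith
  have hL20 : 0 < L2 := by linarith
  have hL30 : 0 < L3 := by linarith
  have hL32 : L3 ≤ L2 := by
    have := Real.log_le_sub_one_of_pos hL20
    linarith
  have hw0 : (0 : ℝ) < w := by exact_mod_cast a8
  have hH0 : 0 < H := by omega
  have hHr : (0 : ℝ) < H := by exact_mod_cast hH0
  have hwHr : (w : ℝ) ≤ H := by exact_mod_cast hwH
  have hyyd : yy w = Real.exp (L1 * L3 / (8 * L2)) := rfl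
  have hyy0 : 0 ≤ yy w := (Real.exp_pos _).le
  have hyy5 : L1 ^ 5 ≤ yy w := by
    have h5 : L1 ^ 5 = Real.exp (5 * L2) := by
      rw [hL2d, mul_comm, Real.exp_mul, Real.exp_log hL10]
      norm_cast
    rw [h5, hyyd]
    apply Real.exp_le_exp.2
    rw [le_div_iff₀ (by positivity)]
    nlinarith
  -- the sets
  obtain ⟨B, hB⟩ : ∃ B : Finset ℕ, B = (Icc 1 (2 * H)).filter
      (fun n => ∀ p : ℕ, p.Prime → p ≠ q → yy w < p → p ≤ w → ¬ p ∣ n) := ⟨_, rfl⟩
  have hBc : (B.card : ℝ) ≤ CS * (((2 * H : ℕ) : ℝ) * L2 / L1) := by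
    refine hSw (2 * H) q B (by omega) ?_ (by rw [hB]; exact filter_subset _ _) ?_
    · push_cast
      have h5 : (w : ℝ) * L1 ^ 3 = w * L1 ^ 2 * L1 := by ring
      rw [h5]
      nlinarith [mul_nonneg hw0.le (sq_nonneg L1)]
    · intro n hn
      rw [hB] at hn
      exact (mem_filter.1 hn).2
  obtain ⟨R, hR⟩ : ∃ R : Finset ℕ, R = (Icc 1 ⌊yy w⌋₊).filter (fun p => p.Prime ∧ p ≠ q) := ⟨_, rfl⟩
  have hRc : Pi' R ≤ CM * (L2 / (L1 * L3)) := by
    rw [hR]
    exact hMw q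
  have hmemR : ∀ p : ℕ, p.Prime → p ≠ q → (p : ℝ) ≤ yy w → p ∈ R := by
    intro p hp hpq hpy
    rw [hR, mem_filter, mem_Icc]
    exact ⟨⟨hp.one_lt.le, Nat.le_floor hpy⟩, hp, hpq⟩
  have hRp : ∀ p ∈ R, p.Prime := by
    intro p hp
    rw [hR] at hp
    exact (mem_filter.1 hp).2.1
  have hRq : ∀ p ∈ R, p ≠ q := by
    intro p hp
    rw [hR] at hp
    exact (mem_filter.1 hp).2.2
  have hRle : ∀ p ∈ R, (p : ℝ) ≤ yy w := by
    intro p hp
    rw [hR, mem_filter, mem_Icc] at hp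
    exact (Nat.le_floor_iff hyy0).1 hp.1.2
  have hyyw : yy w ≤ w := by
    rw [hyyd, ← Real.exp_log hw0]
    apply Real.exp_le_exp.2
    rw [div_le_iff₀ (by positivity)]
    have h8 : L1 * L3 ≤ L1 * L2 := mul_le_mul_of_nonneg_left hL32 hL10.le
    nlinarith
  have hRw : ∀ p ∈ R, p ≤ w := by
    intro p hp
    exact_mod_cast (hRle p hp).trans hyyw
  obtain ⟨c, hcH, v₀, hv₀, hcnt⟩ := hAV R A B H hH0 hRp hAk hAH (fun p hp => hadm p (hRp p hp))
  -- residues avoiding A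
  have hra : ∀ p : ℕ, ∃ r : ℕ, p.Prime → ∀ h ∈ A, ¬ p ∣ r + h := by
    intro p
    by_cases hp : p.Prime
    · obtain ⟨r', hr'⟩ := hadm p hp
      refine ⟨r' * (p - 1), fun _ h hh hd => hr' h hh ?_⟩
      have h5 : r' * (p - 1) + r' = r' * p := by
        have := hp.one_lt
        obtain ⟨m, rfl⟩ : ∃ m, p = m + 1 := ⟨p - 1, by omega⟩
        rw [Nat.add_sub_cancel]
        ring
      have h6 : r' * (p - 1) + h ≡ r' * (p - 1) + r' [MOD p] := by
        rw [h5]
        exact ((Nat.modEq_zero_iff_dvd).2 hd).trans ((Nat.modEq_zero_iff_dvd).2 (dvd_mul_left _ _)).symm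
      exact Nat.ModEq.add_left_cancel' _ h6
    · exact ⟨0, fun h => absurd h hp⟩
  choose ra hra using hra
  obtain ⟨v, hv, hvr⟩ := h4 w q (fun p => if (p : ℝ) ≤ yy w then v₀ else
    if ∃ h ∈ A, p ∣ h + c then ra p else c)
  -- divisibility of v + n
  have hdv : ∀ p : ℕ, p.Prime → p ≤ w → p ≠ q → ∀ n, (p ∣ v + n ↔ p ∣ (if (p : ℝ) ≤ yy w then v₀ else
      if ∃ h ∈ A, p ∣ h + c then ra p else c) + n) := by
    intro p hp hpw hpq n
    have h5 := hvr p hp hpw hpq
    rw [← Nat.modEq_zero_iff_dvd, ← Nat.modEq_zero_iff_dvd]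
    exact ⟨fun h => ((h5.add_right n).symm).trans h, fun h => (h5.add_right n).trans h⟩
  refine ⟨v, hv, ?_, ?_⟩
  · intro h hh
    rw [RESK_cop]
    intro p hp hpw hpq
    rw [hdv p hp hpw hpq h]
    split_ifs with h5 h6
    · exact hv₀ h hh p (hmemR p hp hpq h5)
    · exact hra p hp h hh
    · push Not at h6
      rw [add_comm]
      exact h6 h hh
  -- the survivors
  obtain ⟨S1, hS1⟩ : ∃ S1 : Finset ℕ, S1 = (Icc 1 H).filter
      (fun h => h + c ∈ B ∧ ∀ p ∈ R, ¬ p ∣ v₀ + h) := ⟨_, rfl⟩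
  obtain ⟨S2, hS2⟩ : ∃ S2 : Finset ℕ, S2 = A.biUnion (fun h' =>
      ((h' + c).primeFactors.filter (fun p : ℕ => yy w < p)).biUnion
        (fun p => (Icc 1 H).filter (fun h => p ∣ h + c))) := ⟨_, rfl⟩
  have hsub : (Icc 1 H).filter (fun h => (v + h).Coprime (WW w q)) ⊆ S1 ∪ S2 := by
    intro h hh
    obtain ⟨hh1, hh2⟩ := mem_filter.1 hh
    rw [RESK_cop] at hh2
    rw [mem_union]
    by_cases hb : h + c ∈ B
    · left
      rw [hS1, mem_filter]
      refine ⟨hh1, hb, fun p hp => ?_⟩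
      have h5 := hh2 p (hRp p hp) (hRw p hp) (hRq p hp)
      rw [hdv p (hRp p hp) (hRw p hp) (hRq p hp) h, if_pos (hRle p hp)] at h5
      exact h5
    · right
      rw [hB, mem_filter] at hb
      have h5 : h + c ∈ Icc 1 (2 * H) := by
        rw [mem_Icc] at hh1 ⊢
        omega
      have h6 : ∃ p : ℕ, p.Prime ∧ p ≠ q ∧ yy w < p ∧ p ≤ w ∧ p ∣ h + c := by
        by_contra hcon
        push Not at hcon
        exact hb ⟨h5, hcon⟩
      obtain ⟨p, hp, hpq, hpy, hpw, hpd⟩ := h6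
      have h7 := hh2 p hp hpw hpq
      rw [hdv p hp hpw hpq h, if_neg (not_le.2 hpy)] at h7
      have h8 : ∃ h' ∈ A, p ∣ h' + c := by
        by_contra hcon
        rw [if_neg hcon, add_comm] at h7
        exact h7 hpd
      obtain ⟨h', hh', hph'⟩ := h8
      rw [hS2, mem_biUnion]
      refine ⟨h', hh', mem_biUnion.2 ⟨p, mem_filter.2 ⟨?_, hpy⟩, mem_filter.2 ⟨hh1, hpd⟩⟩⟩
      have h9 := (mem_Icc.1 (hAH hh')).1
      exact Nat.mem_primeFactors.2 ⟨hp, hph', by omega⟩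
  have hS1c : (S1.card : ℝ) ≤ k + CA * (Pi' R * B.card) := by
    rw [hS1]
    exact hcnt
  have hS2c : (S2.card : ℝ) ≤ 12 * k * (H / L1 ^ 4) := by
    have hlog2H : Real.log ((2 * H : ℕ) : ℝ) ≤ 3 * L1 := by
      push_cast
      have h5 : Real.log H ≤ L1 + 2 * L2 := by
        have h6 := Real.log_le_log hHr hHw
        rw [Real.log_mul hw0.ne' (by positivity), Real.log_pow] at h6
        push_cast at h6
        exact h6
      rw [Real.log_mul (by norm_num) hHr.ne']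
      have h6 : Real.log 2 ≤ 1 := by
        have := Real.log_two_lt_d9
        linarith
      linarith
    have hcardpf : ∀ h' ∈ A, (((h' + c).primeFactors.card : ℕ) : ℝ) ≤ 6 * L1 := by
      intro h' hh'
      have h5 := mem_Icc.1 (hAH hh')
      have h6 := RESK_pf (h' + c) (by omega)
      have h7 : 2 ^ (h' + c).primeFactors.card ≤ 2 * H := h6.trans (by omega)
      have h8 : ((2 : ℝ)) ^ (h' + c).primeFactors.card ≤ ((2 * H : ℕ) : ℝ) := by exact_mod_cast h7
      have h9 := Real.log_le_log (by positivity) h8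
      rw [Real.log_pow] at h9
      have h10 : (1 : ℝ) / 2 ≤ Real.log 2 := by
        have := Real.log_two_gt_d9
        linarith
      have h11 : (0 : ℝ) ≤ ((h' + c).primeFactors.card : ℝ) := Nat.cast_nonneg _
      nlinarith
    have hL15 : L1 ^ 5 ≤ (H : ℝ) := a6.trans hwHr
    have hp1 : ∀ p : ℕ, yy w < p → ((((Icc 1 H).filter (fun h => p ∣ h + c)).card : ℕ) : ℝ) ≤
        2 * (H / L1 ^ 5) := by
      intro p hpy
      have hp0 : (0 : ℝ) < p := lt_of_le_of_lt hyy0 hpy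
      have hp0' : 0 < p := by exact_mod_cast hp0
      have h5 := RESK_mult H c p hp0'
      have h6 : ((((Icc 1 H).filter (fun h => p ∣ h + c)).card : ℕ) : ℝ) ≤ ((H / p + 1 : ℕ) : ℝ) := by
        exact_mod_cast h5
      have h7 : ((H / p : ℕ) : ℝ) ≤ (H : ℝ) / p := Nat.cast_div_le
      have h8 : (H : ℝ) / p ≤ H / L1 ^ 5 :=
        div_le_div_of_nonneg_left hHr.le (by positivity) (hyy5.trans hpy.le)
      have h9 : (1 : ℝ) ≤ H / L1 ^ 5 := by
        rw [le_div_iff₀ (by positivity), one_mul]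
        exact hL15
      push_cast at h6
      linarith
    have hin : ∀ h' ∈ A, ((((((h' + c).primeFactors.filter (fun p : ℕ => yy w < p)).biUnion
        (fun p => (Icc 1 H).filter (fun h => p ∣ h + c)))).card : ℕ) : ℝ) ≤
        6 * L1 * (2 * (H / L1 ^ 5)) := by
      intro h' hh'
      have h5 : (((((h' + c).primeFactors.filter (fun p : ℕ => yy w < p)).biUnion
        (fun p => (Icc 1 H).filter (fun h => p ∣ h + c)))).card : ℝ) ≤
          ∑ p ∈ (h' + c).primeFactors.filter (fun p : ℕ => yy w < p),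
            ((((Icc 1 H).filter (fun h => p ∣ h + c)).card : ℕ) : ℝ) := by
        exact_mod_cast card_biUnion_le
      refine h5.trans ((sum_le_card_nsmul _ _ _ (fun p hp => hp1 p (mem_filter.1 hp).2)).trans ?_)
      rw [nsmul_eq_mul]
      have h6 : ((((h' + c).primeFactors.filter (fun p : ℕ => yy w < p)).card : ℕ) : ℝ) ≤ 6 * L1 :=
        (Nat.cast_le.2 (card_filter_le _ _)).trans (hcardpf h' hh')
      exact mul_le_mul_of_nonneg_right h6 (by positivity)
    have h5 : (S2.card : ℝ) ≤ ∑ h' ∈ A, ((((((h' + c).primeFactors.filter (fun p : ℕ => yy w < p)).biUnion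
        (fun p => (Icc 1 H).filter (fun h => p ∣ h + c)))).card : ℕ) : ℝ) := by
      rw [hS2]
      exact_mod_cast card_biUnion_le
    refine h5.trans ((sum_le_card_nsmul _ _ _ hin).trans ?_)
    rw [nsmul_eq_mul]
    have h6 : (A.card : ℝ) ≤ k := by exact_mod_cast hAk
    have h7 : 6 * L1 * (2 * ((H : ℝ) / L1 ^ 5)) = 12 * (H / L1 ^ 4) := by
      field_simp
      ring
    rw [h7]
    have h8 : (0 : ℝ) ≤ 12 * (H / L1 ^ 4) := by positivity
    nlinarith [mul_le_mul_of_nonneg_right h6 h8]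
  have hmain : CA * (Pi' R * B.card) ≤ 2 * (CA * CM * CS) * (H * L2 ^ 2 / (L1 ^ 2 * L3)) := by
    have h5 : Pi' R * B.card ≤ CM * (L2 / (L1 * L3)) * (CS * (((2 * H : ℕ) : ℝ) * L2 / L1)) :=
      mul_le_mul hRc hBc (Nat.cast_nonneg _) (by positivity)
    have h6 := mul_le_mul_of_nonneg_left h5 hCA.le
    refine h6.trans (le_of_eq ?_)
    push_cast
    field_simp
  have hrest : (k : ℝ) + 12 * k * (H / L1 ^ 4) ≤ H * L2 ^ 2 / (L1 ^ 2 * L3) := by
    have h5 : (1 : ℝ) ≤ H / L1 ^ 4 := by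
      rw [le_div_iff₀ (by positivity), one_mul]
      have h6 : L1 ^ 4 ≤ L1 ^ 5 := pow_le_pow_right₀ (by linarith) (by norm_num)
      linarith [a6.trans hwHr]
    have h6 : (k : ℝ) + 12 * k * (H / L1 ^ 4) ≤ 13 * k * (H / L1 ^ 4) := by
      have h7 : (0 : ℝ) ≤ k := Nat.cast_nonneg _
      nlinarith
    have h7 : 13 * (k : ℝ) * (H / L1 ^ 4) ≤ L1 * (H / L1 ^ 4) :=
      mul_le_mul_of_nonneg_right a7 (by positivity)
    have h8 : L1 * ((H : ℝ) / L1 ^ 4) = H / L1 ^ 3 := by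
      field_simp
    have h9 : (H : ℝ) / L1 ^ 3 ≤ H * L2 ^ 2 / (L1 ^ 2 * L3) := by
      rw [div_le_div_iff₀ (by positivity) (by positivity)]
      have h10 : L3 ≤ L1 * L2 ^ 2 := by nlinarith
      have h11 : (H : ℝ) * (L1 ^ 2 * L3) ≤ H * (L1 ^ 2 * (L1 * L2 ^ 2)) := by gcongr
      refine h11.trans (le_of_eq ?_)
      ring
    linarith
  have hcard : (((Icc 1 H).filter (fun h => (v + h).Coprime (WW w q))).card : ℝ) ≤
      (S1.card : ℝ) + S2.card := by
    have h5 := (card_le_card hsub).trans (card_union_le _ _)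
    exact_mod_cast h5
  calc (((Icc 1 H).filter (fun h => (v + h).Coprime (WW w q))).card : ℝ)
      ≤ (S1.card : ℝ) + S2.card := hcard
    _ ≤ (k + CA * (Pi' R * B.card)) + 12 * k * (H / L1 ^ 4) := add_le_add hS1c hS2c
    _ ≤ 2 * (CA * CM * CS) * (H * L2 ^ 2 / (L1 ^ 2 * L3)) + H * L2 ^ 2 / (L1 ^ 2 * L3) := by linarith
    _ = _ := by ring

end Pool.LGT
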