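import Pool.Agent.Work.MP_b0c12c_tup.Interface
import Pool.Agent.Work.MP_b0c12c_chain.B_SCK

/-! # Block SCT: many primes in a tuple at one scale (helper52, after SCKE of the chain) -/

set_option autoImplicit false

namespace Pool.LGT

open Finset Filter
open Pool.LGP Pool.LGC

theorem SCT_pos (w q : ℕ) : 0 < WW w q := by
  unfold WW
  exact Finset.prod_pos (fun p hp => (Finset.mem_filter.mp hp).2.1.pos)

theorem SCT_dvd (w q : ℕ) : WW w q ∣ primorial w := by
  unfold WW primorial
  apply Finset.prod_dvd_prod_of_subset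
  intro p hp
  rw [Finset.mem_filter, Finset.mem_Icc] at hp
  rw [Finset.mem_filter, Finset.mem_range]
  exact ⟨by omega, hp.2.1⟩

theorem SCT_cop {p w q : ℕ} (hp : p.Prime) (h : w < p) : p.Coprime (WW w q) :=
  Nat.Coprime.coprime_dvd_right (SCT_dvd w q) (sck_coprime hp h)

/-- The values of a family in a short interval are different modulo large primes. -/
theorem SCT_good {π ι : Type} (S : Sys π ι) (v H : ℕ) (hpr : ∀ x, (S.pr x).Prime)
    (hinj : Function.Injective S.pr) (hcop : ∀ x, (S.pr x).Coprime S.W)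
    (hvinj : Function.Injective S.v) (hb : ∀ i, v + 1 ≤ S.v i ∧ S.v i ≤ v + H + 1)
    (hp : ∀ x, H < S.pr x) : S.Good := by
  refine ⟨hpr, hinj, hcop, sck_excl S H hvinj ?_ hp⟩
  intro h h'
  have := hb h
  have := hb h'
  omega

theorem SCT_ext {π ι : Type} (S : Sys π ι) (v H e : ℕ) (he : v + 1 ≤ e ∧ e ≤ v + H + 1)
    (hb : ∀ i, v + 1 ≤ S.v i ∧ S.v i ≤ v + H + 1) (hne : ∀ i, S.v i ≠ e)
    (hp : ∀ x, H < S.pr x) : Ext S e := by
  intro x i
  unfold cl
  intro h0
  rw [sub_eq_zero] at h0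
  have h0' := h0
  rw [ZMod.natCast_eq_natCast_iff] at h0'
  have b1 := hp x
  have b2 := hb i
  have b3 := hne i
  obtain ⟨c, hc⟩ : ∃ c, e = v + 1 + c := ⟨e - (v + 1), by omega⟩
  obtain ⟨d, hd⟩ : ∃ d, S.v i = v + 1 + d := ⟨S.v i - (v + 1), by omega⟩
  rw [hc, hd] at h0'
  have h1' : c ≡ d [MOD S.pr x] := by
    first
    | exact Nat.ModEq.add_left_cancel' (v + 1) h0'
    | exact (Nat.ModEq.add_left_cancel' (v + 1) h0').symm
  have := Nat.ModEq.eq_of_lt_of_lt h1' (by omega) (by omega)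
  omega

theorem p_SCT (h1 : Stmt_MIDT) (h2 : Stmt_DATT) (h3 : Stmt_WPQ) : Stmt_SCT := by
  classical
  intro κA hκA
  obtain ⟨Cφ, hCφ, hwpq⟩ := h3
  obtain ⟨κ₀, κ', η, C₃, hκ₀, hκ₀8, hκ', hκ'1, hη, hη2, hC₃, hdat⟩ := h2 κA Cφ hκA hCφ
  obtain ⟨L₁, hL₁⟩ := hwpq κ₀ hκ₀
  refine ⟨κ₀, κ', C₃, hκ₀, hκ', hC₃, fun m => ?_⟩
  obtain ⟨k₀, hk₀, hk₀e, L₀, hL₀⟩ := hdat m
  refine ⟨k₀, hk₀, hk₀e, Real.exp (max (max L₀ 4) L₁), ?_⟩
  intro X hX y₁ hy₁ hprim hgood w v H q E hw hWy hv hH hEH hcard hcop hsurv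
  have hX0 : 0 < X := lt_of_lt_of_le (Real.exp_pos _) hX
  obtain ⟨L, hL⟩ : ∃ L : ℝ, L = Real.log X := ⟨_, rfl⟩
  have hXL : X = Real.exp L := by rw [hL, Real.exp_log hX0]
  have hLmax : max (max L₀ 4) L₁ ≤ L := by
    rw [hXL] at hX
    exact Real.exp_le_exp.mp hX
  have hLL₀ : L₀ ≤ L := (le_max_left _ _).trans ((le_max_left _ _).trans hLmax)
  have hL4 : 4 ≤ L := (le_max_right _ _).trans ((le_max_left _ _).trans hLmax)
  have hLL₁ : L₁ ≤ L := (le_max_right _ _).trans hLmax
  rw [← hL] at hw hH hsurv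
  have hL0 : 0 < L := by linarith
  have hlogL : 0 < Real.log L := Real.log_pos (by linarith)
  -- the modulus
  obtain ⟨W, hWdef⟩ : ∃ W : ℕ, W = WW w q := ⟨_, rfl⟩
  have hcopW : ∀ {p : ℕ}, p.Prime → w < p → p.Coprime W := by
    intro p hp h
    rw [hWdef]
    exact SCT_cop hp h
  have hWpos : 0 < W := by rw [hWdef]; exact SCT_pos w q
  have hWprim : W ≤ primorial ⌊κ₀ * L⌋₊ := by
    rw [hWdef, ← hw]
    exact Nat.le_of_dvd (sck_primorial_pos w) (SCT_dvd w q)
  have hφ : (W.totient : ℝ) * Real.log L ≤ Cφ * W := by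
    rw [hWdef, hw]
    exact hL₁ L hLL₁ q
  rw [← hWdef] at hWy hv hcop hsurv
  have hW : (W : ℝ) ≤ Real.exp (L / 4) := by
    have e1 : (W : ℝ) ≤ (primorial ⌊κ₀ * L⌋₊ : ℝ) := by exact_mod_cast hWprim
    exact e1.trans (sck_W L κ₀ hL0.le hκ₀.le hκ₀8)
  have hWr : (0 : ℝ) < (W : ℝ) := by exact_mod_cast hWpos
  have hwle : (w : ℝ) ≤ L / 8 := by
    rw [hw]
    refine (Nat.floor_le (by positivity)).trans ?_
    nlinarith
  have hnum := sck_num L hL4
  -- the number Y
  obtain ⟨Y, hY⟩ : ∃ Y : ℕ, Y = ⌊X / (W : ℝ)⌋₊ + 1 := ⟨_, rfl⟩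
  have hY1 : X < (W : ℝ) * Y := by
    have := Nat.lt_floor_add_one (X / (W : ℝ))
    rw [div_lt_iff₀ hWr] at this
    rw [hY]
    push_cast
    linarith
  have hY2 : (W : ℝ) * Y ≤ X + W := by
    have := Nat.floor_le (a := X / (W : ℝ)) (by positivity)
    rw [le_div_iff₀ hWr] at this
    rw [hY]
    push_cast
    linarith
  have hY3 : Real.exp (L / 2) ≤ Y := by
    have e1 : Real.exp (L / 2) * (W : ℝ) ≤ X := by
      calc Real.exp (L / 2) * (W : ℝ) ≤ Real.exp (L / 2) * Real.exp (L / 4) :=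
            mul_le_mul_of_nonneg_left hW (Real.exp_pos _).le
        _ = Real.exp (3 * L / 4) := by rw [← Real.exp_add]; ring_nf
        _ ≤ X := by
          rw [hXL]
          apply Real.exp_le_exp.mpr
          linarith
    by_contra hcon
    push Not at hcon
    have : (W : ℝ) * Y < (W : ℝ) * Real.exp (L / 2) :=
      mul_lt_mul_of_pos_left hcon hWr
    linarith
  -- the level
  obtain ⟨Q, hQ⟩ : ∃ Q : ℕ, Q = ⌊X ^ κA⌋₊ := ⟨_, rfl⟩
  have hQ1 : (Q : ℝ) ≤ X ^ κA := by
    rw [hQ]
    exact Nat.floor_le (by positivity)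
  have hQ2 : Real.exp (κA * L) ≤ Q + 1 := by
    have e1 : Real.exp (κA * L) = X ^ κA := by
      rw [hXL, ← Real.exp_mul]
      ring_nf
    rw [e1, hQ]
    exact (Nat.lt_floor_add_one _).le
  -- the primes
  obtain ⟨P, hP⟩ : ∃ P : Finset ℕ, ∀ p : ℕ, p ∈ P ↔ p.Prime ∧ ⌈L ^ 3⌉₊ < p ∧
      (p : ℝ) ≤ Real.exp (η * L) := by
    refine ⟨(Icc 0 ⌊Real.exp (η * L)⌋₊).filter
      (fun p => p.Prime ∧ ⌈L ^ 3⌉₊ < p ∧ (p : ℝ) ≤ Real.exp (η * L)), ?_⟩
    intro p
    rw [Finset.mem_filter, Finset.mem_Icc]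
    refine ⟨fun h => h.2, fun h => ⟨⟨Nat.zero_le _, ?_⟩, h⟩⟩
    exact Nat.le_floor h.2.2
  have hP3 : ∀ p ∈ P, L ^ 3 < (p : ℝ) := by
    intro p hp
    have := ((hP p).1 hp).2.1
    exact (Nat.le_ceil _).trans_lt (by exact_mod_cast this)
  have hPH : ∀ p ∈ P, H < p := by
    intro p hp
    have e1 := hP3 p hp
    have e2 : L ^ 2 ≤ L ^ 3 := pow_le_pow_right₀ (by linarith) (by norm_num)
    have : (H : ℝ) < p := by linarith
    exact_mod_cast this
  have hPw : ∀ p ∈ P, w < p := by
    intro p hp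
    have e1 := hP3 p hp
    have e2 : L ≤ L ^ 3 := by
      calc L = L ^ 1 := (pow_one L).symm
        _ ≤ L ^ 3 := pow_le_pow_right₀ (by linarith) (by norm_num)
    have : (w : ℝ) < p := by linarith
    exact_mod_cast this
  have hLX : L ≤ X := by
    rw [hXL]
    have := Real.add_one_le_exp L
    linarith
  -- the labels
  obtain ⟨T, hT⟩ : ∃ T : Finset ℕ, T = (Icc 1 H).filter
      (fun h => (v + h).Coprime W ∧ h ∉ E) := ⟨_, rfl⟩
  have hTmem : ∀ h, h ∈ T ↔ (1 ≤ h ∧ h ≤ H) ∧ (v + h).Coprime W ∧ h ∉ E := by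
    intro h
    rw [hT, Finset.mem_filter, Finset.mem_Icc]
  let S : Sys P T := ⟨fun x => (x : ℕ), W, fun h => v + (h : ℕ)⟩
  let em : Fin k₀ → ℕ := fun j => E.orderEmbOfFin hcard j
  have hem : ∀ j, em j ∈ E := fun j => Finset.orderEmbOfFin_mem E hcard j
  have heminj : Function.Injective em := (E.orderEmbOfFin hcard).injective
  let e : Fin k₀ → ℕ := fun j => v + em j
  have hTH : ∀ h : T, 1 ≤ (h : ℕ) ∧ (h : ℕ) ≤ H := fun h => ((hTmem h).1 h.2).1
  have hTE : ∀ h : T, (h : ℕ) ∉ E := fun h => ((hTmem h).1 h.2).2.2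
  have hEb : ∀ h ∈ E, 1 ≤ h ∧ h ≤ H := by
    intro h hh
    have := hEH hh
    rwa [Finset.mem_Icc] at this
  have hxprime : ∀ x : P, (x : ℕ).Prime := fun x => ((hP x).1 x.2).1
  have hxcop : ∀ x : P, (x : ℕ).Coprime W := fun x => hcopW (hxprime x) (hPw x x.2)
  have hSgood : (Tn S e).Good := by
    refine SCT_good (Tn S e) v H hxprime (fun a b hab => Subtype.ext hab) hxcop ?_ ?_
      (fun x => hPH x x.2)
    · intro a b hab
      rcases a with a | a <;> rcases b with b | b
      · have h0 : v + (a : ℕ) = v + (b : ℕ) := hab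
        have : a = b := Subtype.ext (by omega)
        rw [this]
      · exfalso
        have h0 : v + (a : ℕ) = v + em b := hab
        have h1 : (a : ℕ) = em b := by omega
        exact hTE a (h1 ▸ hem b)
      · exfalso
        have h0 : v + em a = v + (b : ℕ) := hab
        have h1 : em a = (b : ℕ) := by omega
        exact hTE b (h1 ▸ hem a)
      · have h0 : v + em a = v + em b := hab
        rw [heminj (show em a = em b by omega)]
    · intro i
      rcases i with i | i
      · have := hTH i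
        show v + 1 ≤ v + (i : ℕ) ∧ v + (i : ℕ) ≤ v + H + 1
        omega
      · have := hEb _ (hem i)
        show v + 1 ≤ v + em i ∧ v + em i ≤ v + H + 1
        omega
  -- the family with one point replaced
  obtain ⟨f, hf⟩ : ∃ f : ℕ, f = v + H + 1 := ⟨_, rfl⟩
  have hupd : ∀ j i, Function.update e j f i = (if i = j then v + H + 1 else v + em i) := by
    intro j i
    rw [Function.update_apply, hf]
  have hub : ∀ j i, v + 1 ≤ (Tn S (Function.update e j f)).v i ∧
      (Tn S (Function.update e j f)).v i ≤ v + H + 1 := by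
    intro j i
    rcases i with i | i
    · have := hTH i
      show v + 1 ≤ v + (i : ℕ) ∧ v + (i : ℕ) ≤ v + H + 1
      omega
    · show v + 1 ≤ Function.update e j f i ∧ Function.update e j f i ≤ v + H + 1
      rw [hupd]
      have := hEb _ (hem i)
      split_ifs <;> omega
  have hSgood' : ∀ j, (Tn S (Function.update e j f)).Good := by
    intro j
    refine SCT_good (Tn S (Function.update e j f)) v H hxprime (fun a b hab => Subtype.ext hab)
      hxcop ?_ (hub j) (fun x => hPH x x.2)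
    intro a b hab
    rcases a with a | a <;> rcases b with b | b
    · have h0 : v + (a : ℕ) = v + (b : ℕ) := hab
      have : a = b := Subtype.ext (by omega)
      rw [this]
    · exfalso
      have h0 : v + (a : ℕ) = Function.update e j f b := hab
      rw [hupd] at h0
      have := hTH a
      split_ifs at h0
      · omega
      · have h1 : (a : ℕ) = em b := by omega
        exact hTE a (h1 ▸ hem b)
    · exfalso
      have h0 : Function.update e j f a = v + (b : ℕ) := hab
      rw [hupd] at h0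
      have := hTH b
      split_ifs at h0
      · omega
      · have h1 : em a = (b : ℕ) := by omega
        exact hTE b (h1 ▸ hem a)
    · have h0 : Function.update e j f a = Function.update e j f b := hab
      rw [hupd, hupd] at h0
      have b1 := hEb _ (hem a)
      have b2 := hEb _ (hem b)
      split_ifs at h0 with c1 c2 c2
      · rw [c1, c2]
      · exfalso; omega
      · exfalso; omega
      · rw [heminj (show em a = em b by omega)]
  have hext : ∀ j, Ext (Tn S (Function.update e j f)) (e j) := by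
    intro j
    have bj := hEb _ (hem j)
    refine SCT_ext (Tn S (Function.update e j f)) v H (e j) ?_ (hub j) ?_ (fun x => hPH x x.2)
    · show v + 1 ≤ v + em j ∧ v + em j ≤ v + H + 1
      omega
    · intro i
      rcases i with i | i
      · show v + (i : ℕ) ≠ v + em j
        intro h0
        have h1 : (i : ℕ) = em j := by omega
        exact hTE i (h1 ▸ hem j)
      · show Function.update e j f i ≠ v + em j
        rw [hupd]
        split_ifs with c
        · omega
        · intro h0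
          exact c (heminj (show em i = em j by omega))
  have hcardι : (Fintype.card T : ℝ) ≤ κ' * L := by
    rw [Fintype.card_coe]
    refine le_trans ?_ hsurv
    have : T ⊆ (Icc 1 H).filter (fun h => (v + h).Coprime W) := by
      intro h hh
      have := (hTmem h).1 hh
      rw [Finset.mem_filter, Finset.mem_Icc]
      exact ⟨this.1, this.2.1⟩
    exact_mod_cast Finset.card_le_card this
  obtain ⟨u, g, a, b, C, K, D, z, s, R₀, D₂, Kg, hDat, hfin⟩ := hL₀ L hLL₀ P hP T S e
    (fun x => rfl) hSgood hWpos hWprim hφ hcardι Y Q hY3 hQ2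
  have hvW : (v : ℝ) ≤ W := by exact_mod_cast hv.le
  have hmid := h1 P T (Fin k₀) S e u g a b C K D z s R₀ D₂ Kg Y Q hDat y₁ hy₁ hprim hWy f (2 * L)
    m ?_ (by positivity) ?_ ?_
  · obtain ⟨y, hy, hcomp, hmany⟩ := hmid
    rw [Finset.mem_Ioc] at hy
    have hyY : (Y : ℝ) ≤ y := by exact_mod_cast hy.1.le
    have hy2Y : (y : ℝ) ≤ 2 * Y := by exact_mod_cast hy.2
    have hWy1 : (W : ℝ) * Y ≤ (W : ℝ) * y := mul_le_mul_of_nonneg_left hyY hWr.le
    have hWy2 : (W : ℝ) * y ≤ 2 * ((W : ℝ) * Y) := by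
      have := mul_le_mul_of_nonneg_left hy2Y hWr.le
      linarith
    refine ⟨W * y + v, ?_, ?_, ?_, ?_⟩
    · push_cast
      have : (0 : ℝ) ≤ v := Nat.cast_nonneg _
      linarith
    · push_cast
      rw [hXL] at hY2 ⊢
      linarith
    · intro n hn hnp
      rw [Finset.mem_Ioc] at hn
      obtain ⟨h, rfl⟩ : ∃ h, n = W * y + v + h := ⟨n - (W * y + v), by omega⟩
      have hh1 : 1 ≤ h := by omega
      have hh2 : h ≤ H := by omega
      by_contra hcon
      push Not at hcon
      have hwn : w < W * y + v + h := by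
        have e1 : (w : ℝ) < ((W * y + v + h : ℕ) : ℝ) := by
          push_cast
          have : (0 : ℝ) ≤ v := Nat.cast_nonneg _
          have h' : (0 : ℝ) ≤ h := Nat.cast_nonneg _
          linarith
        exact_mod_cast e1
      have hcpm := hcopW hnp hwn
      have hcp : (v + h).Coprime W := by
        rw [add_assoc, Nat.coprime_mul_left_add_left] at hcpm
        exact hcpm
      have hTm : h ∈ T := (hTmem h).2 ⟨⟨hh1, hh2⟩, hcp, fun hi => hcon h hi rfl⟩
      apply hcomp ⟨h, hTm⟩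
      show (W * y + (v + h)).Prime
      rwa [← add_assoc]
    · refine hmany.trans ?_
      refine Finset.card_le_card_of_injOn em ?_ (heminj.injOn)
      intro j hj
      have hj' := (Finset.mem_filter.mp (Finset.mem_coe.mp hj)).2
      rw [Finset.mem_coe, Finset.mem_filter]
      refine ⟨hem j, ?_⟩
      have : (W * y + (v + em j)).Prime := hj'
      rwa [← add_assoc] at this
  · intro j
    have bj := hEb _ (hem j)
    have hjH : (em j : ℝ) ≤ H := by exact_mod_cast bj.2
    have hup : ((2 * (S.W * Y) + e j : ℕ) : ℝ) ≤ 4 * X := by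
      show ((2 * (W * Y) + (v + em j) : ℕ) : ℝ) ≤ 4 * X
      push_cast
      rw [hXL] at hY2 ⊢
      linarith
    refine ⟨hSgood' j, hext j, hcop _ (hem j), ?_, ?_⟩
    · obtain ⟨R, hR0, hR1, hR2⟩ := hgood (S.W * Y + e j) (2 * (S.W * Y) + e j) (by
          show X ≤ ((W * Y + (v + em j) : ℕ) : ℝ)
          push_cast
          have e1 : (0 : ℝ) ≤ v := Nat.cast_nonneg _
          have e2 : (0 : ℝ) ≤ (em j : ℝ) := Nat.cast_nonneg _
          linarith) (by omega) hup
      refine ⟨R, hR0, ?_, ?_⟩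
      · refine hR1.trans (le_of_eq ?_)
        push_cast
        ring
      · refine (hR2 Q hQ1).trans ?_
        show 1 / 8 * X ≤ (W : ℝ) * Y / 8
        linarith
    · have hpos : (0 : ℝ) < ((2 * (S.W * Y) + e j : ℕ) : ℝ) := by
        show (0 : ℝ) < ((2 * (W * Y) + (v + em j) : ℕ) : ℝ)
        push_cast
        have e1 : (0 : ℝ) ≤ v := Nat.cast_nonneg _
        have e2 : (0 : ℝ) ≤ (em j : ℝ) := Nat.cast_nonneg _
        linarith
      have hX4 : 4 ≤ X := by linarith
      have : ((2 * (S.W * Y) + e j : ℕ) : ℝ) ≤ Real.exp (2 * L) := by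
        refine hup.trans ?_
        rw [two_mul, Real.exp_add, ← hXL]
        exact mul_le_mul_of_nonneg_right hX4 hX0.le
      calc Real.log ((2 * (S.W * Y) + e j : ℕ) : ℝ) ≤ Real.log (Real.exp (2 * L)) :=
            Real.log_le_log hpos this
        _ = 2 * L := Real.log_exp _
  · intro n hn hnW
    have hnX : X < n := by
      have : ((W * Y : ℕ) : ℝ) < n := by exact_mod_cast hnW
      push_cast at this
      linarith
    have hwn : w < n := by
      have : (w : ℝ) < n := by linarith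
      exact_mod_cast this
    refine ⟨hcopW hn hwn, ?_⟩
    intro x
    have e1 := ((hP x).1 x.2).2.2
    have e2 : Real.exp (η * L) ≤ X := by
      rw [hXL]
      apply Real.exp_le_exp.mpr
      nlinarith
    have : ((x : ℕ) : ℝ) < n := by linarith
    exact_mod_cast this
  · rw [Fintype.card_fin]
    exact hfin

end Pool.LGT
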