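import Pool.Agent.Work.MP_b0c12c_tup.Interface

/-! # Block SZT (helper59): sizes of the parts -/

set_option autoImplicit false

namespace Pool.LGT

open Finset Filter
open Pool.LGP Pool.LGC

theorem p_SZT : Stmt_SZT := by
  intro π ι κ _ S e ρ
  refine ⟨?_, ?_, ?_⟩
  · unfold Sys.szn
    rw [← Finset.prod_mul_distrib]
    refine Finset.prod_congr rfl fun x _ => ?_
    rcases h : ρ x with _ | (i | j) <;> simp [lf, rf, h, Sys.zl, Tn, Bs]
  · unfold Sys.ez
    rw [← Finset.prod_mul_distrib]
    refine Finset.prod_congr rfl fun x _ => ?_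
    rcases h : ρ x with _ | (i | j) <;> simp [lf, rf, h, Sys.el, Tn, Bs]
  · unfold act
    rw [← Finset.sum_add_distrib]
    refine Finset.sum_congr rfl fun x _ => ?_
    rcases h : ρ x with _ | (i | j) <;> simp [lf, rf, h, al]

end Pool.LGT
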