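import Pool.Agent.Work.MP_b0c12c_tup.Interface
import Pool.Agent.Work.MP_b0c12c_gaps.B_UAB

set_option autoImplicit false

namespace Pool.LGT

open Finset Filter
open Pool.LGP Pool.LGC

theorem p_UAG : Stmt_UAG := by
  classical
  intro P J R V c C ℓ hJ hc hC hℓ hP hRJ hR hV hVc hV0 hx
  have hJr : (0 : ℝ) < J := by exact_mod_cast hJ
  have hmono : ∀ i j, i ≤ j → j ≤ J → R j ≤ R i := by
    intro i j hij
    induction j, hij using Nat.le_induction with
    | base => intro _; exact le_rfl
    | succ j hij ih =>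
      intro hj
      exact (hR j (by omega)).le.trans (ih (by omega))
  have hw0 : ∀ T : Finset ℕ, 0 ≤ ∏ p ∈ T, (p : ℝ) := fun T => prod_nonneg fun p _ => Nat.cast_nonneg p
  have hwP : ∀ T ∈ P.powerset, 1 ≤ ∏ p ∈ T, (p : ℝ) := by
    intro T hT
    rw [mem_powerset] at hT
    have h1 : ∏ p ∈ T, (1 : ℝ) ≤ ∏ p ∈ T, (p : ℝ) :=
      prod_le_prod (fun _ _ => zero_le_one) (fun p hp => by exact_mod_cast hP p (hT hp))
    simpa using h1
  have hg0 : ∀ j T, 0 ≤ UAB_g R j T := by
    intro j T
    unfold UAB_g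
    split_ifs
    · exact one_div_nonneg.2 (hw0 T)
    · exact le_rfl
  have hVg : ∀ j < J, V j = ∑ T ∈ P.powerset, UAB_g R j T := fun j hj => hV j hj
  -- log R j ≤ V j * ℓ / c
  have hlog : ∀ j < J, Real.log (R j) ≤ V j * ℓ / c := by
    intro j hj
    have h1 := hVc j hj
    rw [le_div_iff₀ hc]
    have h2 : c * (Real.log (R j) / ℓ) * ℓ ≤ V j * ℓ := mul_le_mul_of_nonneg_right h1 hℓ.le
    have h3 : c * (Real.log (R j) / ℓ) * ℓ = Real.log (R j) * c := by field_simp
    linarith
  have hR1 : ∀ j ≤ J, 1 ≤ R j := fun j hj => hRJ.trans (hmono j J hj le_rfl)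
  set u : Finset ℕ → ℝ := fun T => ∑ j ∈ range J, 1 / (J * V j) * UAB_g R j T with hu
  have hcoef : ∀ j < J, 0 ≤ 1 / (J * V j) := fun j hj =>
    one_div_nonneg.2 (mul_nonneg hJr.le (hV0 j hj).le)
  have hterm : ∀ T, ∀ j ∈ range J, 0 ≤ 1 / (J * V j) * UAB_g R j T := fun T j hj =>
    mul_nonneg (hcoef j (mem_range.1 hj)) (hg0 j T)
  have hu0 : ∀ T, 0 ≤ u T := fun T => sum_nonneg (hterm T)
  -- a nonzero weight comes from a scale
  have hex : ∀ T, u T ≠ 0 → ∃ j < J, R (j + 1) < (∏ p ∈ T, (p : ℝ)) ∧ (∏ p ∈ T, (p : ℝ)) ≤ R j := by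
    intro T hT
    obtain ⟨j, hj, hne⟩ := exists_ne_zero_of_sum_ne_zero hT
    refine ⟨j, mem_range.1 hj, ?_⟩
    by_contra hcon
    apply hne
    have : UAB_g R j T = 0 := by
      unfold UAB_g
      rw [if_neg hcon]
    rw [this, mul_zero]
  -- only one scale
  have huniq : ∀ T, ∀ i < J, ∀ j < J, i ≠ j → UAB_g R i T * UAB_g R j T = 0 := by
    intro T i hi j hj hij
    unfold UAB_g
    by_cases h1 : R (i + 1) < (∏ p ∈ T, (p : ℝ)) ∧ (∏ p ∈ T, (p : ℝ)) ≤ R i
    · by_cases h2 : R (j + 1) < (∏ p ∈ T, (p : ℝ)) ∧ (∏ p ∈ T, (p : ℝ)) ≤ R j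
      · exfalso
        rcases lt_or_gt_of_ne hij with h | h
        · have := hmono (i + 1) j (by omega) (by omega)
          linarith [h1.1, h2.2]
        · have := hmono (j + 1) i (by omega) (by omega)
          linarith [h2.1, h1.2]
      · rw [if_neg h2, mul_zero]
    · rw [if_neg h1, zero_mul]
  have hsq : ∀ T, u T ^ 2 = ∑ j ∈ range J, (1 / (J * V j) * UAB_g R j T) ^ 2 := by
    intro T
    rw [hu, sq, sum_mul_sum]
    refine sum_congr rfl fun i hi => ?_
    rw [sum_eq_single i]
    · rw [sq]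
    · intro j hj hji
      have h1 := huniq T i (mem_range.1 hi) j (mem_range.1 hj) (Ne.symm hji)
      have : 1 / (J * V i) * UAB_g R i T * (1 / (J * V j) * UAB_g R j T) =
          1 / (J * V i) * (1 / (J * V j)) * (UAB_g R i T * UAB_g R j T) := by ring
      rw [this, h1, mul_zero]
    · intro h; exact absurd hi h
  -- the mass of one set
  have hmass : ∀ T ∈ P.powerset, u T ^ 2 * (∏ p ∈ T, (p : ℝ)) =
      ∑ j ∈ range J, 1 / (J * V j) ^ 2 * UAB_g R j T := by
    intro T hT
    have hw := hwP T hT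
    have hwpos : 0 < ∏ p ∈ T, (p : ℝ) := by linarith
    rw [hsq, sum_mul]
    refine sum_congr rfl fun j hj => ?_
    by_cases hI : R (j + 1) < (∏ p ∈ T, (p : ℝ)) ∧ (∏ p ∈ T, (p : ℝ)) ≤ R j
    · have hgv : UAB_g R j T = 1 / (∏ p ∈ T, (p : ℝ)) := by
        unfold UAB_g
        rw [if_pos hI]
      have hv := hV0 j (mem_range.1 hj)
      rw [hgv]
      field_simp
    · have hgv : UAB_g R j T = 0 := by
        unfold UAB_g
        rw [if_neg hI]
      rw [hgv]
      simp
  have hxj : ∀ j < J, ∀ x ∈ P, ∑ T ∈ P.powerset, (if x ∈ T then UAB_g R j T else 0) ≤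
      C / x * (V j / c) := by
    intro j hj x hxP
    have hxpos : (0 : ℝ) < x := by
      have := hP x hxP
      exact_mod_cast this
    have h3 : ∑ T ∈ P.powerset, (if x ∈ T then UAB_g R j T else 0) ≤
        C / x * (Real.log (R j) / ℓ) := by
      refine le_trans (sum_le_sum fun T hT => ?_) (hx j hj x hxP)
      have hw := hwP T hT
      unfold UAB_g
      by_cases hxT : x ∈ T
      · by_cases hI : R (j + 1) < (∏ p ∈ T, (p : ℝ)) ∧ (∏ p ∈ T, (p : ℝ)) ≤ R j
        · rw [if_pos hxT, if_pos hI, if_pos ⟨hxT, hI.2⟩]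
        · rw [if_pos hxT, if_neg hI]
          split_ifs
          · exact one_div_nonneg.2 (hw0 T)
          · exact le_rfl
      · rw [if_neg hxT]
        split_ifs
        · exact one_div_nonneg.2 (hw0 T)
        · exact le_rfl
    have hl : Real.log (R j) / ℓ ≤ V j / c := by
      rw [div_le_iff₀ hℓ]
      have := hlog j hj
      calc Real.log (R j) ≤ V j * ℓ / c := this
        _ = V j / c * ℓ := by ring
    exact h3.trans (mul_le_mul_of_nonneg_left hl (by positivity))
  refine ⟨u, hu0, ?_, ?_, ?_, ?_, ?_, ?_⟩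
  · rw [hu, sum_comm]
    have : ∀ j ∈ range J, ∑ T ∈ P.powerset, 1 / (J * V j) * UAB_g R j T = 1 / J := by
      intro j hj
      have hj' := mem_range.1 hj
      rw [← mul_sum, ← hVg j hj']
      have := (hV0 j hj').ne'
      field_simp
    rw [sum_congr rfl this, sum_const, card_range, nsmul_eq_mul]
    field_simp
  · intro T _ hT
    obtain ⟨j, hj, -, h2⟩ := hex T hT
    exact h2.trans (hmono 0 j (Nat.zero_le _) hj.le)
  · intro x hxP
    have hxpos : (0 : ℝ) < x := by
      have := hP x hxP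
      exact_mod_cast this
    have e0 : ∀ T ∈ P.powerset, (if x ∈ T then u T else 0) =
        ∑ j ∈ range J, 1 / (J * V j) * (if x ∈ T then UAB_g R j T else 0) := by
      intro T _
      split_ifs
      · rfl
      · simp
    rw [sum_congr rfl e0, sum_comm]
    have h2 : ∀ j ∈ range J, ∑ T ∈ P.powerset, 1 / (J * V j) * (if x ∈ T then UAB_g R j T else 0) ≤
        C / c / x / J := by
      intro j hj
      have hj' := mem_range.1 hj
      have hv := hV0 j hj'
      rw [← mul_sum]
      calc 1 / (J * V j) * ∑ T ∈ P.powerset, (if x ∈ T then UAB_g R j T else 0)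
          ≤ 1 / (J * V j) * (C / x * (V j / c)) :=
            mul_le_mul_of_nonneg_left (hxj j hj' x hxP) (hcoef j hj')
        _ = C / c / x / J := by field_simp
    refine (sum_le_sum h2).trans ?_
    rw [sum_const, card_range, nsmul_eq_mul]
    exact le_of_eq (by field_simp)
  · -- the cost
    have h1 : ∀ T ∈ P.powerset, u T ^ 2 * (∏ p ∈ T, (p : ℝ)) * Real.log (∏ p ∈ T, (p : ℝ)) ≤
        ∑ j ∈ range J, Real.log (R j) / (J * V j) ^ 2 * UAB_g R j T := by
      intro T hT
      have hw := hwP T hT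
      have hwpos : 0 < ∏ p ∈ T, (p : ℝ) := by linarith
      rw [hmass T hT, sum_mul]
      refine sum_le_sum fun j hj => ?_
      have hj' := mem_range.1 hj
      have hJV : 0 < (J * V j) ^ 2 := by
        have := hV0 j hj'
        positivity
      by_cases hI : R (j + 1) < (∏ p ∈ T, (p : ℝ)) ∧ (∏ p ∈ T, (p : ℝ)) ≤ R j
      · have hl : Real.log (∏ p ∈ T, (p : ℝ)) ≤ Real.log (R j) := Real.log_le_log hwpos hI.2
        have e1 : 1 / (J * V j) ^ 2 * UAB_g R j T * Real.log (∏ p ∈ T, (p : ℝ)) =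
            Real.log (∏ p ∈ T, (p : ℝ)) * (1 / (J * V j) ^ 2 * UAB_g R j T) := by ring
        have e2 : Real.log (R j) / (J * V j) ^ 2 * UAB_g R j T =
            Real.log (R j) * (1 / (J * V j) ^ 2 * UAB_g R j T) := by ring
        rw [e1, e2]
        exact mul_le_mul_of_nonneg_right hl (mul_nonneg (by positivity) (hg0 j T))
      · have hgv : UAB_g R j T = 0 := by
          unfold UAB_g
          rw [if_neg hI]
        rw [hgv]
        simp
    refine (sum_le_sum h1).trans ?_
    rw [sum_comm]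
    have h2 : ∀ j ∈ range J, ∑ T ∈ P.powerset, Real.log (R j) / (J * V j) ^ 2 * UAB_g R j T ≤
        ℓ / (c * J) / J := by
      intro j hj
      have hj' := mem_range.1 hj
      rw [← mul_sum, ← hVg j hj']
      have hv := hV0 j hj'
      have hl := hlog j hj'
      have e1 : Real.log (R j) / (J * V j) ^ 2 * V j = Real.log (R j) * (1 / (J ^ 2 * V j)) := by
        field_simp
      have e2 : ℓ / (c * J) / J = (V j * ℓ / c) * (1 / (J ^ 2 * V j)) := by
        field_simp
      rw [e1, e2]
      exact mul_le_mul_of_nonneg_right hl (by positivity)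
    refine (sum_le_sum h2).trans ?_
    rw [sum_const, card_range, nsmul_eq_mul]
    exact le_of_eq (by field_simp)
  · -- the mass
    rw [sum_congr rfl hmass, sum_comm, mul_sum]
    refine sum_congr rfl fun j hj => ?_
    have hv := hV0 j (mem_range.1 hj)
    rw [← mul_sum, ← hVg j (mem_range.1 hj)]
    field_simp
  · intro x hxP
    have hxpos : (0 : ℝ) < x := by
      have := hP x hxP
      exact_mod_cast this
    have e0 : ∀ T ∈ P.powerset, (if x ∈ T then u T ^ 2 * ∏ p ∈ T, (p : ℝ) else 0) =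
        ∑ j ∈ range J, 1 / (J * V j) ^ 2 * (if x ∈ T then UAB_g R j T else 0) := by
      intro T hT
      split_ifs
      · exact hmass T hT
      · simp
    rw [sum_congr rfl e0, sum_comm, mul_sum, mul_sum]
    refine sum_le_sum fun j hj => ?_
    have hj' := mem_range.1 hj
    have hv := hV0 j hj'
    rw [← mul_sum]
    calc 1 / (J * V j) ^ 2 * ∑ T ∈ P.powerset, (if x ∈ T then UAB_g R j T else 0)
        ≤ 1 / (J * V j) ^ 2 * (C / x * (V j / c)) :=
          mul_le_mul_of_nonneg_left (hxj j hj' x hxP) (by positivity)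
      _ = C / c / x * (1 / J ^ 2 * (1 / V j)) := by field_simp

end Pool.LGT
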