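import Pool.Agent.Work.MP_b0c12c_tup.Interface
import Pool.Agent.Work.MP_b0c12c_gaps.B_PRD

/-! # Block VUS (helper59): the mass of all square free products up to `R` -/

set_option autoImplicit false

namespace Pool.LGT

open Finset Filter
open Pool.LGP Pool.LGC

theorem p_VUS : Stmt_VUS := by
  classical
  obtain ⟨_, C, _, hC, hP⟩ := p_PRD
  refine ⟨C, hC, ?_⟩
  intro z R P hz hzR hPp
  have hz2 : (2 : ℝ) ≤ z := by exact_mod_cast hz
  have hR0 : (0 : ℝ) ≤ R := by linarith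
  have hlz : 0 < Real.log z := Real.log_pos (by linarith)
  set M : ℕ := ⌊R⌋₊ with hM
  have hMz : z ≤ M := Nat.le_floor hzR
  set P' : Finset ℕ := P.filter (fun p : ℕ => (p : ℝ) ≤ R) with hP'
  have hcond : ∀ T ∈ P.powerset, (∏ p ∈ T, (p : ℝ)) ≤ R → T ∈ P'.powerset := by
    intro T hT hc
    rw [mem_powerset]
    intro q hqT
    have hqP : q ∈ P := mem_powerset.mp hT hqT
    refine mem_filter.mpr ⟨hqP, ?_⟩
    have h3 : (q : ℝ) ≤ ∏ p ∈ T, (p : ℝ) := by
      rw [← mul_prod_erase T (fun p => (p : ℝ)) hqT]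
      have h4 : (1 : ℝ) ≤ ∏ p ∈ T.erase q, (p : ℝ) := by
        apply Finset.one_le_prod
        intro p hp
        have := (hPp p (mem_powerset.mp hT (mem_of_mem_erase hp))).1.pos
        exact_mod_cast this
      have h5 : (0 : ℝ) ≤ q := Nat.cast_nonneg q
      nlinarith
    exact h3.trans hc
  have hnn : ∀ T : Finset ℕ, (0 : ℝ) ≤ 1 / ∏ p ∈ T, (p : ℝ) := fun T =>
    div_nonneg zero_le_one (prod_nonneg (fun _ _ => Nat.cast_nonneg _))
  have hstep : ∑ T ∈ P.powerset, (if (∏ p ∈ T, (p : ℝ)) ≤ R then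
      1 / (∏ p ∈ T, (p : ℝ)) else 0) ≤
      ∑ T ∈ P'.powerset, 1 / (∏ p ∈ T, (p : ℝ)) := by
    rw [← sum_filter]
    apply sum_le_sum_of_subset_of_nonneg
    · intro T hT
      rw [mem_filter] at hT
      exact hcond T hT.1 hT.2
    · intro T _ _
      exact hnn T
  have hsum : ∑ T ∈ P'.powerset, 1 / (∏ p ∈ T, (p : ℝ)) =
      ∏ p ∈ P', (1 + 1 / (p : ℝ)) := by
    rw [prod_one_add]
    apply sum_congr rfl
    intro T _
    rw [prod_div_distrib, prod_const_one]
  have hle : ∏ p ∈ P', (1 + 1 / (p : ℝ)) ≤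
      ∏ p ∈ (Ioc z M).filter Nat.Prime, (1 + 1 / (p : ℝ)) := by
    apply Finset.prod_le_prod_of_subset_of_one_le
    · intro p hp
      have h6 := mem_filter.mp hp
      refine mem_filter.mpr ⟨mem_Ioc.mpr ⟨(hPp p h6.1).2, Nat.le_floor h6.2⟩, (hPp p h6.1).1⟩
    · intro p _
      have : (0 : ℝ) ≤ 1 / (p : ℝ) := by positivity
      linarith
    · intro p _ _
      have : (0 : ℝ) ≤ 1 / (p : ℝ) := by positivity
      linarith
  have hMR : Real.log M ≤ Real.log R := by
    apply Real.log_le_log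
    · have : 0 < M := by omega
      exact_mod_cast this
    · exact Nat.floor_le hR0
  have hfin := (hP z M hz hMz).2
  calc ∑ T ∈ P.powerset, (if (∏ p ∈ T, (p : ℝ)) ≤ R then
      1 / (∏ p ∈ T, (p : ℝ)) else 0)
      ≤ ∏ p ∈ P', (1 + 1 / (p : ℝ)) := by rw [← hsum]; exact hstep
    _ ≤ C * (Real.log M / Real.log z) := hle.trans hfin
    _ ≤ C * (Real.log R / Real.log z) := by
        gcongr

end Pool.LGT
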