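import Pool.Agent.Work.MP_b0c12c_chain.InterfaceY

/-! # Tuples at the record scale: definitions (helper73)

`Tn S e`     the system `S` with the further forms `W * y + e j` (the tuple)
`Bs S e`     the tuple alone
`lf`, `rf`   left and right part of a configuration
`bb`         coefficients of the tuple weight
`cc`         coefficients of the product of the two weights
`Gm`         mass of the one dimensional tuple weight
`DatT`       data of the construction -/

set_option autoImplicit false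

namespace Pool.LGT

open Finset Filter
open Pool.LGP Pool.LGC

variable {π ι κ : Type}

/-- The system with the further labels `κ`. -/
def Tn (S : Sys π ι) (e : κ → ℕ) : Sys π (ι ⊕ κ) where
  pr := S.pr
  W := S.W
  v := Sum.elim S.v e

/-- The tuple alone. -/
def Bs (S : Sys π ι) (e : κ → ℕ) : Sys π κ where
  pr := S.pr
  W := S.W
  v := e

/-- Left part of a configuration. -/
def lf (ρ : π → Option (ι ⊕ κ)) : π → Option ι :=
  fun x => (ρ x).bind (Sum.elim some (fun _ => none))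

/-- Right part of a configuration. -/
def rf (ρ : π → Option (ι ⊕ κ)) : π → Option κ :=
  fun x => (ρ x).bind (Sum.elim (fun _ => none) some)

section

variable [Fintype π]

/-- The mass of the weight `g`. -/
noncomputable def Gm (S : Sys π ι) (g : Finset π → ℝ) : ℝ := ∑ T : Finset π, g T ^ 2 * S.wt T

variable [Fintype κ] [DecidableEq κ]

/-- Coefficients of the tuple weight. -/
noncomputable def bb (S : Sys π ι) (e : κ → ℕ) (g : Finset π → ℝ) (D₂ : ℝ)
    (τ : π → Option κ) : ℝ :=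
  open Classical in if ((Bs S e).szn τ : ℝ) ≤ D₂ then ∏ j, g (fib τ j) else 0

/-- Coefficients of the product of the two weights. -/
noncomputable def cc [Fintype ι] [DecidableEq ι] (S : Sys π ι) (e : κ → ℕ) (u g : Finset π → ℝ)
    (D D₂ : ℝ) (ρ : π → Option (ι ⊕ κ)) : ℝ :=
  S.aa u D (lf ρ) * bb S e g D₂ (rf ρ)

/-- Data of the construction: `u` is the soft weight of the survivors (labels `ι`), `g` the weight
of the tuple (labels `κ`, values `e`). -/
structure DatT [DecidableEq π] [Fintype ι] [DecidableEq ι] (S : Sys π ι) (e : κ → ℕ)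
    (u g : Finset π → ℝ) (a b C K D z s R₀ D₂ Kg : ℝ) (Y Q : ℕ) : Prop where
  good : (Tn S e).Good
  W_pos : 0 < S.W
  uok : Uok S u a b C K
  z3 : 3 ≤ z
  z_le : ∀ x, z ≤ S.pr x
  K0 : 0 ≤ K
  C0 : 0 ≤ C
  s0 : 0 < s
  a1 : 1 ≤ a
  b1 : 1 < b
  bD : b ≤ D
  R1 : 1 ≤ R₀
  RD : R₀ < D₂
  Kg1 : 1 ≤ Kg
  h64 : 64 * (Real.log D + Real.log D₂) * ((Fintype.card ι : ℝ) + Fintype.card κ + 1) ≤ z
  hK : 16 * (Fintype.card ι : ℝ) ^ 2 * K ^ 2 ≤ z
  hC : (Fintype.card ι : ℝ) * Real.exp 2 * C ≤ Real.log (D / b) / 2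
  heta : ((Real.log D + Real.log D₂) * K / z) ^ 2 +
    Real.exp (-(Real.log (D / b) / Real.log b)) ≤ 1 / 32
  hs : (Fintype.card ι : ℝ) ≤ a ^ s
  tau : ∏ x, (1 + ((Fintype.card ι : ℝ) + Fintype.card κ) /
    (((S.pr x : ℝ) - 1) * √(S.pr x))) ≤ 9 / 8
  tau2 : ∑ x, 1 / (S.pr x : ℝ) ^ 2 ≤ 2 / z
  htau : 2 * ((Fintype.card ι : ℝ) + Fintype.card κ) / √z +
    80 * ((Fintype.card ι : ℝ) * K + Fintype.card κ * Kg) / z ≤ 1 / 8
  hQ : S.W * (D * D₂) ^ 2 ≤ Q
  g0 : ∀ T, 0 ≤ g T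
  g1 : ∑ T, g T = 1
  gR : ∀ T, g T ≠ 0 → S.wt T ≤ R₀
  gK : ∀ x, ∑ T, (if x ∈ T then g T else 0) ≤ Kg / S.pr x
  gq : ∀ x, ∑ T, (if x ∈ T then g T ^ 2 * S.wt T else 0) ≤ Kg / S.pr x * Gm S g
  gcost : 4 * Fintype.card κ * ∑ T, g T ^ 2 * S.wt T * Real.log (S.wt T) ≤
    Gm S g * Real.log (D₂ / R₀)
  hKg : 16 * ((Fintype.card κ : ℝ) + 1) ^ 2 * Kg ^ 2 * (1 + Real.log D + Real.log D₂) ≤ z
  hη : 8 * (Fintype.card κ : ℝ) * Fintype.card ι *
    (((Real.log D + Real.log D₂) * K / z) ^ 2 +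
      Real.exp (-(Real.log (D / b) / Real.log b))) ≤ 1
  hY : 4 * ((Fintype.card κ : ℝ) * Fintype.card ι + 1) *
    (2 * Real.exp 1 * D ^ (1 + s) * (2 * D₂)) ^ 2 ≤ Y * Gm S g ^ Fintype.card κ

end

/-- The product of the primes up to `w` different from `q`. -/
def WW (w q : ℕ) : ℕ := ∏ p ∈ (Icc 1 w).filter (fun p => p.Prime ∧ p ≠ q), p

end Pool.LGT
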