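import Pool.Agent.Work.MP_b0c12c_tup.Defs

/-! # Tuples at the record scale: statements of the blocks (helper73)

Block `X` lives in `B_X.lean` (import this file, namespace `Pool.LGT`) and proves
`theorem p_X : Stmt_X` or `theorem p_X (h1 : Stmt_Y) ... : Stmt_X` with the statements of the
column `uses` as hypotheses, in that order. -/

set_option autoImplicit false

namespace Pool.LGT

open Finset Filter
open Pool.LGP Pool.LGC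

/-! ## Part 1: the product of the two weights -/

/-- SZT: sizes of the parts. -/
def Stmt_SZT : Prop :=
  ∀ (π ι κ : Type) [Fintype π] (S : Sys π ι) (e : κ → ℕ) (ρ : π → Option (ι ⊕ κ)),
    (Tn S e).szn ρ = S.szn (lf ρ) * (Bs S e).szn (rf ρ) ∧
    (Tn S e).ez ρ = S.ez (lf ρ) * (Bs S e).ez (rf ρ) ∧
    act ρ = act (lf ρ) + act (rf ρ)

/-- PAI: configurations are pairs of configurations with disjoint supports. -/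
def Stmt_PAI : Prop :=
  ∀ (π ι κ : Type) [Fintype π] [DecidableEq π] [Fintype ι] [Fintype κ]
    (F : (π → Option ι) → (π → Option κ) → ℝ),
    ∑ ρ : π → Option (ι ⊕ κ), F (lf ρ) (rf ρ) =
      ∑ ρ₁ : π → Option ι, ∑ ρ₂ : π → Option κ,
        open Classical in if ∀ x, ρ₁ x = none ∨ ρ₂ x = none then F ρ₁ ρ₂ else 0

/-- PML: lower bound for a product measure on disjoint sets avoiding `B`, of bounded size. -/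
def Stmt_PML : Prop :=
  ∀ (π κ : Type) [Fintype π] [DecidableEq π] [Fintype κ] [DecidableEq κ]
    (f : κ → Finset π → ℝ) (s : Finset π → ℝ) (d : π → ℝ) (B : Finset π) (c M : ℝ),
    (∀ j T, 0 ≤ f j T) → (∀ j, ∑ T, f j T = 1) → (∀ T, 0 ≤ s T) →
    (∀ j, ∑ T, f j T * s T ≤ c) →
    (∀ j x, ∑ T, (if x ∈ T then f j T else 0) ≤ d x) → 0 < M →
    1 - Fintype.card κ * c / M - Fintype.card κ * ∑ x ∈ B, d x -
        (Fintype.card κ : ℝ) ^ 2 * ∑ x, d x ^ 2 ≤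
      ∑ ρ : π → Option κ, open Classical in
        if (∀ x ∈ B, ρ x = none) ∧ ∑ j, s (fib ρ j) ≤ M then ∏ j, f j (fib ρ j) else 0

/-- PSL: the label of a survivor is erased. -/
def Stmt_PSL : Prop :=
  ∀ (π ι κ : Type) [Fintype π] [DecidableEq π] [Fintype ι] [DecidableEq ι] [Fintype κ]
    [DecidableEq κ] (S : Sys π ι) (e : κ → ℕ) (u g : Finset π → ℝ) (a b C K D D₂ z : ℝ),
    Uok S u a b C K → 3 ≤ z → (∀ x, z ≤ S.pr x) → 0 ≤ K → 1 ≤ b → b ≤ D → 1 ≤ D₂ →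
    ∀ (m : ι) (σ : π → Option (ι ⊕ κ)),
    |push (Sum.inl m) (cc S e u g D D₂) σ| ≤ |bb S e g D₂ (rf σ)| *
      (∏ h, |gg u (fib (lf σ) h)|) * ((Real.log D + Real.log D₂) * K / z +
        open Classical in if D / b < S.szn (lf σ) then 1 else 0) ∧
    (push (Sum.inl m) (cc S e u g D D₂) σ ≠ 0 →
      (S.szn (lf σ) : ℝ) ≤ D ∧ ((Bs S e).szn (rf σ) : ℝ) ≤ D₂)

/-- PSR: the label of a point of the tuple is erased. -/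
def Stmt_PSR : Prop :=
  ∀ (π ι κ : Type) [Fintype π] [DecidableEq π] [Fintype ι] [DecidableEq ι] [Fintype κ]
    [DecidableEq κ] (S : Sys π ι) (e : κ → ℕ) (u g : Finset π → ℝ) (D D₂ R₀ Kg z : ℝ),
    3 ≤ z → (∀ x, z ≤ S.pr x) → (∀ T, 0 ≤ g T) → ∑ T, g T = 1 →
    (∀ T, g T ≠ 0 → S.wt T ≤ R₀) → (∀ x, ∑ T, (if x ∈ T then g T else 0) ≤ Kg / S.pr x) →
    0 ≤ Kg → 1 ≤ D → 1 ≤ D₂ → 2 * (Real.log D + Real.log D₂) * Kg ≤ z →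
    ∀ (j : κ) (σ : π → Option (ι ⊕ κ)),
    ((∃ x, σ x = some (Sum.inr j)) → push (Sum.inr j) (cc S e u g D D₂) σ = 0) ∧
    |push (Sum.inr j) (cc S e u g D D₂) σ| ≤
      |S.aa u D (lf σ)| * ∏ i ∈ univ.erase j, g (fib (rf σ) i) ∧
    ((∀ x, σ x ≠ some (Sum.inr j)) → ((Bs S e).szn (rf σ) : ℝ) * R₀ ≤ D₂ →
      |S.aa u D (lf σ)| * (∏ i ∈ univ.erase j, g (fib (rf σ) i)) / 2 ≤
        |push (Sum.inr j) (cc S e u g D D₂) σ|) ∧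
    (push (Sum.inr j) (cc S e u g D D₂) σ ≠ 0 →
      (S.szn (lf σ) : ℝ) ≤ D ∧ ((Bs S e).szn (rf σ) : ℝ) ≤ D₂)

/-- MTA: upper bound for the main quadratic form. -/
def Stmt_MTA : Prop :=
  ∀ (π ι κ : Type) [Fintype π] [DecidableEq π] [Fintype ι] [DecidableEq ι] [Fintype κ]
    [DecidableEq κ] (S : Sys π ι) (e : κ → ℕ) (u g : Finset π → ℝ) (D D₂ : ℝ),
    MM (Tn S e) (cc S e u g D D₂) ≤ S.Q1 u ^ Fintype.card ι * Gm S g ^ Fintype.card κ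

/-- MTB: upper bound for the forms with the label of a survivor erased. -/
def Stmt_MTB : Prop :=
  ∀ (π ι κ : Type) [Fintype π] [DecidableEq π] [Fintype ι] [DecidableEq ι] [Fintype κ]
    [DecidableEq κ] (S : Sys π ι) (e : κ → ℕ) (u g : Finset π → ℝ) (a b C K D D₂ z : ℝ),
    Uok S u a b C K → 3 ≤ z → (∀ x, z ≤ S.pr x) → 0 ≤ K → 0 ≤ C → 1 < b → b ≤ D → 1 ≤ D₂ →
    (Fintype.card ι : ℝ) * Real.exp 2 * C ≤ Real.log (D / b) / 2 → ∀ m : ι,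
    MM (Tn S e) (push (Sum.inl m) (cc S e u g D D₂)) ≤
      2 * (((Real.log D + Real.log D₂) * K / z) ^ 2 +
        Real.exp (-(Real.log (D / b) / Real.log b))) *
        (S.Q1 u ^ Fintype.card ι * Gm S g ^ Fintype.card κ)

/-- MTC: lower bound for the forms with the label of a point of the tuple erased. -/
def Stmt_MTC : Prop :=
  ∀ (π ι κ : Type) [Fintype π] [DecidableEq π] [Fintype ι] [DecidableEq ι] [Fintype κ]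
    [DecidableEq κ] (S : Sys π ι) (e : κ → ℕ) (u g : Finset π → ℝ)
    (a b C K D z s R₀ D₂ Kg : ℝ) (Y Q : ℕ), DatT S e u g a b C K D z s R₀ D₂ Kg Y Q →
    ∀ j : κ, 0 < Gm S g ∧ S.Q1 u ^ Fintype.card ι * Gm S g ^ Fintype.card κ ≤
      16 * Gm S g * MM (Tn S e) (push (Sum.inr j) (cc S e u g D D₂))

/-- MTD: the configurations active at one prime. -/
def Stmt_MTD : Prop :=
  ∀ (π ι κ : Type) [Fintype π] [DecidableEq π] [Fintype ι] [DecidableEq ι] [Fintype κ]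
    [DecidableEq κ] (S : Sys π ι) (e : κ → ℕ) (u g : Finset π → ℝ)
    (a b C K D z s R₀ D₂ Kg : ℝ) (Y Q : ℕ), DatT S e u g a b C K D z s R₀ D₂ Kg Y Q →
    ∀ (j : κ) (x₀ : π), Gm S g * ∑ σ : π → Option (ι ⊕ κ), (open Classical in
      if σ x₀ = none then 0 else
        push (Sum.inr j) (cc S e u g D D₂) σ ^ 2 * (Tn S e).szn σ) ≤
      ((Fintype.card ι : ℝ) * K + Fintype.card κ * Kg) / S.pr x₀ *
        (S.Q1 u ^ Fintype.card ι * Gm S g ^ Fintype.card κ)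

/-- EET: the error weight of the coefficients. -/
def Stmt_EET : Prop :=
  ∀ (π ι κ : Type) [Fintype π] [DecidableEq π] [Fintype ι] [DecidableEq ι] [Fintype κ]
    [DecidableEq κ] (S : Sys π ι) (e : κ → ℕ) (u g : Finset π → ℝ)
    (a b C K D z s R₀ D₂ Kg : ℝ) (Y Q : ℕ), DatT S e u g a b C K D z s R₀ D₂ Kg Y Q →
    EE (Tn S e) (cc S e u g D D₂) ≤ 2 * Real.exp 1 * D ^ (1 + s) * (2 * D₂)

/-! ## Part 2: the means -/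

/-- S1T: upper bounds for the total mass and for the mass of the rough values of the survivors. -/
def Stmt_S1T : Prop :=
  ∀ (π ι κ : Type) [Fintype π] [DecidableEq π] [Fintype ι] [DecidableEq ι] [Fintype κ]
    [DecidableEq κ] (S : Sys π ι) (e : κ → ℕ) (u g : Finset π → ℝ)
    (a b C K D z s R₀ D₂ Kg : ℝ) (Y Q : ℕ), DatT S e u g a b C K D z s R₀ D₂ Kg Y Q →
    ∑ y ∈ Ioc Y (2 * Y), FF (Tn S e) (cc S e u g D D₂) y ^ 2 ≤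
      3 * Y * (S.Q1 u ^ Fintype.card ι * Gm S g ^ Fintype.card κ) ∧
    ∀ m : ι, ∑ y ∈ Ioc Y (2 * Y), (if ∀ x, ¬ S.pr x ∣ S.N m y then
        FF (Tn S e) (cc S e u g D D₂) y ^ 2 else 0) ≤
      (4 * (((Real.log D + Real.log D₂) * K / z) ^ 2 +
        Real.exp (-(Real.log (D / b) / Real.log b))) +
        1 / (4 * ((Fintype.card κ : ℝ) * Fintype.card ι + 1))) *
      Y * (S.Q1 u ^ Fintype.card ι * Gm S g ^ Fintype.card κ)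

/-- COEG: coefficients with a ramified prime of the family. -/
def Stmt_COEG : Prop :=
  ∀ (π ι : Type) [Fintype π] [DecidableEq π] [Fintype ι] (S : Sys π ι), S.Good →
    ∀ (a : (π → Option ι) → ℝ) (z : ℝ) (e : ℕ), 3 ≤ z → (∀ x, z ≤ S.pr x) → Ext S e →
    (∀ ρ, a ρ ≠ 0 → 64 * (act ρ : ℝ) * (Fintype.card ι + 1) ≤ z) →
    ∏ x, (1 + (Fintype.card ι : ℝ) / (((S.pr x : ℝ) - 1) * √(S.pr x))) ≤ 9 / 8 →
    ∀ (X : ∀ x : π, DirichletCharacter ℂ (S.pr x)) (x₀ : π), X x₀ ≠ 1 →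
      ‖cX S e a X‖ ≤ 2 * (Fintype.card ι : ℝ) / √z * MM S a +
        5 * ∑ ρ : π → Option ι, (open Classical in
          if ρ x₀ = none then 0 else a ρ ^ 2 * S.szn ρ)

/-- NOY: the modulus of a primitive character which agrees with a character modulo `W`. -/
def Stmt_NOY : Prop :=
  ∀ (π : Type) [Fintype π] (pr : π → ℕ) (y : Ch) (W : ℕ), 0 < y.1 → 0 < W →
    (∀ x, (pr x).Prime) → y.2.IsPrimitive → ∀ χ : DirichletCharacter ℂ W,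
    (∀ n : ℕ, n.Coprime W → (∀ x, n.Coprime (pr x)) →
      y.2 (n : ZMod y.1) = χ (n : ZMod W)) → y.1 ∣ W

/-- S2T: lower bound for the prime weighted sums. -/
def Stmt_S2T : Prop :=
  ∀ (π ι κ : Type) [Fintype π] [DecidableEq π] [Fintype ι] [DecidableEq ι] [Fintype κ]
    [DecidableEq κ] (S : Sys π ι) (e : κ → ℕ) (u g : Finset π → ℝ)
    (a b C K D z s R₀ D₂ Kg : ℝ) (Y Q : ℕ), DatT S e u g a b C K D z s R₀ D₂ Kg Y Q →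
    ∀ y₁ : Ch, 0 < y₁.1 → y₁.2.IsPrimitive → (y₁.2 ≠ 1 → ¬ y₁.1 ∣ S.W) →
    ∀ (j : κ) (f : ℕ), (Tn S (Function.update e j f)).Good →
    Ext (Tn S (Function.update e j f)) (e j) → (e j).Coprime S.W →
    (∃ R : ℝ, 0 ≤ R ∧ R ≤ S.W * Y ∧
      MomE y₁ R Q (S.W * Y + e j) (2 * (S.W * Y) + e j) ≤ (S.W : ℝ) * Y / 8) →
    (∀ n : ℕ, n.Prime → S.W * Y < n → n.Coprime S.W ∧ ∀ x, S.pr x < n) →
    (S.W : ℝ) * Y * (S.Q1 u ^ Fintype.card ι * Gm S g ^ Fintype.card κ) ≤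
      128 * Gm S g * S.W.totient *
        ∑ y ∈ Ioc Y (2 * Y), FF (Tn S e) (cc S e u g D D₂) y ^ 2 * th (S.W * y + e j)

/-- MIDT: some `y` has only composite survivors and many primes in the tuple. -/
def Stmt_MIDT : Prop :=
  ∀ (π ι κ : Type) [Fintype π] [DecidableEq π] [Fintype ι] [DecidableEq ι] [Fintype κ]
    [DecidableEq κ] (S : Sys π ι) (e : κ → ℕ) (u g : Finset π → ℝ)
    (a b C K D z s R₀ D₂ Kg : ℝ) (Y Q : ℕ), DatT S e u g a b C K D z s R₀ D₂ Kg Y Q →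
    ∀ y₁ : Ch, 0 < y₁.1 → y₁.2.IsPrimitive → (y₁.2 ≠ 1 → ¬ y₁.1 ∣ S.W) →
    ∀ (f : ℕ) (Λ : ℝ) (m : ℕ),
    (∀ j, (Tn S (Function.update e j f)).Good ∧ Ext (Tn S (Function.update e j f)) (e j) ∧
      (e j).Coprime S.W ∧ (∃ R : ℝ, 0 ≤ R ∧ R ≤ S.W * Y ∧
        MomE y₁ R Q (S.W * Y + e j) (2 * (S.W * Y) + e j) ≤ (S.W : ℝ) * Y / 8) ∧
      Real.log ((2 * (S.W * Y) + e j : ℕ) : ℝ) ≤ Λ) → 0 < Λ →
    (∀ n : ℕ, n.Prime → S.W * Y < n → n.Coprime S.W ∧ ∀ x, S.pr x < n) →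
    128 * (3 * (m : ℝ) + 1) * Gm S g * Λ * S.W.totient < Fintype.card κ * S.W →
    ∃ y ∈ Ioc Y (2 * Y), (∀ h : ι, ¬ (S.N h y).Prime) ∧
      m + 1 ≤ (univ.filter (fun j : κ => (S.W * y + e j).Prime)).card

/-! ## Part 3: existence of the data -/

/-- VUS: the mass of all square free products up to `R`. -/
def Stmt_VUS : Prop :=
  ∃ C : ℝ, 0 < C ∧ ∀ (z : ℕ) (R : ℝ) (P : Finset ℕ), 2 ≤ z → (z : ℝ) ≤ R →
    (∀ p ∈ P, p.Prime ∧ z < p) →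
    ∑ T ∈ P.powerset, (open Classical in
        if (∏ p ∈ T, (p : ℝ)) ≤ R then 1 / (∏ p ∈ T, (p : ℝ)) else 0) ≤
      C * (Real.log R / Real.log z)

/-- UAG: the weight from the masses of the scales, with its mass. -/
def Stmt_UAG : Prop :=
  ∀ (P : Finset ℕ) (J : ℕ) (R V : ℕ → ℝ) (c C ℓ : ℝ), 0 < J → 0 < c → 0 < C → 0 < ℓ →
    (∀ p ∈ P, 1 ≤ p) → 1 ≤ R J → (∀ j < J, R (j + 1) < R j) →
    (∀ j < J, V j = ∑ T ∈ P.powerset, (open Classical in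
        if R (j + 1) < (∏ p ∈ T, (p : ℝ)) ∧ (∏ p ∈ T, (p : ℝ)) ≤ R j then
        1 / (∏ p ∈ T, (p : ℝ)) else 0)) →
    (∀ j < J, c * (Real.log (R j) / ℓ) ≤ V j) → (∀ j < J, 0 < V j) →
    (∀ j < J, ∀ x ∈ P, ∑ T ∈ P.powerset, (open Classical in
        if x ∈ T ∧ (∏ p ∈ T, (p : ℝ)) ≤ R j then 1 / (∏ p ∈ T, (p : ℝ)) else 0) ≤
      C / x * (Real.log (R j) / ℓ)) →
    ∃ u : Finset ℕ → ℝ, (∀ T, 0 ≤ u T) ∧ ∑ T ∈ P.powerset, u T = 1 ∧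
      (∀ T ∈ P.powerset, u T ≠ 0 → ∏ p ∈ T, (p : ℝ) ≤ R 0) ∧
      (∀ x ∈ P, ∑ T ∈ P.powerset, (if x ∈ T then u T else 0) ≤ (C / c) / x) ∧
      ∑ T ∈ P.powerset, u T ^ 2 * (∏ p ∈ T, (p : ℝ)) * Real.log (∏ p ∈ T, (p : ℝ)) ≤
        ℓ / (c * J) ∧
      ∑ T ∈ P.powerset, u T ^ 2 * (∏ p ∈ T, (p : ℝ)) = 1 / J ^ 2 * ∑ j ∈ range J, 1 / V j ∧
      ∀ x ∈ P, ∑ T ∈ P.powerset, (if x ∈ T then u T ^ 2 * ∏ p ∈ T, (p : ℝ) else 0) ≤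
        (C / c) / x * (1 / J ^ 2 * ∑ j ∈ range J, 1 / V j)

/-- GMT: the weight of one point of the tuple, with `n` scales. -/
def Stmt_GMT : Prop :=
  ∃ c₁ C₁ Kg : ℝ, 0 < c₁ ∧ 0 < C₁ ∧ 1 ≤ Kg ∧ ∀ θ η : ℝ, 0 < θ → θ ≤ η → ∀ n : ℕ, 1 ≤ n →
    ∃ L₀ : ℝ, ∀ L : ℝ, L₀ ≤ L → ∀ P : Finset ℕ,
    (∀ p : ℕ, p ∈ P ↔ p.Prime ∧ ⌈L ^ 3⌉₊ < p ∧ (p : ℝ) ≤ Real.exp (η * L)) →
    ∀ (ι : Type) (S : Sys P ι), (∀ x : P, S.pr x = (x : ℕ)) →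
    ∃ g : Finset P → ℝ, (∀ T, 0 ≤ g T) ∧ ∑ T, g T = 1 ∧
      (∀ T, g T ≠ 0 → S.wt T ≤ Real.exp (θ * L)) ∧
      (∀ x, ∑ T, (if x ∈ T then g T else 0) ≤ Kg / S.pr x) ∧
      (∀ x, ∑ T, (if x ∈ T then g T ^ 2 * S.wt T else 0) ≤ Kg / S.pr x * Gm S g) ∧
      c₁ * ((4 : ℝ) ^ n / n ^ 2) * (Real.log L / (θ * L)) ≤ Gm S g ∧
      Gm S g ≤ C₁ * ((4 : ℝ) ^ n / n ^ 2) * (Real.log L / (θ * L)) ∧
      ∑ T, g T ^ 2 * S.wt T * Real.log (S.wt T) ≤ C₁ * (Real.log L / n)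

/-- DATT: the data exist. -/
def Stmt_DATT : Prop :=
  ∀ κA Cφ : ℝ, 0 < κA → 0 < Cφ → ∃ κ₀ κ' η C₃ : ℝ, 0 < κ₀ ∧ κ₀ ≤ 1 / 8 ∧ 0 < κ' ∧ κ' ≤ 1 ∧
    0 < η ∧ η ≤ 1 / 2 ∧ 0 < C₃ ∧ ∀ m : ℕ, ∃ k₀ : ℕ, 1 ≤ k₀ ∧
    (k₀ : ℝ) ≤ Real.exp (C₃ * (m + 1)) ∧ ∃ L₀ : ℝ, ∀ L : ℝ, L₀ ≤ L → ∀ P : Finset ℕ,
    (∀ p : ℕ, p ∈ P ↔ p.Prime ∧ ⌈L ^ 3⌉₊ < p ∧ (p : ℝ) ≤ Real.exp (η * L)) →
    ∀ (ι : Type) [Fintype ι] [DecidableEq ι] (S : Sys P ι) (e : Fin k₀ → ℕ),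
    (∀ x : P, S.pr x = (x : ℕ)) → (Tn S e).Good → 0 < S.W →
    S.W ≤ primorial ⌊κ₀ * L⌋₊ → (S.W.totient : ℝ) * Real.log L ≤ Cφ * S.W →
    (Fintype.card ι : ℝ) ≤ κ' * L →
    ∀ Y Q : ℕ, Real.exp (L / 2) ≤ Y → Real.exp (κA * L) ≤ Q + 1 →
    ∃ (u g : Finset P → ℝ) (a b C K D z s R₀ D₂ Kg : ℝ),
      DatT S e u g a b C K D z s R₀ D₂ Kg Y Q ∧
      128 * (3 * (m : ℝ) + 1) * Gm S g * (2 * L) * S.W.totient < k₀ * S.W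

/-- WPQ: the modulus divided by its totient. -/
def Stmt_WPQ : Prop :=
  ∃ Cφ : ℝ, 0 < Cφ ∧ ∀ κ₀ : ℝ, 0 < κ₀ → ∃ L₀ : ℝ, ∀ L : ℝ, L₀ ≤ L → ∀ q : ℕ,
    ((WW ⌊κ₀ * L⌋₊ q).totient : ℝ) * Real.log L ≤ Cφ * WW ⌊κ₀ * L⌋₊ q

/-- SCT: many primes in a tuple at a scale, all other survivors composite. -/
def Stmt_SCT : Prop :=
  ∀ κA : ℝ, 0 < κA → ∃ κ₀ κ' C₃ : ℝ, 0 < κ₀ ∧ 0 < κ' ∧ 0 < C₃ ∧
    ∀ m : ℕ, ∃ k₀ : ℕ, 1 ≤ k₀ ∧ (k₀ : ℝ) ≤ Real.exp (C₃ * (m + 1)) ∧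
    ∃ X₀ : ℝ, ∀ X : ℝ, X₀ ≤ X →
    ∀ y₁ : Ch, 0 < y₁.1 → y₁.2.IsPrimitive → GoodE (1 / 8) κA X y₁ →
    ∀ (w v H q : ℕ) (E : Finset ℕ), w = ⌊κ₀ * Real.log X⌋₊ → (y₁.2 ≠ 1 → ¬ y₁.1 ∣ WW w q) →
    v < WW w q → (H : ℝ) ≤ Real.log X ^ 2 → E ⊆ Icc 1 H → E.card = k₀ →
    (∀ h ∈ E, (v + h).Coprime (WW w q)) →
    (((Icc 1 H).filter (fun h => (v + h).Coprime (WW w q))).card : ℝ) ≤ κ' * Real.log X →
    ∃ a : ℕ, X ≤ a ∧ ((a + H : ℕ) : ℝ) ≤ 4 * X ∧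
      (∀ n ∈ Ioc a (a + H), n.Prime → ∃ h ∈ E, n = a + h) ∧
      m + 1 ≤ (E.filter (fun h => (a + h).Prime)).card

/-! ## Part 4: residues compatible with the tuple -/

/-- CRC: counting with the Chinese remainder theorem. -/
def Stmt_CRC : Prop :=
  ∀ (R : Finset ℕ), (∀ p ∈ R, p.Prime) → ∀ (P : ℕ → ℕ → Prop) [∀ p r, Decidable (P p r)],
    ((range (∏ p ∈ R, p)).filter (fun v => ∀ p ∈ R, P p (v % p))).card =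
      ∏ p ∈ R, ((range p).filter (fun r => P p r)).card

/-- AVK: the residues compatible with `A` and the probability that `v + n` survives. -/
def Stmt_AVK : Prop :=
  ∀ (R A : Finset ℕ), (∀ p ∈ R, p.Prime) → (∀ p ∈ R, ∃ r : ℕ, ∀ h ∈ A, ¬ h ≡ r [MOD p]) →
    ∃ V : Finset ℕ, V.Nonempty ∧ (∀ v ∈ V, ∀ h ∈ A, ∀ p ∈ R, ¬ p ∣ v + h) ∧
      ∀ n : ℕ, ((V.filter (fun v => ∀ p ∈ R, ¬ p ∣ v + n)).card : ℝ) ≤
        V.card * ∏ p ∈ R, (open Classical in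
          if ∃ h ∈ A, n ≡ h [MOD p] then 1 else 1 - 1 / (p : ℝ))

/-- FSK: powers of the singular factor have bounded mean. -/
def Stmt_FSK : Prop :=
  ∀ k : ℕ, ∃ C : ℝ, 0 < C ∧ ∀ (R : Finset ℕ) (H : ℕ), (∀ p ∈ R, p.Prime) →
    ∑ n ∈ Icc 1 H, (∏ p ∈ R, (if p ∣ n then (1 - 1 / (p : ℝ))⁻¹ else 1)) ^ k ≤ C * H

/-- AVE: a shift `c` and a residue `v₀` with few survivors. -/
def Stmt_AVE : Prop :=
  ∀ k : ℕ, ∃ C : ℝ, 0 < C ∧ ∀ (R A B : Finset ℕ) (H : ℕ), 0 < H → (∀ p ∈ R, p.Prime) →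
    A.card ≤ k → A ⊆ Icc 1 H → (∀ p ∈ R, ∃ r : ℕ, ∀ h ∈ A, ¬ h ≡ r [MOD p]) →
    ∃ c < H, ∃ v₀ : ℕ, (∀ h ∈ A, ∀ p ∈ R, ¬ p ∣ v₀ + h) ∧
      (((Icc 1 H).filter (fun h => h + c ∈ B ∧ ∀ p ∈ R, ¬ p ∣ v₀ + h)).card : ℝ) ≤
        k + C * (Pi' R * B.card)

/-- SRQ: integers without prime factor in `(yy w, w]`, except possibly `q`. -/
def Stmt_SRQ : Prop :=
  ∃ C : ℝ, 0 < C ∧ ∀ᶠ w : ℕ in atTop, ∀ (H q : ℕ) (A : Finset ℕ), w ≤ H →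
    (H : ℝ) ≤ w * Real.log w ^ 3 → A ⊆ Icc 1 H →
    (∀ n ∈ A, ∀ p : ℕ, p.Prime → p ≠ q → yy w < p → p ≤ w → ¬ p ∣ n) →
    (A.card : ℝ) ≤ C * (H * Real.log (Real.log w) / Real.log w)

/-- MEQ: the sieve product of the small primes, without `q`. -/
def Stmt_MEQ : Prop :=
  ∃ C : ℝ, 0 < C ∧ ∀ᶠ w : ℕ in atTop, ∀ q : ℕ,
    Pi' ((Icc 1 ⌊yy w⌋₊).filter (fun p => p.Prime ∧ p ≠ q)) ≤
      C * (Real.log (Real.log w) / (Real.log w * Real.log (Real.log (Real.log w))))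

/-- LFT: residues modulo `WW w q`. -/
def Stmt_LFT : Prop :=
  ∀ (w q : ℕ) (r : ℕ → ℕ), ∃ v < WW w q,
    ∀ p : ℕ, p.Prime → p ≤ w → p ≠ q → v ≡ r p [MOD p]

/-- RESK: a residue compatible with the tuple with few survivors. -/
def Stmt_RESK : Prop :=
  ∀ k : ℕ, ∃ C : ℝ, 0 < C ∧ ∀ᶠ w : ℕ in atTop, ∀ (H q : ℕ) (A : Finset ℕ), w ≤ H →
    (H : ℝ) ≤ w * Real.log w ^ 2 → A ⊆ Icc 1 H → A.card ≤ k →
    (∀ p : ℕ, p.Prime → ∃ r : ℕ, ∀ h ∈ A, ¬ h ≡ r [MOD p]) →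
    ∃ v < WW w q, (∀ h ∈ A, (v + h).Coprime (WW w q)) ∧
      (((Icc 1 H).filter (fun h => (v + h).Coprime (WW w q))).card : ℝ) ≤
        C * (H * Real.log (Real.log w) ^ 2 /
          (Real.log w ^ 2 * Real.log (Real.log (Real.log w))))

/-! ## Part 5: the final theorem and its corollaries -/

/-- TUP: the final theorem. -/
def Stmt_TUP : Prop :=
  ∃ C : ℝ, 0 < C ∧ ∀ m : ℕ, 1 ≤ m → ∃ κ : ℝ, 0 < κ ∧ ∀ᶠ X : ℕ in atTop, ∀ E : Finset ℕ,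
    Real.exp (C * m) ≤ E.card → (∀ h ∈ E, (h : ℝ) ≤ κ * ff X) →
    (∀ p : ℕ, p.Prime → ∃ r : ℕ, ∀ h ∈ E, ¬ h ≡ r [MOD p]) →
    ∃ a : ℕ, (X : ℝ) / 4 ≤ a ∧ a + κ * ff X ≤ X ∧
      (∀ q : ℕ, q.Prime → a ≤ q → (q : ℝ) ≤ a + κ * ff X → ∃ h ∈ E, q = a + h) ∧
      m ≤ (E.filter (fun h => (a + h).Prime)).card

/-- NTH: two primes of the tuple give two consecutive primes with a prescribed difference. -/
def Stmt_NTH : Prop :=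
  ∀ (E : Finset ℕ) (a b : ℕ), (∀ h ∈ E, h ≤ b) →
    (∀ q : ℕ, q.Prime → a ≤ q → q ≤ a + b → ∃ h ∈ E, q = a + h) →
    2 ≤ (E.filter (fun h => (a + h).Prime)).card →
    ∃ n, ∃ h ∈ E, ∃ h' ∈ E, h < h' ∧ Nat.nth Nat.Prime n = a + h ∧
      Nat.nth Nat.Prime (n + 1) = a + h'

/-- GRD: a set of differences meeting all sets of `k` multiples of `q` is large. -/
def Stmt_GRD : Prop :=
  ∀ (k q M : ℕ) (D : Finset ℕ), 1 ≤ k → 1 ≤ q →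
    (∀ E : Finset ℕ, E.card = k → (∀ h ∈ E, h ≤ M ∧ q ∣ h) →
      ∃ h ∈ E, ∃ h' ∈ E, h < h' ∧ h' - h ∈ D) →
    M / q + 1 ≤ k * (2 * D.card + 1)

/-- DIS: many different gaps below `X`. -/
def Stmt_DIS : Prop :=
  ∃ c : ℝ, 0 < c ∧ ∀ᶠ X : ℕ in atTop, c * ff X ≤
    ({d : ℕ | ∃ n, Nat.nth Nat.Prime (n + 1) ≤ X ∧
      Nat.nth Nat.Prime (n + 1) - Nat.nth Nat.Prime n = d}.ncard : ℝ)

/-- ISO: `m` primes in a bounded interval, isolated on both sides at the record scale. -/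
def Stmt_ISO : Prop :=
  ∀ m : ℕ, ∃ (B : ℕ) (κ : ℝ), 0 < κ ∧ ∀ᶠ X : ℕ in atTop, ∃ a : ℕ, (a : ℝ) + κ * ff X ≤ X ∧
    (X : ℝ) / 4 ≤ (a : ℝ) - κ * ff X ∧ m ≤ ((Icc a (a + B)).filter Nat.Prime).card ∧
    ∀ q : ℕ, q.Prime → (a : ℝ) - κ * ff X ≤ q → (q : ℝ) ≤ a + κ * ff X → a ≤ q ∧ q ≤ a + B

end Pool.LGT
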